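import Mathlib

/-!
# Column number of Delta-modular matrices, part A: definitions and row deletion
-/

set_option autoImplicit false
set_option linter.unusedSectionVars false

open Finset Matrix

namespace Pool.Agent.H423Z.Delta

variable {ι : Type} [Fintype ι] [DecidableEq ι]

/-- the square matrix with rows `ρ` and columns `c` -/
def mat {κ : Type} (ρ : κ → ι) (c : κ → ι → ℝ) : Matrix κ κ ℝ := Matrix.of fun a b => c b (ρ a)

def Cong (X : Finset (ι → ℝ)) : Prop := ∀ x ∈ X, ∀ y ∈ X, ∀ i, ∃ n : ℤ, x i - y i = n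

def CX (X : Finset (ι → ℝ)) : Prop :=
  ∀ (κ : Type) [Fintype κ] [DecidableEq κ] (ρ : κ → ι) (c : κ → ι → ℝ), (∀ t, c t ∈ X) →
    |(mat ρ c).det| ≤ 1

def CY (X : Finset (ι → ℝ)) : Prop :=
  ∀ (κ : Type) [Fintype κ] [DecidableEq κ] (ρ : κ → ι) (c : κ → ι → ℝ) (y : ι → ℝ) (l : κ → ℝ),
    (∀ t, c t ∈ X) → y ∈ X → (∀ a, y (ρ a) = ∑ t, l t * c t (ρ a)) →
    |(mat ρ c).det| * (1 + ∑ t, |l t|) ≤ 2

def Supp (X : Finset (ι → ℝ)) (R : Finset ι) : Prop := ∀ x ∈ X, ∀ i, i ∉ R → x i = 0

open Classical in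
/-- delete row `j` -/
noncomputable def prj (X : Finset (ι → ℝ)) (j : ι) : Finset (ι → ℝ) :=
  X.image fun x => Function.update x j 0

open Classical in
/-- the points of the projection with two lifts -/
noncomputable def dbl (X : Finset (ι → ℝ)) (j : ι) : Finset (ι → ℝ) :=
  (prj X j).filter fun z => ∃ u v : ℝ, u + 1 ≤ v ∧ Function.update z j u ∈ X ∧
    Function.update z j v ∈ X

theorem mem_prj {X : Finset (ι → ℝ)} {j : ι} {z : ι → ℝ} :
    z ∈ prj X j ↔ ∃ x ∈ X, Function.update x j 0 = z := by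
  classical
  simp [prj]

theorem dbl_sub (X : Finset (ι → ℝ)) (j : ι) : dbl X j ⊆ prj X j := by
  classical
  exact Finset.filter_subset _ _

theorem mem_dbl {X : Finset (ι → ℝ)} {j : ι} {z : ι → ℝ} (h : z ∈ dbl X j) :
    ∃ u v : ℝ, u + 1 ≤ v ∧ Function.update z j u ∈ X ∧ Function.update z j v ∈ X := by
  classical
  exact (Finset.mem_filter.1 h).2

theorem prj_zero {X : Finset (ι → ℝ)} {j : ι} {z : ι → ℝ} (h : z ∈ prj X j) : z j = 0 := by
  obtain ⟨x, -, rfl⟩ := mem_prj.1 h
  simp

theorem Cong.mono {X Y : Finset (ι → ℝ)} (h : Cong X) (hY : Y ⊆ X) : Cong Y :=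
  fun x hx y hy => h x (hY hx) y (hY hy)

theorem CX.mono {X Y : Finset (ι → ℝ)} (h : CX X) (hY : Y ⊆ X) : CX Y :=
  fun κ _ _ ρ c hc => h κ ρ c fun t => hY (hc t)

theorem Supp.mono {X Y : Finset (ι → ℝ)} {R : Finset ι} (h : Supp X R) (hY : Y ⊆ X) : Supp Y R :=
  fun x hx => h x (hY hx)

theorem CX.entry {X : Finset (ι → ℝ)} (h : CX X) {x : ι → ℝ} (hx : x ∈ X) (i : ι) : |x i| ≤ 1 := by
  have := h Unit (fun _ => i) (fun _ => x) (fun _ => hx)
  simpa [mat] using this

theorem Cong.prj {X : Finset (ι → ℝ)} (h : Cong X) (j : ι) : Cong (prj X j) := by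
  intro z hz w hw i
  obtain ⟨x, hx, rfl⟩ := mem_prj.1 hz
  obtain ⟨y, hy, rfl⟩ := mem_prj.1 hw
  by_cases hi : i = j
  · subst hi; exact ⟨0, by simp⟩
  · simpa [Function.update_of_ne hi] using h x hx y hy i

theorem Supp.prj {X : Finset (ι → ℝ)} {R : Finset ι} (h : Supp X R) (j : ι) :
    Supp (prj X j) (R.erase j) := by
  intro z hz i hi
  obtain ⟨x, hx, rfl⟩ := mem_prj.1 hz
  by_cases hij : i = j
  · subst hij; simp
  · rw [Function.update_of_ne hij]
    exact h x hx i fun hR => hi (Finset.mem_erase.2 ⟨hij, hR⟩)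

theorem det_zero_of_row {X : Finset (ι → ℝ)} {j : ι} {κ : Type} [Fintype κ] [DecidableEq κ]
    (ρ : κ → ι) (c : κ → ι → ℝ) (hc : ∀ t, c t ∈ prj X j) {a : κ} (ha : ρ a = j) :
    (mat ρ c).det = 0 := by
  apply Matrix.det_eq_zero_of_row_eq_zero a
  intro b
  simp only [mat, Matrix.of_apply, ha]
  exact prj_zero (hc b)

theorem CX.prj {X : Finset (ι → ℝ)} (h : CX X) (j : ι) : CX (prj X j) := by
  intro κ _ _ ρ c hc
  by_cases hj : ∃ a, ρ a = j
  · obtain ⟨a, ha⟩ := hj
    rw [det_zero_of_row ρ c hc ha]; simp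
  · push Not at hj
    choose x hx hxc using fun t => mem_prj.1 (hc t)
    have : mat ρ c = mat ρ x := by
      ext a b
      simp only [mat, Matrix.of_apply]
      rw [← hxc b, Function.update_of_ne (hj a)]
    rw [this]
    exact h κ ρ x hx

theorem CY.prj {X : Finset (ι → ℝ)} (h : CY X) (j : ι) : CY (prj X j) := by
  intro κ _ _ ρ c y l hc hy hl
  by_cases hj : ∃ a, ρ a = j
  · obtain ⟨a, ha⟩ := hj
    rw [det_zero_of_row ρ c hc ha]; simp
  · push Not at hj
    choose x hx hxc using fun t => mem_prj.1 (hc t)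
    obtain ⟨y', hy', hyy⟩ := mem_prj.1 hy
    have e : ∀ a b, c b (ρ a) = x b (ρ a) := by
      intro a b
      rw [← hxc b, Function.update_of_ne (hj a)]
    have : mat ρ c = mat ρ x := by
      ext a b
      simp only [mat, Matrix.of_apply, e]
    rw [this]
    refine h κ ρ x y' l hx hy' fun a => ?_
    have h1 := hl a
    rw [← hyy, Function.update_of_ne (hj a)] at h1
    simpa only [e] using h1

/-- counting the fibres of the projection -/
theorem card_le_prj {X : Finset (ι → ℝ)} (hc : Cong X) (hx : CX X) (j : ι) :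
    X.card ≤ (prj X j).card + 2 * (dbl X j).card := by
  classical
  have h1 : X.card = ∑ z ∈ prj X j, (X.filter fun x => Function.update x j 0 = z).card := by
    apply Finset.card_eq_sum_card_fiberwise
    intro x hx
    exact mem_prj.2 ⟨x, hx, rfl⟩
  have ext' : ∀ z : ι → ℝ, ∀ x, Function.update x j 0 = z → Function.update z j (x j) = x := by
    intro z x h
    rw [← h]; simp
  have h3 : ∀ z, (X.filter fun x => Function.update x j 0 = z).card ≤ 3 := by
    intro z
    have : (X.filter fun x => Function.update x j 0 = z).card ≤ (Finset.Icc (-1 : ℤ) 1).card := by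
      apply Finset.card_le_card_of_injOn (fun x => ⌊x j⌋)
      · intro x hx'
        have h4 := abs_le.1 (hx.entry (Finset.mem_filter.1 hx').1 j)
        simp only [Finset.coe_Icc, Set.mem_Icc]
        constructor
        · rw [Int.le_floor]; push_cast; exact h4.1
        · have : ⌊x j⌋ ≤ ⌊(1 : ℝ)⌋ := Int.floor_le_floor h4.2
          simpa using this
      · intro x hx1 y hy1 hxy
        have hx2 := Finset.mem_filter.1 hx1
        have hy2 := Finset.mem_filter.1 hy1
        obtain ⟨n, hn⟩ := hc x hx2.1 y hy2.1 j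
        have h5 : x j = y j + n := by linarith
        have h6 : ⌊x j⌋ = ⌊y j⌋ := hxy
        rw [h5, Int.floor_add_intCast] at h6
        have h7 : n = 0 := by omega
        rw [← ext' z x hx2.2, ← ext' z y hy2.2, h5, h7]; simp
    simpa using this
  have h2 : ∀ z ∈ prj X j, (X.filter fun x => Function.update x j 0 = z).card ≤
      1 + 2 * (if z ∈ dbl X j then 1 else 0) := by
    intro z hz
    by_cases hd : z ∈ dbl X j
    · rw [if_pos hd]; exact h3 z
    · rw [if_neg hd]
      simp only [mul_zero, add_zero]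
      rw [Finset.card_le_one]
      intro x hx1 y hy1
      have hx2 := Finset.mem_filter.1 hx1
      have hy2 := Finset.mem_filter.1 hy1
      obtain ⟨n, hn⟩ := hc x hx2.1 y hy2.1 j
      by_contra hne
      apply hd
      have hn0 : n ≠ 0 := by
        rintro rfl
        apply hne
        have h5 : x j = y j := by simpa [sub_eq_zero] using hn
        rw [← ext' z x hx2.2, ← ext' z y hy2.2, h5]
      refine Finset.mem_filter.2 ⟨hz, ?_⟩
      rcases lt_or_gt_of_ne hn0 with h | h
      · have : (n : ℝ) ≤ -1 := by exact_mod_cast (show n ≤ -1 by omega)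
        refine ⟨x j, y j, by linarith, ?_, ?_⟩
        · rw [ext' z x hx2.2]; exact hx2.1
        · rw [ext' z y hy2.2]; exact hy2.1
      · have : (1 : ℝ) ≤ n := by exact_mod_cast (show 1 ≤ n by omega)
        refine ⟨y j, x j, by linarith, ?_, ?_⟩
        · rw [ext' z y hy2.2]; exact hy2.1
        · rw [ext' z x hx2.2]; exact hx2.1
  rw [h1]
  refine (Finset.sum_le_sum h2).trans (le_of_eq ?_)
  rw [Finset.sum_add_distrib, ← Finset.mul_sum, Finset.sum_boole]
  simp only [Finset.sum_const, smul_eq_mul, mul_one, Nat.cast_id]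
  congr 2
  congr 1
  ext z
  simp only [Finset.mem_filter]
  exact ⟨fun h => h.2, fun h => ⟨dbl_sub X j h, h⟩⟩

/-- bordered determinant -/
theorem border {κ : Type} [Fintype κ] [DecidableEq κ] (M : Matrix κ κ ℝ) (l a : κ → ℝ) (α : ℝ)
    (N : Matrix (κ ⊕ Unit) (κ ⊕ Unit) ℝ)
    (h1 : ∀ s t, N (Sum.inl s) (Sum.inl t) = M s t)
    (h2 : ∀ s, N (Sum.inl s) (Sum.inr ()) = ∑ t, l t * M s t)
    (h3 : ∀ t, N (Sum.inr ()) (Sum.inl t) = a t)
    (h4 : N (Sum.inr ()) (Sum.inr ()) = α) :
    N.det = M.det * (α - ∑ t, a t * l t) := by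
  have : N = Matrix.fromBlocks M 0 (Matrix.of fun _ t => a t)
      (Matrix.of fun _ _ => α - ∑ t, a t * l t) *
      Matrix.fromBlocks 1 (Matrix.of fun t _ => l t) 0 1 := by
    rw [Matrix.fromBlocks_multiply]
    ext s t
    rcases s with s | s <;> rcases t with t | t
    · simp [h1]
    · simp [h2, Matrix.mul_apply, mul_comm]
    · simp [h3]
    · simp [h4, Matrix.mul_apply]
  rw [this, Matrix.det_mul, Matrix.det_fromBlocks_zero₁₂, Matrix.det_fromBlocks_zero₂₁]
  simp

theorem CX.dbl {X : Finset (ι → ℝ)} (h : CX X) (j : ι) : CY (dbl X j) := by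
  intro κ _ _ ρ c y l hc hy hl
  by_cases hj : ∃ a, ρ a = j
  · obtain ⟨a, ha⟩ := hj
    rw [det_zero_of_row ρ c (fun t => dbl_sub X j (hc t)) ha]; simp
  push Not at hj
  choose u v huv hu hv using fun t => mem_dbl (hc t)
  obtain ⟨u0, v0, huv0, hu0, hv0⟩ := mem_dbl hy
  have key : ∀ (a : κ → ℝ) (α : ℝ), (∀ t, Function.update (c t) j (a t) ∈ X) →
      Function.update y j α ∈ X → |(mat ρ c).det * (α - ∑ t, a t * l t)| ≤ 1 := by
    intro a α ha hα
    have h1 := h (κ ⊕ Unit) (Sum.elim ρ fun _ => j)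
      (Sum.elim (fun t => Function.update (c t) j (a t)) fun _ => Function.update y j α)
      (by rintro (t | t); exacts [ha t, hα])
    rw [border (mat ρ c) l a α] at h1
    · exact h1
    · intro s t
      simp [mat, Function.update_of_ne (hj s)]
    · intro s
      simp [mat, Function.update_of_ne (hj s), hl s]
    · intro t
      simp [mat]
    · simp [mat]
  have k1 := key (fun t => if 0 ≤ l t then u t else v t) v0
    (fun t => by split_ifs; exacts [hu t, hv t]) hv0
  have k2 := key (fun t => if 0 ≤ l t then v t else u t) u0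
    (fun t => by split_ifs; exacts [hv t, hu t]) hu0
  set P := v0 - ∑ t, (if 0 ≤ l t then u t else v t) * l t with hP
  set Q := u0 - ∑ t, (if 0 ≤ l t then v t else u t) * l t with hQ
  have h5 : 1 + ∑ t, |l t| ≤ P - Q := by
    have : ∑ t, |l t| ≤ ∑ t, ((if 0 ≤ l t then v t else u t) * l t -
        (if 0 ≤ l t then u t else v t) * l t) := by
      apply Finset.sum_le_sum
      intro t _
      have := huv t
      split_ifs with hl0
      · rw [abs_of_nonneg hl0]; nlinarith
      · push Not at hl0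
        rw [abs_of_neg hl0]; nlinarith
    rw [Finset.sum_sub_distrib] at this
    rw [hP, hQ]
    linarith
  rw [abs_mul] at k1 k2
  have h6 : P - Q ≤ |P| + |Q| := by
    have := le_abs_self P
    have := neg_le_abs Q
    linarith
  have h7 := abs_nonneg (mat ρ c).det
  calc |(mat ρ c).det| * (1 + ∑ t, |l t|) ≤ |(mat ρ c).det| * (|P| + |Q|) :=
        mul_le_mul_of_nonneg_left (h5.trans h6) h7
    _ ≤ 2 := by rw [mul_add]; linarith

end Pool.Agent.H423Z.Delta
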