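import Pool.Agent.H423Z.DeltaA

/-!
# Column number of Delta-modular matrices, part B: deleting a row that is not half-integral
-/

set_option autoImplicit false
set_option linter.unusedSectionVars false

open Finset Matrix

namespace Pool.Agent.H423Z.Delta

variable {ι : Type} [Fintype ι] [DecidableEq ι]

def M2 (Z : Finset (ι → ℝ)) : Prop :=
  ∀ z ∈ Z, ∀ w ∈ Z, ∀ s s', |z s * w s' - w s * z s'| ≤ 1 / 2

theorem CY.m2 {Y : Finset (ι → ℝ)} (h : CY Y) (j : ι) : M2 (dbl Y j) := by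
  intro z hz w hw s s'
  have hz0 := prj_zero (dbl_sub Y j hz)
  have hw0 := prj_zero (dbl_sub Y j hw)
  by_cases hs : s = j
  · subst hs; simp [hz0, hw0]
  by_cases hs' : s' = j
  · subst hs'; simp [hz0, hw0]
  obtain ⟨u1, v1, h1, hu1, hv1⟩ := mem_dbl hz
  obtain ⟨u2, v2, h2, hu2, hv2⟩ := mem_dbl hw
  have hd : 0 < v1 - u1 := by linarith
  have key := h (Fin 3) ![j, s, s']
    ![Function.update z j u1, Function.update z j v1, Function.update w j u2]
    (Function.update w j v2) ![-((v2 - u2) / (v1 - u1)), (v2 - u2) / (v1 - u1), 1]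
    (by intro t; fin_cases t <;> simpa) hv2
    (by
      intro a
      fin_cases a
      · simp [Fin.sum_univ_three]; field_simp; ring
      · simp [Fin.sum_univ_three, Function.update_of_ne hs]
      · simp [Fin.sum_univ_three, Function.update_of_ne hs'])
  have e1 : (mat ![j, s, s']
      ![Function.update z j u1, Function.update z j v1, Function.update w j u2]).det =
      -(v1 - u1) * (z s * w s' - w s * z s') := by
    rw [Matrix.det_fin_three]
    simp [mat, Function.update_of_ne hs, Function.update_of_ne hs']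
    ring
  have hq : 0 ≤ (v2 - u2) / (v1 - u1) := div_nonneg (by linarith) hd.le
  rw [e1, Fin.sum_univ_three] at key
  simp only [Matrix.cons_val_zero, Matrix.cons_val_one, Matrix.cons_val_two, Matrix.head_cons,
    Matrix.tail_cons, abs_neg, abs_one, abs_mul, abs_of_nonneg hq, abs_of_pos hd] at key
  set D := |z s * w s' - w s * z s'|
  have hD : 0 ≤ D := abs_nonneg _
  have e2 : (v1 - u1) * D * (1 + ((v2 - u2) / (v1 - u1) + (v2 - u2) / (v1 - u1) + 1)) =
      2 * ((v1 - u1) + (v2 - u2)) * D := by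
    field_simp; ring
  rw [e2] at key
  nlinarith

theorem fact1 {Z : Finset (ι → ℝ)} (hc : Cong Z) (hm : M2 Z) {z w : ι → ℝ} (hz : z ∈ Z)
    (hw : w ∈ Z) (hne : z ≠ w) {s : ι} (hs : z s = w s) : |z s| ≤ 1 / 2 := by
  obtain ⟨s', hs'⟩ := Function.ne_iff.1 hne
  obtain ⟨n, hn⟩ := hc w hw z hz s'
  have hn0 : n ≠ 0 := by
    rintro rfl
    apply hs'
    simp only [Int.cast_zero] at hn
    linarith
  have h1 := hm z hz w hw s s'
  rw [← hs, ← mul_sub, hn, abs_mul] at h1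
  have h2 : (1 : ℝ) ≤ |(n : ℝ)| := by
    have : 1 ≤ |n| := Int.one_le_abs hn0
    exact_mod_cast this
  nlinarith [abs_nonneg (z s)]

theorem near {a b : ℝ} {n : ℤ} (ha : |a| ≤ 1) (hb : |b| ≤ 1) (h : 1 / 2 < |a|) (hn : a - b = n)
    (hne : a ≠ b) : (0 < a ∧ b = a - 1) ∨ (a < 0 ∧ b = a + 1) ∨ (b = -a ∧ (a = 1 ∨ a = -1)) := by
  have hn0 : n ≠ 0 := by
    rintro rfl
    apply hne
    simp only [Int.cast_zero] at hn
    linarith
  have ha' := abs_le.1 ha
  have hb' := abs_le.1 hb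
  have h1 : (n : ℝ) ≤ 2 := by linarith
  have h2 : (-2 : ℝ) ≤ n := by linarith
  have h3 : n ≤ 2 := by exact_mod_cast h1
  have h4 : -2 ≤ n := by exact_mod_cast h2
  rcases lt_abs.1 h with h5 | h5
  · interval_cases n
    · push_cast at hn; linarith
    · push_cast at hn; linarith
    · exact absurd rfl hn0
    · left; push_cast at hn; constructor <;> linarith
    · right; right; push_cast at hn
      exact ⟨by linarith, Or.inl (by linarith)⟩
  · interval_cases n
    · right; right; push_cast at hn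
      exact ⟨by linarith, Or.inr (by linarith)⟩
    · right; left; push_cast at hn; constructor <;> linarith
    · exact absurd rfl hn0
    · push_cast at hn; linarith
    · push_cast at hn; linarith

theorem arith1 {a b c d : ℝ} {n k : ℤ} (ha : |a| ≤ 1) (hb : |b| ≤ 1) (hc : |c| ≤ 1)
    (hd : |d| ≤ 1) (h1 : 3 / 4 < |a|) (h2 : 3 / 4 < |d|) (hn : a - b = n) (hk : d - c = k)
    (hab : a ≠ b) (hdc : d ≠ c) (hdet : |a * d - b * c| ≤ 1 / 2) : b = -a := by
  have hdet' := abs_le.1 hdet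
  rcases near ha hb (by linarith) hn hab with ⟨h3, h4⟩ | ⟨h3, h4⟩ | ⟨h3, -⟩
  · rw [abs_of_pos h3] at h1
    rcases near hd hc (by linarith) hk hdc with ⟨h5, h6⟩ | ⟨h5, h6⟩ | ⟨h5, h6 | h6⟩
    · rw [abs_of_pos h5] at h2; subst h4 h6; nlinarith
    · rw [abs_of_neg h5] at h2; subst h4 h6; nlinarith
    · subst h4 h5 h6; nlinarith
    · subst h4 h5 h6; nlinarith
  · rw [abs_of_neg h3] at h1
    rcases near hd hc (by linarith) hk hdc with ⟨h5, h6⟩ | ⟨h5, h6⟩ | ⟨h5, h6 | h6⟩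
    · rw [abs_of_pos h5] at h2; subst h4 h6; nlinarith
    · rw [abs_of_neg h5] at h2; subst h4 h6; nlinarith
    · subst h4 h5 h6; nlinarith
    · subst h4 h5 h6; nlinarith
  · exact h3

theorem card_E1 {Z E : Finset (ι → ℝ)} (hc : Cong Z) (hx : CX Z) (hm : M2 Z) (hE : E ⊆ Z)
    (h : ∀ z ∈ E, ∃ s, 3 / 4 < |z s|) : E.card ≤ 2 := by
  by_contra hlt
  push Not at hlt
  obtain ⟨p, q, w, hp, hq, hw, hpq, hpw, hqw⟩ := Finset.two_lt_card_iff.1 hlt
  obtain ⟨s, hs⟩ := h p hp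
  have key : ∀ z ∈ E, p ≠ z → z s = -p s := by
    intro z hz hpz
    obtain ⟨s', hs'⟩ := h z hz
    obtain ⟨n, hn⟩ := hc p (hE hp) z (hE hz) s
    obtain ⟨k, hk⟩ := hc z (hE hz) p (hE hp) s'
    refine arith1 (hx.entry (hE hp) s) (hx.entry (hE hz) s) (hx.entry (hE hp) s')
      (hx.entry (hE hz) s') hs hs' hn hk ?_ ?_ (hm p (hE hp) z (hE hz) s s')
    · intro he
      have := fact1 hc hm (hE hp) (hE hz) hpz he
      linarith
    · intro he
      have := fact1 hc hm (hE hz) (hE hp) hpz.symm he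
      linarith
  have h1 := key q hq hpq
  have h2 := key w hw hpw
  have h3 := fact1 hc hm (hE hq) (hE hw) hqw (h1.trans h2.symm)
  rw [h1, abs_neg] at h3
  linarith

theorem card_E2 {Z E : Finset (ι → ℝ)} (hc : Cong Z) (hx : CX Z) (hm : M2 Z) (hE : E ⊆ Z)
    (h : ∀ z ∈ E, ∃ s, 1 / 2 < |z s| ∧ |z s| ≤ 3 / 4) : E.card ≤ 8 := by
  classical
  choose s hs1 hs2 using fun z : E => h z.1 z.2
  set ε : E → ℝ := fun a => if 0 < a.1 (s a) then 1 else -1 with hε
  set τ : E → ℝ := fun a => |a.1 (s a)| - 1 with hτ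
  have hM : mat s (fun b : E => b.1) =
      Matrix.diagonal ε * (1 + (Matrix.replicateCol Unit τ : Matrix E Unit ℝ) *
        (Matrix.replicateRow Unit (1 : E → ℝ) : Matrix Unit E ℝ)) := by
    ext a b
    rw [Matrix.diagonal_mul]
    simp only [mat, Matrix.of_apply, Matrix.add_apply, Matrix.mul_apply, Matrix.replicateCol_apply,
      Matrix.replicateRow_apply, Pi.one_apply, mul_one, Finset.univ_unique, Finset.sum_singleton,
      hε, hτ]
    have h1 := hs1 a
    have h2 := hs2 a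
    by_cases hab : a = b
    · subst hab
      rw [Matrix.one_apply_eq]
      split_ifs with h0
      · rw [abs_of_pos h0]; ring
      · rw [abs_of_nonpos (not_lt.1 h0)]; ring
    · rw [Matrix.one_apply_ne hab]
      obtain ⟨n, hn⟩ := hc a.1 (hE a.2) b.1 (hE b.2) (s a)
      have hne : a.1 (s a) ≠ b.1 (s a) := by
        intro he
        have := fact1 hc hm (hE a.2) (hE b.2) (fun e => hab (Subtype.ext e)) he
        linarith
      rcases near (hx.entry (hE a.2) (s a)) (hx.entry (hE b.2) (s a)) h1 hn hne with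
        ⟨h3, h4⟩ | ⟨h3, h4⟩ | ⟨-, h4 | h4⟩
      · rw [if_pos h3, abs_of_pos h3, h4]; ring
      · rw [if_neg (not_lt.2 h3.le), abs_of_neg h3, h4]; ring
      · rw [h4] at h2; norm_num at h2
      · rw [h4] at h2; norm_num at h2
  have h1 := hx E s (fun b : E => b.1) (fun b => hE b.2)
  rw [hM, Matrix.det_mul, Matrix.det_diagonal, Matrix.det_one_add_replicateCol_mul_replicateRow,
    abs_mul, Finset.abs_prod] at h1
  have h2 : ∏ a : E, |ε a| = 1 := by
    apply Finset.prod_eq_one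
    intro a _
    simp only [hε]
    split_ifs <;> simp
  rw [h2, one_mul] at h1
  have h3 : (1 : E → ℝ) ⬝ᵥ τ ≤ ∑ _a : E, (-1 / 4 : ℝ) := by
    unfold dotProduct
    apply Finset.sum_le_sum
    intro a _
    have := hs2 a
    simp only [Pi.one_apply, one_mul, hτ]
    linarith
  simp only [Finset.sum_const, Finset.card_univ, Fintype.card_coe, nsmul_eq_mul] at h3
  have h4 := (abs_le.1 h1).1
  have h5 : (E.card : ℝ) ≤ 8 := by linarith
  exact_mod_cast h5

theorem triple {Y : Finset (ι → ℝ)} (hy : CY Y) (j : ι) {a b h : ι → ℝ} (hh : h ∈ dbl Y j)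
    {s1 s2 : ι} (h1 : h s1 = 1 / 2 ∨ h s1 = -1 / 2) (h2 : h s2 = 1 / 2 ∨ h s2 = -1 / 2)
    (ha1 : a s1 = -h s1) (hb1 : b s1 = h s1) (ha2 : a s2 = h s2) (hb2 : b s2 = -h s2)
    {α β : ℝ} (hα : Function.update a j α ∈ Y) (hβ : Function.update b j β ∈ Y) :
    |α + β| ≤ 1 := by
  have hh0 := prj_zero (dbl_sub Y j hh)
  have hs1 : s1 ≠ j := by
    rintro rfl
    rw [hh0] at h1; norm_num at h1
  have hs2 : s2 ≠ j := by
    rintro rfl
    rw [hh0] at h2; norm_num at h2
  obtain ⟨u, v, huv, hu, hv⟩ := mem_dbl hh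
  have hd : 0 < v - u := by linarith
  have key := hy (Fin 3) ![j, s1, s2]
    ![Function.update a j α, Function.update h j u, Function.update h j v]
    (Function.update b j β) ![-1, -((α + β) / (v - u)), (α + β) / (v - u)]
    (by intro t; fin_cases t <;> simpa) hβ
    (by
      intro t
      fin_cases t
      · simp [Fin.sum_univ_three]; field_simp; ring
      · simp [Fin.sum_univ_three, Function.update_of_ne hs1, ha1, hb1]
      · simp [Fin.sum_univ_three, Function.update_of_ne hs2, ha2, hb2])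
  have e1 : (mat ![j, s1, s2]
      ![Function.update a j α, Function.update h j u, Function.update h j v]).det =
      -(v - u) * (2 * (h s1 * h s2)) := by
    rw [Matrix.det_fin_three]
    simp [mat, Function.update_of_ne hs1, Function.update_of_ne hs2, ha1, ha2]
    ring
  have e3 : |2 * (h s1 * h s2)| = 1 / 2 := by
    rcases h1 with h1 | h1 <;> rcases h2 with h2 | h2 <;> rw [h1, h2] <;> norm_num
  rw [e1, Fin.sum_univ_three, abs_mul, e3] at key
  simp only [Matrix.cons_val_zero, Matrix.cons_val_one, Matrix.cons_val_two, Matrix.head_cons,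
    Matrix.tail_cons, abs_neg, abs_one, abs_div, abs_of_pos hd] at key
  have e2 : (v - u) * (1 / 2) * (1 + (1 + |α + β| / (v - u) + |α + β| / (v - u))) =
      (v - u) + |α + β| := by
    field_simp; ring
  rw [e2] at key
  linarith

theorem half1 {x y : ℝ} {n : ℤ} (hx : |x| ≤ 1 / 2) (hy : |y| ≤ 1 / 2) (hn : x - y = n)
    (hne : x ≠ y) : (y = 1 / 2 ∨ y = -1 / 2) ∧ x = -y := by
  have hn0 : n ≠ 0 := by
    rintro rfl
    apply hne
    simp only [Int.cast_zero] at hn
    linarith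
  have hx' := abs_le.1 hx
  have hy' := abs_le.1 hy
  rcases lt_or_gt_of_ne hn0 with h | h
  · have : (n : ℝ) ≤ -1 := by exact_mod_cast (show n ≤ -1 by omega)
    exact ⟨Or.inl (by linarith), by linarith⟩
  · have : (1 : ℝ) ≤ n := by exact_mod_cast (show 1 ≤ n by omega)
    exact ⟨Or.inr (by linarith), by linarith⟩

theorem three {Y : Finset (ι → ℝ)} (hc : Cong Y) (hy : CY Y) (j : ι) {W : Finset (ι → ℝ)}
    (hW : W ⊆ dbl Y j) (hs : ∀ z ∈ W, ∀ s, |z s| ≤ 1 / 2) {u : ℝ}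
    (hu : ∀ z ∈ W, Function.update z j u ∈ Y ∧ ∃ v, u + 1 ≤ v ∧ Function.update z j v ∈ Y)
    (hu2 : u ≠ -1 / 2) : W.card ≤ 2 := by
  have hcW : Cong W := ((hc.prj j).mono (dbl_sub Y j)).mono hW
  have k1 : ∀ a ∈ W, ∀ b ∈ W, ∀ h ∈ W, ∀ s1 s2, (h s1 = 1 / 2 ∨ h s1 = -1 / 2) →
      (h s2 = 1 / 2 ∨ h s2 = -1 / 2) → a s1 = -h s1 → b s1 = h s1 → a s2 = h s2 →
      b s2 = -h s2 → False := by
    intro a ha b hb h hh s1 s2 h1 h2 ha1 hb1 ha2 hb2
    obtain ⟨hua, va, hva, hva'⟩ := hu a ha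
    obtain ⟨hub, vb, hvb, hvb'⟩ := hu b hb
    have t1 := abs_le.1 (triple hy j (hW hh) h1 h2 ha1 hb1 ha2 hb2 hua hub)
    have t2 := abs_le.1 (triple hy j (hW hh) h1 h2 ha1 hb1 ha2 hb2 hva' hvb')
    apply hu2
    linarith
  have k2 : ∀ p ∈ W, ∀ q ∈ W, ∀ w ∈ W, ∀ s, p s ≠ q s → w s = q s → q ≠ w → False := by
    intro p hp q hq w hw s h1 h2 h3
    obtain ⟨n, hn⟩ := hcW p hp q hq s
    obtain ⟨h4, h5⟩ := half1 (hs p hp s) (hs q hq s) hn h1
    obtain ⟨s', hs'⟩ := Function.ne_iff.1 h3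
    obtain ⟨k, hk⟩ := hcW q hq w hw s'
    obtain ⟨h6, h7⟩ := half1 (hs q hq s') (hs w hw s') hk hs'
    by_cases h8 : p s' = w s'
    · exact k1 p hp q hq w hw s s' (h2 ▸ h4) h6 (h2 ▸ h5) h2.symm h8 h7
    · obtain ⟨k', hk'⟩ := hcW p hp w hw s'
      obtain ⟨-, h9⟩ := half1 (hs p hp s') (hs w hw s') hk' h8
      refine k1 p hp w hw q hq s s' h4 ?_ h5 h2 (h9.trans h7.symm) (by linarith)
      rcases h6 with h6 | h6
      · right; linarith
      · left; linarith
  by_contra hlt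
  push Not at hlt
  obtain ⟨p, q, w, hp, hq, hw, hpq, hpw, hqw⟩ := Finset.two_lt_card_iff.1 hlt
  obtain ⟨s, hs0⟩ := Function.ne_iff.1 hpq
  by_cases h1 : w s = q s
  · exact k2 p hp q hq w hw s hs0 h1 hqw
  · obtain ⟨n, hn⟩ := hcW p hp q hq s
    obtain ⟨-, h5⟩ := half1 (hs p hp s) (hs q hq s) hn hs0
    obtain ⟨k, hk⟩ := hcW w hw q hq s
    obtain ⟨-, h6⟩ := half1 (hs w hw s) (hs q hq s) hk h1
    exact k2 q hq p hp w hw s hs0.symm (h6.trans h5.symm) hpw

theorem card_W {Y : Finset (ι → ℝ)} (hc : Cong Y) (hx : CX Y) (hy : CY Y) (j : ι)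
    (hj : ∀ y ∈ Y, y j ≠ -1 / 2) {W : Finset (ι → ℝ)}
    (hW : W ⊆ dbl Y j) (hs : ∀ z ∈ W, ∀ s, |z s| ≤ 1 / 2) : W.card ≤ 4 := by
  classical
  have hex : ∀ z, ∃ u v : ℝ, z ∈ W → (u + 1 ≤ v ∧ Function.update z j u ∈ Y ∧
      Function.update z j v ∈ Y) := by
    intro z
    by_cases hz : z ∈ W
    · obtain ⟨u, v, h⟩ := mem_dbl (hW hz)
      exact ⟨u, v, fun _ => h⟩
    · exact ⟨0, 0, fun h => absurd h hz⟩
  choose u v huv using hex
  have h1 : (W.filter fun z => u z = -1).card ≤ 2 := by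
    refine three hc hy j ((Finset.filter_subset _ _).trans hW)
      (fun z hz => hs z (Finset.mem_filter.1 hz).1) (u := -1) ?_ (by norm_num)
    intro z hz
    obtain ⟨hz1, hz2⟩ := Finset.mem_filter.1 hz
    obtain ⟨h1, h2, h3⟩ := huv z hz1
    rw [hz2] at h1 h2
    exact ⟨h2, v z, h1, h3⟩
  have h2 : (W.filter fun z => ¬ u z = -1).card ≤ 2 := by
    rcases (W.filter fun z => ¬ u z = -1).eq_empty_or_nonempty with he | ⟨z0, hz0⟩
    · rw [he]; simp
    obtain ⟨hz01, hz02⟩ := Finset.mem_filter.1 hz0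
    obtain ⟨h01, h02, h03⟩ := huv z0 hz01
    refine three hc hy j ((Finset.filter_subset _ _).trans hW)
      (fun z hz => hs z (Finset.mem_filter.1 hz).1) (u := u z0) ?_ (by simpa using hj _ h02)
    intro z hz
    obtain ⟨hz1, hz2⟩ := Finset.mem_filter.1 hz
    obtain ⟨h1, h2, h3⟩ := huv z hz1
    have e : u z = u z0 := by
      obtain ⟨n, hn⟩ := hc _ h2 _ h02 j
      have b1 := abs_le.1 (hx.entry h2 j)
      have b2 := abs_le.1 (hx.entry h3 j)
      have b3 := abs_le.1 (hx.entry h02 j)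
      have b4 := abs_le.1 (hx.entry h03 j)
      simp only [Function.update_self] at hn b1 b2 b3 b4
      have b5 : -1 < u z := lt_of_le_of_ne b1.1 (Ne.symm hz2)
      have b6 : -1 < u z0 := lt_of_le_of_ne b3.1 (Ne.symm hz02)
      have c1 : (n : ℝ) < 1 := by linarith
      have c2 : (-1 : ℝ) < n := by linarith
      have c3 : n < 1 := by exact_mod_cast c1
      have c4 : -1 < n := by exact_mod_cast c2
      have c5 : n = 0 := by omega
      rw [c5] at hn
      simp only [Int.cast_zero] at hn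
      linarith
    rw [e] at h1 h2
    exact ⟨h2, v z, h1, h3⟩
  have := Finset.card_filter_add_card_filter_not (s := W) (fun z => u z = -1)
  omega

theorem card_dbl {Y : Finset (ι → ℝ)} (hc : Cong Y) (hx : CX Y) (hy : CY Y) (j : ι)
    (hj : ∀ y ∈ Y, y j ≠ -1 / 2) : (dbl Y j).card ≤ 14 := by
  classical
  set Z := dbl Y j with hZ
  have hcZ : Cong Z := (hc.prj j).mono (dbl_sub Y j)
  have hxZ : CX Z := (hx.prj j).mono (dbl_sub Y j)
  have hm : M2 Z := hy.m2 j
  have h1 := card_E1 hcZ hxZ hm (Finset.filter_subset (fun z => ∃ s, 3 / 4 < |z s|) Z)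
    (fun z hz => (Finset.mem_filter.1 hz).2)
  have h2 := card_E2 hcZ hxZ hm
    (Finset.filter_subset (fun z => ∃ s, 1 / 2 < |z s| ∧ |z s| ≤ 3 / 4) Z)
    (fun z hz => (Finset.mem_filter.1 hz).2)
  have h3 := card_W hc hx hy j hj (Finset.filter_subset (fun z => ∀ s, |z s| ≤ 1 / 2) Z)
    (fun z hz => (Finset.mem_filter.1 hz).2)
  have h4 : Z ⊆ (Z.filter fun z => ∃ s, 3 / 4 < |z s|) ∪
      (Z.filter fun z => ∃ s, 1 / 2 < |z s| ∧ |z s| ≤ 3 / 4) ∪
      (Z.filter fun z => ∀ s, |z s| ≤ 1 / 2) := by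
    intro z hz
    simp only [Finset.mem_union, Finset.mem_filter]
    by_cases a1 : ∀ s, |z s| ≤ 1 / 2
    · exact Or.inr ⟨hz, a1⟩
    · push Not at a1
      obtain ⟨s, hs⟩ := a1
      by_cases a2 : |z s| ≤ 3 / 4
      · exact Or.inl (Or.inr ⟨hz, s, hs, a2⟩)
      · exact Or.inl (Or.inl ⟨hz, s, not_le.1 a2⟩)
  have h5 := Finset.card_le_card h4
  have h6 := Finset.card_union_le ((Z.filter fun z => ∃ s, 3 / 4 < |z s|) ∪
      (Z.filter fun z => ∃ s, 1 / 2 < |z s| ∧ |z s| ≤ 3 / 4)) (Z.filter fun z => ∀ s, |z s| ≤ 1 / 2)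
  have h7 := Finset.card_union_le (Z.filter fun z => ∃ s, 3 / 4 < |z s|)
      (Z.filter fun z => ∃ s, 1 / 2 < |z s| ∧ |z s| ≤ 3 / 4)
  omega

end Pool.Agent.H423Z.Delta
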