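import Pool.Agent.H423Z.DeltaB

/-!
# Column number of Delta-modular matrices, part C: the half-integral case
-/

set_option autoImplicit false
set_option linter.unusedSectionVars false

open Finset Matrix

namespace Pool.Agent.H423Z.Delta

variable {ι : Type} [Fintype ι] [DecidableEq ι]

def Half (Y : Finset (ι → ℝ)) (R : Finset ι) : Prop :=
  ∀ y ∈ Y, ∀ i ∈ R, y i = 1 / 2 ∨ y i = -1 / 2

theorem oddtown {κ : Type} [Fintype κ] [DecidableEq κ] (T : Finset (Finset κ))
    (h1 : ∀ S ∈ T, Odd S.card) (h2 : ∀ S ∈ T, ∀ S' ∈ T, S ≠ S' → Even (S ∩ S').card) :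
    T.card ≤ Fintype.card κ := by
  let A : Matrix T κ (ZMod 2) := Matrix.of fun S t => if t ∈ S.1 then 1 else 0
  have hA : A * Aᵀ = 1 := by
    ext S S'
    have e : (A * Aᵀ) S S' = ((S.1 ∩ S'.1).card : ZMod 2) := by
      simp only [A, Matrix.mul_apply, Matrix.transpose_apply, Matrix.of_apply]
      have : ∀ t, (if t ∈ S.1 then (1 : ZMod 2) else 0) * (if t ∈ S'.1 then 1 else 0) =
          if t ∈ S.1 ∩ S'.1 then 1 else 0 := by
        intro t
        by_cases a : t ∈ S.1 <;> by_cases b : t ∈ S'.1 <;> simp [a, b]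
      simp only [this]
      rw [Finset.sum_boole]
      congr 2
      ext t; simp
    rw [e]
    by_cases hS : S = S'
    · subst hS
      rw [Matrix.one_apply_eq, Finset.inter_self]
      exact (ZMod.natCast_eq_one_iff_odd).2 (h1 S.1 S.2)
    · rw [Matrix.one_apply_ne hS]
      exact (ZMod.natCast_eq_zero_iff_even).2 (h2 S.1 S.2 S'.1 S'.2 fun e => hS (Subtype.ext e))
  have h3 : (1 : Matrix T T (ZMod 2)).rank = Fintype.card T := Matrix.rank_one
  have h4 := Matrix.rank_mul_le_left A Aᵀ
  have h5 := Matrix.rank_le_card_width A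
  rw [hA, h3] at h4
  simpa using h4.trans h5

theorem det_half {Y : Finset (ι → ℝ)} {R : Finset ι} (hc : Cong Y) (hs : Supp Y R)
    (hh : Half Y R) {κ : Type} [Fintype κ] [DecidableEq κ] (ρ : κ → ι) (c : κ → ι → ℝ)
    (hcY : ∀ t, c t ∈ Y) (hd : (mat ρ c).det ≠ 0) : 1 / 2 ≤ |(mat ρ c).det| := by
  have key : ∃ n : ℤ, 2 * (mat ρ c).det = n := by
    rcases isEmpty_or_nonempty κ with he | ⟨⟨k0⟩⟩
    · exact ⟨2, by simp⟩
    have h1 : ∀ a, ∃ n : ℤ, 2 * c k0 (ρ a) = n := by
      intro a
      by_cases ha : ρ a ∈ R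
      · rcases hh _ (hcY k0) _ ha with h | h
        · exact ⟨1, by rw [h]; norm_num⟩
        · exact ⟨-1, by rw [h]; norm_num⟩
      · exact ⟨0, by rw [hs _ (hcY k0) _ ha]; norm_num⟩
    choose p hp using h1
    choose q hq using fun t a => hc _ (hcY t) _ (hcY k0) (ρ a)
    let Zm : Matrix κ κ ℤ := Matrix.of fun t a => if t = k0 then p a else q t a
    refine ⟨Zm.det, ?_⟩
    have e1 : ((mat ρ c)ᵀ.updateRow k0 ((2 : ℝ) • (mat ρ c)ᵀ k0)).det = 2 * (mat ρ c).det := by
      rw [Matrix.det_updateRow_smul, Matrix.updateRow_eq_self, Matrix.det_transpose]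
    have e2 : ((mat ρ c)ᵀ.updateRow k0 ((2 : ℝ) • (mat ρ c)ᵀ k0)).det =
        (Zm.map (Int.cast : ℤ → ℝ)).det := by
      apply Matrix.det_eq_of_forall_row_eq_smul_add_const
        (fun t => if t = k0 then 0 else 1 / 2) k0 (by simp)
      intro t a
      by_cases ht : t = k0
      · subst ht
        simp [Zm, mat, hp]
      · simp only [Matrix.updateRow_ne ht, Matrix.transpose_apply, mat, Matrix.of_apply,
          Matrix.map_apply, Zm, if_neg ht, if_true]
        rw [← hp, ← hq]; ring
    rw [← e1, e2, Int.cast_det]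
  obtain ⟨n, hn⟩ := key
  have hn0 : n ≠ 0 := by
    rintro rfl
    apply hd
    simp only [Int.cast_zero] at hn
    linarith
  have h2 : (1 : ℝ) ≤ |(n : ℝ)| := by
    have : 1 ≤ |n| := Int.one_le_abs hn0
    exact_mod_cast this
  rw [← hn, abs_mul] at h2
  norm_num at h2
  linarith

theorem det_update {κ : Type} [Fintype κ] [DecidableEq κ] (ρ : κ → ι) (c : κ → ι → ℝ)
    (y : ι → ℝ) (l : κ → ℝ) (hl : ∀ a, y (ρ a) = ∑ t, l t * c t (ρ a)) (t : κ) :
    (mat ρ (Function.update c t y)).det = l t * (mat ρ c).det := by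
  have := Matrix.det_updateCol_sum (mat ρ c) t l
  rw [smul_eq_mul] at this
  rw [← this]
  congr 1
  ext a b
  by_cases hb : b = t
  · subst hb
    simp [mat, hl]
  · simp [mat, Matrix.updateCol_ne hb, Function.update_of_ne hb]

theorem supp3 {Y : Finset (ι → ℝ)} {R : Finset ι} (hc : Cong Y) (hs : Supp Y R)
    (hh : Half Y R) (hy : CY Y) {κ : Type} [Fintype κ] [DecidableEq κ] (ρ : κ → ι)
    (c : κ → ι → ℝ) (hcY : ∀ t, c t ∈ Y) (hd : (mat ρ c).det ≠ 0) {y : ι → ℝ} (hyY : y ∈ Y)
    (l : κ → ℝ) (hl : ∀ a, y (ρ a) = ∑ t, l t * c t (ρ a)) (S : Finset κ)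
    (hS : ∀ t ∈ S, l t ≠ 0) : S.card ≤ 3 ∧ (S.card = 3 → ∀ t ∈ S, |l t| = 1) := by
  have h1 := hy κ ρ c y l hcY hyY hl
  have h2 := det_half hc hs hh ρ c hcY hd
  set δ := |(mat ρ c).det| with hδ
  have h3 : ∀ t ∈ S, 1 / 2 ≤ δ * |l t| := by
    intro t ht
    have h4 := det_update ρ c y l hl t
    have h5 := det_half hc hs hh ρ (Function.update c t y)
      (by
        intro b
        by_cases hb : b = t
        · subst hb; simpa
        · rw [Function.update_of_ne hb]; exact hcY b)
      (by rw [h4]; exact mul_ne_zero (hS t ht) hd)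
    rw [h4, abs_mul] at h5
    linarith
  have h4 : ∑ t ∈ S, δ * |l t| ≤ δ * ∑ t, |l t| := by
    rw [← Finset.mul_sum]
    apply mul_le_mul_of_nonneg_left _ (by linarith)
    exact Finset.sum_le_sum_of_subset_of_nonneg (Finset.subset_univ S) fun _ _ _ => abs_nonneg _
  have h5 : (S.card : ℝ) * (1 / 2) ≤ ∑ t ∈ S, δ * |l t| := by
    have := Finset.card_nsmul_le_sum S _ _ h3
    simpa using this
  constructor
  · have : (S.card : ℝ) ≤ 3 := by nlinarith
    exact_mod_cast this
  · intro h6 t ht
    have h7 : ((S.erase t).card : ℝ) * (1 / 2) ≤ ∑ t ∈ S.erase t, δ * |l t| := by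
      have := Finset.card_nsmul_le_sum (S.erase t) _ _
        (fun b hb => h3 b (Finset.mem_of_mem_erase hb))
      simpa using this
    rw [Finset.card_erase_of_mem ht, h6] at h7
    have h8 := Finset.add_sum_erase S (fun t => δ * |l t|) ht
    have h9 := h3 t ht
    rw [h6] at h5
    push_cast at h5 h7
    have h10 : δ = 1 / 2 := by nlinarith
    have h11 : δ * |l t| ≤ 1 / 2 := by nlinarith
    rw [h10] at h11 h9
    linarith

theorem card_half {Y : Finset (ι → ℝ)} {R : Finset ι} (hc : Cong Y) (hs : Supp Y R)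
    (hh : Half Y R) (hy : CY Y) : Y.card ≤ 16 * R.card + 8 := by
  classical
  let P : ℕ → Prop := fun k => ∃ (κ : Type) (_ : Fintype κ) (_ : DecidableEq κ),
    Fintype.card κ = k ∧ ∃ (ρ : κ → ι) (c : κ → ι → ℝ), (∀ t, c t ∈ Y) ∧ (mat ρ c).det ≠ 0
  have rowR : ∀ (κ : Type) [Fintype κ] [DecidableEq κ] (ρ : κ → ι) (c : κ → ι → ℝ),
      (∀ t, c t ∈ Y) → (mat ρ c).det ≠ 0 → ∀ a, ρ a ∈ R := by
    intro κ _ _ ρ c hcY hd a
    by_contra ha
    apply hd
    apply Matrix.det_eq_zero_of_row_eq_zero a
    intro b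
    exact hs _ (hcY b) _ ha
  have hP : ∀ k, P k → k ≤ R.card := by
    rintro k ⟨κ, _, _, rfl, ρ, c, hcY, hd⟩
    rw [← Finset.card_univ]
    apply Finset.card_le_card_of_injOn ρ (fun a _ => rowR κ ρ c hcY hd a)
    intro a _ b _ hab
    by_contra hne
    apply hd
    apply Matrix.det_zero_of_row_eq hne
    ext t
    simp [mat, hab]
  have hP0 : P 0 := ⟨Empty, inferInstance, inferInstance, by simp, Empty.elim, Empty.elim,
    fun t => t.elim, by simp⟩
  have hk : P (Nat.findGreatest P R.card) := Nat.findGreatest_spec (Nat.zero_le _) hP0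
  have hk1 : ¬ P (Nat.findGreatest P R.card + 1) := fun h =>
    Nat.findGreatest_is_greatest (Nat.lt_succ_self _) (hP _ h) h
  have hkR := hP _ hk
  obtain ⟨κ, _, _, hκ, ρ, c, hcY, hd⟩ := hk
  rw [← hκ] at hk1 hkR
  have hR := rowR κ ρ c hcY hd
  let l : (ι → ℝ) → κ → ℝ := fun y => (mat ρ c)⁻¹ *ᵥ fun a => y (ρ a)
  have hl : ∀ y a, y (ρ a) = ∑ t, l y t * c t (ρ a) := by
    intro y a
    have : mat ρ c *ᵥ l y = fun a => y (ρ a) := by
      simp only [l]
      rw [Matrix.mulVec_mulVec, Matrix.mul_nonsing_inv _ (isUnit_iff_ne_zero.2 hd),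
        Matrix.one_mulVec]
    have h1 := congrFun this a
    rw [← h1]
    simp [Matrix.mulVec, dotProduct, mat, mul_comm]
  have hl' : ∀ y ∈ Y, ∀ i, y i = ∑ t, l y t * c t i := by
    intro y hyY i
    by_contra hne
    apply hk1
    refine ⟨κ ⊕ Unit, inferInstance, inferInstance, by simp, Sum.elim ρ fun _ => i,
      Sum.elim c fun _ => y, by rintro (t | t); exacts [hcY t, hyY], ?_⟩
    rw [border (mat ρ c) (l y) (fun t => c t i) (y i)]
    · refine mul_ne_zero hd (sub_ne_zero.2 fun h => hne ?_)
      rw [h]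
      exact Finset.sum_congr rfl fun t _ => mul_comm _ _
    · intro s t; simp [mat]
    · intro s; simp [mat, hl y s]
    · intro t; simp [mat]
    · simp [mat]
  have uniq : ∀ μ : κ → ℝ, (∀ a, ∑ t, μ t * c t (ρ a) = 0) → μ = 0 := by
    intro μ hμ
    apply Matrix.eq_zero_of_mulVec_eq_zero hd
    ext a
    simpa [Matrix.mulVec, dotProduct, mat, mul_comm] using hμ a
  let S : (ι → ℝ) → Finset κ := fun y => Finset.univ.filter fun t => l y t ≠ 0
  have hS : ∀ y t, t ∈ S y ↔ l y t ≠ 0 := by intro y t; simp [S]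
  have hsum : ∀ y a, y (ρ a) = ∑ t ∈ S y, l y t * c t (ρ a) := by
    intro y a
    rw [hl y a]
    symm
    apply Finset.sum_subset (Finset.subset_univ _)
    intro t _ ht
    rw [hS, not_not] at ht
    rw [ht, zero_mul]
  have s3 : ∀ y ∈ Y, (S y).card ≤ 3 ∧ ((S y).card = 3 → ∀ t ∈ S y, |l y t| = 1) :=
    fun y hyY => supp3 hc hs hh hy ρ c hcY hd hyY (l y) (hl y) (S y) fun t ht => (hS y t).1 ht
  have s2 : ∀ y ∈ Y, (S y).card ≠ 2 := by
    intro y hyY h2
    obtain ⟨t1, t2, hne, he⟩ := Finset.card_eq_two.1 h2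
    have l1 : l y t1 ≠ 0 := (hS y t1).1 (by rw [he]; simp)
    have l2 : l y t2 ≠ 0 := (hS y t2).1 (by rw [he]; simp)
    have e : ∀ a, y (ρ a) = l y t1 * c t1 (ρ a) + l y t2 * c t2 (ρ a) := by
      intro a
      rw [hsum y a, he, Finset.sum_pair hne]
    have g : ∀ σ : ℝ, ∃ a, c t1 (ρ a) ≠ σ * c t2 (ρ a) := by
      intro σ
      by_contra hno
      push Not at hno
      have h0 := uniq (Pi.single t1 1 - Pi.single t2 σ) (by
        intro a
        simp only [Pi.sub_apply, sub_mul, Finset.sum_sub_distrib, Pi.single_apply, ite_mul,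
          zero_mul, Finset.sum_ite_eq', Finset.mem_univ, if_true, one_mul]
        rw [hno a, sub_self])
      have := congrFun h0 t1
      simp [hne] at this
    obtain ⟨a, ha⟩ := g 1
    obtain ⟨b, hb⟩ := g (-1)
    have ea := e a
    have eb := e b
    apply mul_ne_zero l1 l2
    rcases hh _ hyY _ (hR a) with y1 | y1 <;> rcases hh _ hyY _ (hR b) with y2 | y2 <;>
    rcases hh _ (hcY t1) _ (hR a) with a1 | a1 <;> rcases hh _ (hcY t2) _ (hR a) with a2 | a2 <;>
    rcases hh _ (hcY t1) _ (hR b) with b1 | b1 <;> rcases hh _ (hcY t2) _ (hR b) with b2 | b2 <;>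
    rw [a1, a2] at ha <;> rw [b1, b2] at hb <;> rw [y1, a1, a2] at ea <;> rw [y2, b1, b2] at eb <;>
    first
      | (exfalso; apply ha; norm_num; done)
      | (exfalso; apply hb; norm_num; done)
      | (have h1 : l y t1 = 0 := by linarith
         rw [h1, zero_mul])
      | (have h1 : l y t2 = 0 := by linarith
         rw [h1, mul_zero])
  have s1 : ∀ y ∈ Y, ∀ t ∈ S y, l y t = 1 ∨ l y t = -1 := by
    intro y hyY t ht
    have : |l y t| = 1 := by
      have h3 := s3 y hyY
      have h2 := s2 y hyY
      have h1 : 0 < (S y).card := Finset.card_pos.2 ⟨t, ht⟩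
      by_cases h4 : (S y).card = 3
      · exact h3.2 h4 t ht
      · have h5 : (S y).card = 1 := by omega
        obtain ⟨t', ht'⟩ := Finset.card_eq_one.1 h5
        have h6 : t = t' := by rw [ht'] at ht; simpa using ht
        subst h6
        have e := hsum y t
        rw [ht', Finset.sum_singleton] at e
        rcases hh _ hyY _ (hR t) with y1 | y1 <;> rcases hh _ (hcY t) _ (hR t) with a1 | a1 <;>
          rw [y1, a1] at e
        · have : l y t = 1 := by linarith
          rw [this]; simp
        · have : l y t = -1 := by linarith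
          rw [this]; simp
        · have : l y t = -1 := by linarith
          rw [this]; simp
        · have : l y t = 1 := by linarith
          rw [this]; simp
    rcases abs_eq (by norm_num : (0 : ℝ) ≤ 1) |>.1 this with h | h
    · exact Or.inl h
    · exact Or.inr h
  have s4 : ∀ y ∈ Y, ∀ y' ∈ Y, (S y).card = 3 → (S y').card = 3 → S y ≠ S y' →
      Even (S y ∩ S y').card := by
    intro y hyY y' hyY' h3 h3' hne
    rcases (S y ∩ S y').eq_empty_or_nonempty with he | ⟨b, hb⟩
    · rw [he]; simp
    obtain ⟨hb1, hb2⟩ := Finset.mem_inter.1 hb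
    have lb : l y b ≠ 0 := (hS y b).1 hb1
    have lb' : l y' b ≠ 0 := (hS y' b).1 hb2
    have h4 := (supp3 hc hs hh hy ρ (Function.update c b y)
      (by
        intro t
        by_cases ht : t = b
        · subst ht; simpa
        · rw [Function.update_of_ne ht]; exact hcY t)
      (by rw [det_update ρ c y (l y) (hl y) b]; exact mul_ne_zero lb hd) hyY'
      (fun t => if t = b then l y' b / l y b else l y' t - l y' b * l y t / l y b)
      (by
        intro a
        rw [← Finset.add_sum_erase _ _ (Finset.mem_univ b)]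
        have e1 : ∑ t ∈ Finset.univ.erase b,
            (if t = b then l y' b / l y b else l y' t - l y' b * l y t / l y b) *
              Function.update c b y t (ρ a) =
            ∑ t ∈ Finset.univ.erase b, l y' t * c t (ρ a) -
              l y' b / l y b * ∑ t ∈ Finset.univ.erase b, l y t * c t (ρ a) := by
          rw [Finset.mul_sum, ← Finset.sum_sub_distrib]
          apply Finset.sum_congr rfl
          intro t ht
          have ht' := (Finset.mem_erase.1 ht).1
          rw [if_neg ht', Function.update_of_ne ht']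
          ring
        rw [e1, if_pos rfl, Function.update_self]
        have e2 := hl y a
        have e3 := hl y' a
        rw [← Finset.add_sum_erase _ _ (Finset.mem_univ b)] at e2 e3
        rw [e3, e2]
        field_simp
        ring)
      (insert b ((S y \ S y') ∪ (S y' \ S y)))
      (by
        intro t ht
        by_cases htb : t = b
        · rw [if_pos htb]; exact div_ne_zero lb' lb
        · rw [if_neg htb]
          rcases Finset.mem_insert.1 ht with h | h
          · exact absurd h htb
          rcases Finset.mem_union.1 h with h | h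
          · obtain ⟨h1, h2⟩ := Finset.mem_sdiff.1 h
            rw [hS, not_not] at h2
            rw [h2, zero_sub]
            exact neg_ne_zero.2 (div_ne_zero (mul_ne_zero lb' ((hS y t).1 h1)) lb)
          · obtain ⟨h1, h2⟩ := Finset.mem_sdiff.1 h
            rw [hS, not_not] at h2
            rw [h2]
            simpa using (hS y' t).1 h1)).1
    rw [Finset.card_insert_of_notMem (by simp [hb1, hb2]),
      Finset.card_union_of_disjoint disjoint_sdiff_sdiff] at h4
    have h5 := Finset.card_sdiff_add_card_inter (S y) (S y')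
    have h6 := Finset.card_sdiff_add_card_inter (S y') (S y)
    rw [Finset.inter_comm (S y')] at h6
    have h7 : (S y ∩ S y').card ≠ 3 := by
      intro h
      apply hne
      have e1 : S y ∩ S y' = S y :=
        Finset.eq_of_subset_of_card_le Finset.inter_subset_left (by omega)
      have e2 : S y ∩ S y' = S y' :=
        Finset.eq_of_subset_of_card_le Finset.inter_subset_right (by omega)
      rw [← e1, e2]
    have h8 : (S y ∩ S y').card = 2 := by omega
    rw [h8]; exact even_two
  have c1 : ((Y.image S).filter fun T => T.card = 3).card ≤ Fintype.card κ := by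
    apply oddtown
    · intro T hT
      rw [(Finset.mem_filter.1 hT).2]; decide
    · intro T hT T' hT' hne
      obtain ⟨hT1, hT2⟩ := Finset.mem_filter.1 hT
      obtain ⟨hT1', hT2'⟩ := Finset.mem_filter.1 hT'
      obtain ⟨y, hyY, rfl⟩ := Finset.mem_image.1 hT1
      obtain ⟨y', hyY', rfl⟩ := Finset.mem_image.1 hT1'
      exact s4 y hyY y' hyY' hT2 hT2' hne
  have c2 : (Y.image S).card ≤ 2 * Fintype.card κ + 1 := by
    have hsub : Y.image S ⊆ insert ∅ ((Finset.univ.image fun t : κ => ({t} : Finset κ)) ∪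
        (Y.image S).filter fun T => T.card = 3) := by
      intro T hT
      obtain ⟨y, hyY, rfl⟩ := Finset.mem_image.1 hT
      have h3 := (s3 y hyY).1
      have h2 := s2 y hyY
      by_cases h0 : (S y).card = 0
      · rw [Finset.card_eq_zero.1 h0]; exact Finset.mem_insert_self _ _
      apply Finset.mem_insert_of_mem
      by_cases h1 : (S y).card = 1
      · obtain ⟨t, ht⟩ := Finset.card_eq_one.1 h1
        exact Finset.mem_union_left _ (Finset.mem_image.2 ⟨t, Finset.mem_univ _, ht.symm⟩)
      · exact Finset.mem_union_right _ (Finset.mem_filter.2 ⟨hT, by omega⟩)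
    have h1 := Finset.card_le_card hsub
    have h2 := Finset.card_insert_le (∅ : Finset κ)
      ((Finset.univ.image fun t : κ => ({t} : Finset κ)) ∪ (Y.image S).filter fun T => T.card = 3)
    have h3 := Finset.card_union_le (Finset.univ.image fun t : κ => ({t} : Finset κ))
      ((Y.image S).filter fun T => T.card = 3)
    have h4 : (Finset.univ.image fun t : κ => ({t} : Finset κ)).card ≤ Fintype.card κ :=
      Finset.card_image_le.trans (by simp)
    omega
  have c3 : Y.card ≤ 8 * (Y.image S).card := by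
    apply Finset.card_le_mul_card_image
    intro T hT
    obtain ⟨y0, hy0, rfl⟩ := Finset.mem_image.1 hT
    have h1 : (Y.filter fun y => S y = S y0).card ≤ (S y0).powerset.card := by
      apply Finset.card_le_card_of_injOn (fun y => (S y0).filter fun t => l y t = 1)
      · intro y _
        simp only [Finset.coe_powerset, Set.mem_preimage, Set.mem_powerset_iff,
          Finset.coe_subset]
        exact Finset.filter_subset _ _
      · intro y hy1 y' hy2 he
        obtain ⟨hyY, hyS⟩ := Finset.mem_filter.1 hy1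
        obtain ⟨hyY', hyS'⟩ := Finset.mem_filter.1 hy2
        have e : ∀ t, l y t = l y' t := by
          intro t
          by_cases ht : t ∈ S y0
          · have e1 : l y t = 1 ↔ l y' t = 1 := by
              have := Finset.ext_iff.1 he t
              simpa [Finset.mem_filter, ht] using this
            rcases s1 y hyY t (hyS ▸ ht) with h | h <;>
              rcases s1 y' hyY' t (hyS' ▸ ht) with h' | h'
            · rw [h, h']
            · have := e1.1 h
              rw [h'] at this; norm_num at this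
            · have := e1.2 h'
              rw [h] at this; norm_num at this
            · rw [h, h']
          · have e1 : t ∉ S y := hyS ▸ ht
            have e2 : t ∉ S y' := hyS' ▸ ht
            rw [hS, not_not] at e1 e2
            rw [e1, e2]
        ext i
        rw [hl' y hyY i, hl' y' hyY' i]
        simp only [e]
    rw [Finset.card_powerset] at h1
    have h2 : 2 ^ (S y0).card ≤ 2 ^ 3 := Nat.pow_le_pow_right (by norm_num) (s3 y0 hy0).1
    omega
  omega

end Pool.Agent.H423Z.Delta
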