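import Pool.Agent.H423Z.DeltaC

/-!
# Column number of Delta-modular matrices, part D: the two inductions and the coset decomposition
-/

set_option autoImplicit false
set_option maxHeartbeats 400000
set_option linter.unusedSectionVars false

open Finset Matrix

namespace Pool.Agent.H423Z.Delta

variable {ι : Type} [Fintype ι] [DecidableEq ι]

theorem card_Y (n : ℕ) : ∀ (R : Finset ι) (Y : Finset (ι → ℝ)), R.card = n → Cong Y → CX Y →
    CY Y → Supp Y R → Y.card ≤ 28 * n + 8 := by
  induction n with
  | zero =>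
    intro R Y hR hc _ hy hs
    have := card_half hc hs (by
      intro y _ i hi
      rw [Finset.card_eq_zero.1 hR] at hi
      simp at hi) hy
    omega
  | succ n ih =>
    intro R Y hR hc hx hy hs
    by_cases hh : Half Y R
    · have := card_half hc hs hh hy
      omega
    · unfold Half at hh
      push Not at hh
      obtain ⟨y0, hy0, j, hj, h1, h2⟩ := hh
      have hj' : ∀ y ∈ Y, y j ≠ -1 / 2 := by
        intro y hyY he
        obtain ⟨k, hk⟩ := hc y0 hy0 y hyY j
        have b := abs_le.1 (hx.entry hy0 j)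
        rw [he] at hk
        have c1 : (k : ℝ) < 2 := by linarith
        have c2 : (-1 : ℝ) < k := by linarith
        have c3 : k < 2 := by exact_mod_cast c1
        have c4 : -1 < k := by exact_mod_cast c2
        interval_cases k
        · apply h2; push_cast at hk; linarith
        · apply h1; push_cast at hk; linarith
      have h3 := card_le_prj hc hx j
      have h4 := card_dbl hc hx hy j hj'
      have h5 := ih (R.erase j) (prj Y j) (by rw [Finset.card_erase_of_mem hj, hR]; rfl)
        (hc.prj j) (hx.prj j) (hy.prj j) (hs.prj j)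
      omega

theorem card_X (n : ℕ) : ∀ (R : Finset ι) (X : Finset (ι → ℝ)), R.card = n → Cong X → CX X →
    Supp X R → X.card ≤ 28 * n ^ 2 + 1 := by
  induction n with
  | zero =>
    intro R X hR _ _ hs
    simp only [ne_eq, OfNat.ofNat_ne_zero, not_false_eq_true, zero_pow, mul_zero, zero_add]
    rw [Finset.card_le_one]
    intro x hx y hy
    rw [Finset.card_eq_zero.1 hR] at hs
    ext i
    rw [hs x hx i (by simp), hs y hy i (by simp)]
  | succ n ih =>
    intro R X hR hc hx hs
    obtain ⟨j, hj⟩ := Finset.card_pos.1 (show 0 < R.card by omega)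
    have hR' : (R.erase j).card = n := by rw [Finset.card_erase_of_mem hj, hR]; rfl
    have h3 := card_le_prj hc hx j
    have h4 := card_Y n (R.erase j) (dbl X j) hR' ((hc.prj j).mono (dbl_sub X j))
      ((hx.prj j).mono (dbl_sub X j)) (hx.dbl j) ((hs.prj j).mono (dbl_sub X j))
    have h5 := ih (R.erase j) (prj X j) hR' (hc.prj j) (hx.prj j) (hs.prj j)
    nlinarith

theorem det_minor_aux {κ : Type} [Fintype κ] [DecidableEq κ] (p : ι → Prop) [DecidablePred p]
    (e : κ ≃ {i // p i}) (P : Matrix ι ι ℝ)
    (hP : ∀ j, ¬ p j → ∀ i, P i j = if i = j then 1 else 0) :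
    P.det = (P.submatrix (fun a => (e a).1) (fun a => (e a).1)).det := by
  rw [Matrix.twoBlockTriangular_det' P p]
  · have h1 : Matrix.toSquareBlockProp P (fun i => ¬ p i) = 1 := by
      ext a b
      rw [Matrix.toSquareBlockProp_def]
      simp only [Matrix.of_apply]
      rw [hP b.1 b.2, Matrix.one_apply]
      simp [Subtype.ext_iff]
    rw [h1, Matrix.det_one, mul_one]
    exact (Matrix.det_submatrix_equiv_self e (Matrix.toSquareBlockProp P p)).symm
  · intro i hi j hj
    rw [hP j hj, if_neg]
    rintro rfl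
    exact hj hi

/-- a minor of `P` is a full determinant, if the other columns are unit vectors -/
theorem det_minor {κ : Type} [Fintype κ] [DecidableEq κ] (ρ : κ → ι) (hρ : Function.Injective ρ)
    (P : Matrix ι ι ℝ) (hP : ∀ j, j ∉ Set.range ρ → ∀ i, P i j = if i = j then 1 else 0) :
    P.det = (P.submatrix ρ ρ).det := by
  classical
  exact det_minor_aux (fun i => i ∈ Set.range ρ) (Equiv.ofInjective ρ hρ) P hP

theorem main (Δ m n : ℕ) (hΔ : 1 ≤ Δ) (A : Matrix (Fin m) (Fin n) ℤ)
    (hA : Function.Injective A.transpose)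
    (h1 : ∀ s : Fin m → Fin n, |(A.submatrix id s).det| ≤ (Δ : ℤ))
    (h2 : ∃ s : Fin m → Fin n, |(A.submatrix id s).det| = (Δ : ℤ)) :
    n ≤ (28 * m ^ 2 + 1) * Δ := by
  classical
  obtain ⟨s, hs⟩ := h2
  set B : Matrix (Fin m) (Fin m) ℤ := A.submatrix id s with hB
  have hB0 : B.det ≠ 0 := by
    intro h
    rw [h] at hs
    simp only [abs_zero] at hs
    omega
  let f : (Fin m → ℤ) →ₗ[ℤ] (Fin m → ℤ) := Matrix.toLin' B
  have hf : Function.Injective f := by
    rw [← LinearMap.ker_eq_bot, LinearMap.ker_eq_bot']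
    intro v hv
    exact Matrix.eq_zero_of_mulVec_eq_zero hB0 (by simpa [f] using hv)
  let N : Submodule ℤ (Fin m → ℤ) := LinearMap.range f
  have hcard : Nat.card ((Fin m → ℤ) ⧸ N) = Δ := by
    rw [← Submodule.natAbs_det_equiv N (LinearEquiv.ofInjective f hf)]
    have e : N.subtype ∘ₗ AddMonoidHom.toIntLinearMap
        ((LinearEquiv.ofInjective f hf : (Fin m → ℤ) ≃ₗ[ℤ] N) : (Fin m → ℤ) →+ N) = f := by
      ext v i
      rfl
    rw [e]
    simp only [f, LinearMap.det_toLin']
    have : ((B.det.natAbs : ℕ) : ℤ) = Δ := by rw [Int.natCast_natAbs, hs]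
    exact_mod_cast this
  have hfin : Finite ((Fin m → ℤ) ⧸ N) := Nat.finite_of_card_ne_zero (by omega)
  let Ar : Matrix (Fin m) (Fin n) ℝ := A.map (Int.cast : ℤ → ℝ)
  let Br : Matrix (Fin m) (Fin m) ℝ := B.map (Int.cast : ℤ → ℝ)
  have hBr : Br.det = (B.det : ℝ) := (Int.cast_det B).symm
  have hBr0 : IsUnit Br.det := by
    rw [hBr, isUnit_iff_ne_zero]
    exact_mod_cast hB0
  let Xm : Matrix (Fin m) (Fin n) ℝ := Br⁻¹ * Ar
  have hXm : Br * Xm = Ar := by
    simp only [Xm]
    rw [← Matrix.mul_assoc, Matrix.mul_nonsing_inv _ hBr0, Matrix.one_mul]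
  let x : Fin n → Fin m → ℝ := fun j i => Xm i j
  have hx : Function.Injective x := by
    intro j j' he
    apply hA
    ext i
    have e1 : Ar i j = Ar i j' := by
      rw [← hXm, Matrix.mul_apply, Matrix.mul_apply]
      exact Finset.sum_congr rfl fun k _ => by rw [show Xm k j = Xm k j' from congrFun he k]
    simpa [Ar] using e1
  have hsub : ∀ s' : Fin m → Fin n, |(Xm.submatrix id s').det| ≤ 1 := by
    intro s'
    have e1 : Br * Xm.submatrix id s' = (A.submatrix id s').map (Int.cast : ℤ → ℝ) := by
      have : Br * Xm.submatrix id s' = (Br * Xm).submatrix id s' := by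
        ext a b; simp [Matrix.mul_apply]
      rw [this, hXm]
      rfl
    have e2 := congrArg (fun M => |Matrix.det M|) e1
    simp only [Matrix.det_mul, abs_mul] at e2
    rw [hBr, ← Int.cast_det, ← Int.cast_abs, ← Int.cast_abs, hs] at e2
    have e3 : ((|(A.submatrix id s').det| : ℤ) : ℝ) ≤ ((Δ : ℤ) : ℝ) := by exact_mod_cast h1 s'
    rw [← e2] at e3
    have e4 : (0 : ℝ) < ((Δ : ℤ) : ℝ) := by exact_mod_cast hΔ
    nlinarith
  have hone : Xm.submatrix id s = 1 := by
    have : Xm.submatrix id s = Br⁻¹ * Br := by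
      ext a b; simp [Xm, Matrix.mul_apply, Ar, Br, hB]
    rw [this, Matrix.nonsing_inv_mul _ hBr0]
  have hCX : CX (Finset.univ.image x) := by
    intro κ _ _ ρ c hc
    by_cases hρ : Function.Injective ρ
    · choose g _ hg using fun t => Finset.mem_image.1 (hc t)
      let s' : Fin m → Fin n := fun i => if h : i ∈ Set.range ρ then g h.choose else s i
      have e1 : mat ρ c = (Xm.submatrix id s').submatrix ρ ρ := by
        ext a b
        have hb : ρ b ∈ Set.range ρ := ⟨b, rfl⟩
        have hb' : hb.choose = b := hρ hb.choose_spec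
        simp only [mat, Matrix.of_apply, Matrix.submatrix_apply, id, s', dif_pos hb, hb']
        rw [← hg b]
      rw [e1, ← det_minor ρ hρ]
      · exact hsub s'
      · intro j hj i
        have e2 := congrFun (congrFun hone i) j
        rw [Matrix.one_apply] at e2
        simp only [Matrix.submatrix_apply, id, s', dif_neg hj] at e2 ⊢
        exact e2
    · obtain ⟨a, b, hab, hne⟩ := Function.not_injective_iff.1 hρ
      rw [Matrix.det_zero_of_row_eq hne (by ext t; simp [mat, hab])]
      simp
  let q : Fin n → (Fin m → ℤ) ⧸ N := fun j => Submodule.Quotient.mk fun i => A i j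
  have hfib : ∀ a ∈ Finset.univ.image q,
      (Finset.univ.filter fun j => q j = a).card ≤ 28 * m ^ 2 + 1 := by
    intro a _
    rw [← Finset.card_image_of_injective _ hx]
    refine card_X m Finset.univ _ (by simp) ?_
      (hCX.mono (Finset.image_subset_image (Finset.filter_subset _ _))) ?_
    · intro z hz w hw i
      obtain ⟨j, hj, rfl⟩ := Finset.mem_image.1 hz
      obtain ⟨j', hj', rfl⟩ := Finset.mem_image.1 hw
      have e1 : q j = q j' := (Finset.mem_filter.1 hj).2.trans (Finset.mem_filter.1 hj').2.symm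
      obtain ⟨v, hv⟩ := (Submodule.Quotient.eq N).1 e1
      refine ⟨v i, ?_⟩
      have e2 : Br *ᵥ (fun k => (v k : ℝ)) = fun k => Ar k j - Ar k j' := by
        ext k
        have := congrFun hv k
        simp only [f, Matrix.toLin'_apply, Matrix.mulVec, dotProduct, Pi.sub_apply] at this
        simp only [Matrix.mulVec, dotProduct, Br, Ar, Matrix.map_apply]
        exact_mod_cast this
      have e3 : Br⁻¹ *ᵥ (Br *ᵥ (fun k => (v k : ℝ))) = fun k => (v k : ℝ) := by
        rw [Matrix.mulVec_mulVec, Matrix.nonsing_inv_mul _ hBr0, Matrix.one_mulVec]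
      rw [e2] at e3
      rw [← congrFun e3 i]
      simp only [x, Xm, Matrix.mul_apply, Matrix.mulVec, dotProduct, mul_sub,
        Finset.sum_sub_distrib]
    · intro z _ i hi
      exact absurd (Finset.mem_univ i) hi
  have h3 := Finset.card_le_mul_card_image (Finset.univ : Finset (Fin n)) _ hfib
  have h4 : (Finset.univ.image q).card ≤ Δ := by
    have := Fintype.ofFinite ((Fin m → ℤ) ⧸ N)
    rw [← hcard, Nat.card_eq_fintype_card]
    exact Finset.card_le_univ _
  simp only [Finset.card_univ, Fintype.card_fin] at h3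
  exact h3.trans (Nat.mul_le_mul_left _ h4)

end Pool.Agent.H423Z.Delta
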