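import Mathlib

/-!
# Average stretch, part A: averages, duality for the assignment problem, rounding to a bijection
-/

set_option autoImplicit false
set_option linter.unusedSectionVars false
set_option maxHeartbeats 400000

open Finset

namespace Pool.Agent.H423Z.Str

/-- uniform average -/
noncomputable def av {α : Type*} [Fintype α] (f : α → ℝ) : ℝ := (∑ x, f x) / Fintype.card α

section av
variable {α β : Type*} [Fintype α] [Fintype β]

theorem av_add (f g : α → ℝ) : av (fun x => f x + g x) = av f + av g := by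
  simp [av, Finset.sum_add_distrib, add_div]

theorem av_sub (f g : α → ℝ) : av (fun x => f x - g x) = av f - av g := by
  simp [av, Finset.sum_sub_distrib, sub_div]

theorem av_neg (f : α → ℝ) : av (fun x => - f x) = - av f := by
  simp [av, neg_div]

theorem av_mul (c : ℝ) (f : α → ℝ) : av (fun x => c * f x) = c * av f := by
  simp [av, ← Finset.mul_sum, mul_div_assoc]

theorem av_mul' (c : ℝ) (f : α → ℝ) : av (fun x => f x * c) = av f * c := by
  simp only [mul_comm _ c, av_mul]

theorem av_const [Nonempty α] (c : ℝ) : av (fun _ : α => c) = c := by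
  have : (Fintype.card α : ℝ) ≠ 0 := by positivity
  simp [av]

theorem av_zero : av (fun _ : α => (0 : ℝ)) = 0 := by simp [av]

theorem av_mono {f g : α → ℝ} (h : ∀ x, f x ≤ g x) : av f ≤ av g :=
  div_le_div_of_nonneg_right (Finset.sum_le_sum fun x _ => h x) (Nat.cast_nonneg _)

theorem av_nonneg {f : α → ℝ} (h : ∀ x, 0 ≤ f x) : 0 ≤ av f :=
  div_nonneg (Finset.sum_nonneg fun x _ => h x) (Nat.cast_nonneg _)

theorem av_le [Nonempty α] {f : α → ℝ} {c : ℝ} (h : ∀ x, f x ≤ c) : av f ≤ c :=
  (av_mono h).trans (av_const c).le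

theorem av_congr {f g : α → ℝ} (h : ∀ x, f x = g x) : av f = av g := by
  rw [funext h]

theorem av_sum {ι : Type*} (s : Finset ι) (f : ι → α → ℝ) :
    av (fun x => ∑ i ∈ s, f i x) = ∑ i ∈ s, av (f i) := by
  simp only [av]
  rw [Finset.sum_comm, Finset.sum_div]

theorem av_comm (f : α → β → ℝ) :
    av (fun x => av fun y => f x y) = av fun y => av fun x => f x y := by
  simp only [av, ← Finset.sum_div]
  rw [Finset.sum_comm, div_right_comm]

theorem av_equiv (e : α ≃ β) (f : β → ℝ) : av (fun x => f (e x)) = av f := by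
  simp only [av]
  rw [Equiv.sum_comp e f, Fintype.card_congr e]

theorem av_prod (f : α × β → ℝ) : av f = av fun x => av fun y => f (x, y) := by
  simp only [av, ← Finset.sum_div]
  rw [Fintype.sum_prod_type, Fintype.card_prod, div_div]
  push_cast
  rw [mul_comm]

theorem av_invol (e : α → α) (he : Function.Involutive e) (f : α → ℝ) :
    av (fun x => f (e x)) = av f := av_equiv he.toPerm f

theorem exists_le_av [Nonempty α] (f : α → ℝ) : ∃ x, f x ≤ av f := by
  by_contra h
  push Not at h
  have h1 : ∑ _x : α, av f < ∑ x, f x :=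
    Finset.sum_lt_sum_of_nonempty Finset.univ_nonempty fun x _ => h x
  have h2 : (Fintype.card α : ℝ) ≠ 0 := by positivity
  simp only [Finset.sum_const, Finset.card_univ, nsmul_eq_mul, av] at h1
  rw [mul_div_cancel₀ _ h2] at h1
  exact lt_irrefl _ h1

theorem av_mul_sq_le (f g : α → ℝ) :
    av (fun x => f x * g x) ^ 2 ≤ av (fun x => f x ^ 2) * av (fun x => g x ^ 2) := by
  simp only [av]
  rw [div_pow, div_mul_div_comm, ← sq]
  exact div_le_div_of_nonneg_right (Finset.sum_mul_sq_le_sq_mul_sq _ _ _) (by positivity)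

theorem av_sq_le [Nonempty α] (f : α → ℝ) : av f ^ 2 ≤ av fun x => f x ^ 2 := by
  have := av_mul_sq_le f (fun _ => 1)
  simpa [av_const] using this

theorem abs_av_le (f : α → ℝ) : |av f| ≤ av fun x => |f x| := by
  simp only [av]
  rw [abs_div, Nat.abs_cast]
  exact div_le_div_of_nonneg_right (Finset.abs_sum_le_sum_abs _ _) (Nat.cast_nonneg _)

theorem sum_eq_av [Nonempty α] (f : α → ℝ) : ∑ x, f x = Fintype.card α * av f := by
  have h2 : (Fintype.card α : ℝ) ≠ 0 := by positivity
  simp only [av]
  rw [mul_div_cancel₀ _ h2]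

/-- one coordinate of a random function, jointly with another one -/
theorem av_pi_two [DecidableEq α] [Nonempty β] {u u' : α} (h : u ≠ u') (f g : β → ℝ) :
    av (fun ω : α → β => f (ω u) * g (ω u')) = av f * av fun ω : α → β => g (ω u') := by
  have e := Equiv.funSplitAt u β
  rw [← av_equiv (Equiv.funSplitAt u β).symm, ← av_equiv (Equiv.funSplitAt u β).symm
    (fun ω : α → β => g (ω u')), av_prod, av_prod]
  simp only [Equiv.funSplitAt_symm_apply, dif_pos, dif_neg h.symm]
  simp only [av_mul, av_const]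
  rw [av_mul']

theorem av_pi_one [DecidableEq α] [Nonempty β] (u : α) (f : β → ℝ) :
    av (fun ω : α → β => f (ω u)) = av f := by
  rw [← av_equiv (Equiv.funSplitAt u β).symm, av_prod]
  simp only [Equiv.funSplitAt_symm_apply, dif_pos]
  simp only [av_const]

theorem av_cons {T : ℕ} (f : (Fin (T + 1) → β) → ℝ) :
    av f = av fun o => av fun ω : Fin T → β => f (Fin.cons o ω) := by
  rw [← av_equiv (Fin.consEquiv fun _ => β) f, av_prod]
  rfl

end av

/-- duality for the assignment problem -/
theorem assign {X : Type} [Fintype X] [DecidableEq X] (C : X → X → ℝ) (c : ℝ)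
    (h : ∀ a b : X → ℝ, (∀ x y, a x + b y ≤ C x y) → ∑ x, a x + ∑ y, b y ≤ c) :
    ∃ σ : Equiv.Perm X, ∑ x, C x (σ x) ≤ c := by
  rcases isEmpty_or_nonempty X with he | hne
  · refine ⟨1, ?_⟩
    simpa using h 0 0 (fun x => he.elim x)
  by_contra hno
  push Not at hno
  set N : ℝ := (Fintype.card X : ℝ) with hN
  have hN0 : 0 < N := by rw [hN]; positivity
  let T : (X × X → ℝ) →ₗ[ℝ] (X → ℝ) × (X → ℝ) × ℝ :=
    { toFun := fun w => (fun x => N * ∑ y, w (x, y), fun y => N * ∑ x, w (x, y),
        N * ∑ p, w p * C p.1 p.2)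
      map_add' := by
        intro v w
        ext <;> simp [Finset.sum_add_distrib, mul_add, add_mul]
      map_smul' := by
        intro r w
        ext <;> simp [← Finset.mul_sum, mul_left_comm, mul_assoc] }
  have hT : Continuous T := T.continuous_of_finiteDimensional
  let K : Set ((X → ℝ) × (X → ℝ) × ℝ) := T '' stdSimplex ℝ (X × X)
  let L : Set ((X → ℝ) × (X → ℝ) × ℝ) := {1} ×ˢ {1} ×ˢ Set.Iic c
  have hK1 : Convex ℝ K := (convex_stdSimplex ℝ _).linear_image T
  have hK2 : IsCompact K := (isCompact_stdSimplex ℝ _).image hT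
  have hL1 : Convex ℝ L :=
    (convex_singleton _).prod ((convex_singleton _).prod (convex_Iic c))
  have hL2 : IsClosed L := isClosed_singleton.prod (isClosed_singleton.prod isClosed_Iic)
  have hd : Disjoint K L := by
    rw [Set.disjoint_left]
    rintro _ ⟨w, hw, rfl⟩ ⟨h1, h2, h3⟩
    let M : Matrix X X ℝ := Matrix.of fun x y => N * w (x, y)
    have hM : M ∈ doublyStochastic ℝ X := by
      rw [mem_doublyStochastic_iff_sum]
      refine ⟨fun x y => mul_nonneg hN0.le (hw.1 _), fun x => ?_, fun y => ?_⟩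
      · have := congrFun (Set.mem_singleton_iff.1 h1) x
        simpa [M, T, ← Finset.mul_sum] using this
      · have := congrFun (Set.mem_singleton_iff.1 h2) y
        simpa [M, T, ← Finset.mul_sum] using this
    obtain ⟨p, hp0, hp1, hp2⟩ := exists_eq_sum_perm_of_mem_doublyStochastic hM
    have h4 : ∑ x, ∑ y, M x y * C x y ≤ c := by
      have : N * ∑ q : X × X, w q * C q.1 q.2 ≤ c := h3
      rw [Fintype.sum_prod_type, Finset.mul_sum] at this
      simpa [M, Finset.mul_sum, mul_assoc] using this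
    have h5 : ∑ x, ∑ y, M x y * C x y = ∑ σ : Equiv.Perm X, p σ * ∑ x, C x (σ x) := by
      rw [← hp2]
      simp only [Matrix.sum_apply, Matrix.smul_apply, smul_eq_mul, Finset.sum_mul, Finset.mul_sum]
      rw [Finset.sum_comm (s := (Finset.univ : Finset (Equiv.Perm X)))]
      apply Finset.sum_congr rfl
      intro x _
      rw [Finset.sum_comm]
      apply Finset.sum_congr rfl
      intro σ _
      simp [Equiv.Perm.permMatrix, PEquiv.toMatrix_apply, Equiv.toPEquiv_apply]
    have h6 : ∑ σ : Equiv.Perm X, p σ * c < ∑ σ : Equiv.Perm X, p σ * ∑ x, C x (σ x) := by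
      obtain ⟨σ, -, hσ⟩ : ∃ σ ∈ (Finset.univ : Finset (Equiv.Perm X)), p σ ≠ 0 :=
        Finset.exists_ne_zero_of_sum_ne_zero (by rw [hp1]; exact one_ne_zero)
      apply Finset.sum_lt_sum
      · intro τ _
        exact mul_le_mul_of_nonneg_left (hno τ).le (hp0 τ)
      · exact ⟨σ, Finset.mem_univ _,
          mul_lt_mul_of_pos_left (hno σ) (lt_of_le_of_ne (hp0 σ) hσ.symm)⟩
    rw [← Finset.sum_mul, hp1, one_mul] at h6
    linarith
  obtain ⟨f, u, v, hu, huv, hv⟩ := geometric_hahn_banach_compact_closed hK1 hK2 hL1 hL2 hd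
  set a : X → ℝ := fun x => f (Pi.single x 1, 0, 0) with ha
  set b : X → ℝ := fun y => f (0, Pi.single y 1, 0) with hb
  set t : ℝ := f (0, 0, 1) with ht
  have hf : ∀ (p q : X → ℝ) (s : ℝ), f (p, q, s) = ∑ x, p x * a x + ∑ y, q y * b y + s * t := by
    intro p q s
    have e : ((p, q, s) : (X → ℝ) × (X → ℝ) × ℝ) =
        ∑ x, p x • ((Pi.single x 1, 0, 0) : (X → ℝ) × (X → ℝ) × ℝ) +
        ∑ y, q y • ((0, Pi.single y 1, 0) : (X → ℝ) × (X → ℝ) × ℝ) +
        s • ((0, 0, 1) : (X → ℝ) × (X → ℝ) × ℝ) := by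
      ext z <;> simp [Prod.fst_sum, Prod.snd_sum, Finset.sum_apply, Pi.single_apply]
    rw [e, map_add, map_add, map_sum, map_sum]
    simp only [map_smul, smul_eq_mul, ha, hb, ht]
  have h1 : ∀ x y, N * (a x + b y + C x y * t) < u := by
    intro x y
    have h2 := hu _ ⟨Pi.single (x, y) 1, single_mem_stdSimplex ℝ _, rfl⟩
    have e : T (Pi.single (x, y) 1) = (Pi.single x N, Pi.single y N, N * C x y) := by
      ext z
      · simp only [T, LinearMap.coe_mk, AddHom.coe_mk, Pi.single_apply, Prod.mk.injEq]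
        by_cases hz : z = x <;> simp [hz]
      · simp only [T, LinearMap.coe_mk, AddHom.coe_mk, Pi.single_apply, Prod.mk.injEq]
        by_cases hz : z = y <;> simp [hz]
      · simp [T, Pi.single_apply]
    rw [e, hf] at h2
    simp only [Pi.single_apply, ite_mul, zero_mul, Finset.sum_ite_eq', Finset.mem_univ,
      if_true] at h2
    linarith
  have h2 : ∀ s ≤ c, v < ∑ x, a x + ∑ y, b y + s * t := by
    intro s hs
    have := hv (1, 1, s) ⟨rfl, rfl, hs⟩
    rw [hf] at this
    simpa using this
  have h3 : t ≤ 0 := by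
    by_contra h4
    push Not at h4
    have h5 := h2 (min c ((v - (∑ x, a x + ∑ y, b y)) / t)) (min_le_left _ _)
    have h6 : min c ((v - (∑ x, a x + ∑ y, b y)) / t) * t ≤ v - (∑ x, a x + ∑ y, b y) := by
      rw [← le_div_iff₀ h4]; exact min_le_right _ _
    linarith
  have h7 := h2 c le_rfl
  rcases h3.eq_or_lt with h4 | h4
  · have h5 : ∑ x, N * (a x + b x + C x x * t) < ∑ _x : X, u :=
      Finset.sum_lt_sum_of_nonempty Finset.univ_nonempty fun x _ => h1 x x
    rw [h4] at h5 h7
    simp only [mul_zero, add_zero, ← Finset.mul_sum, Finset.sum_add_distrib, Finset.sum_const,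
      Finset.card_univ, nsmul_eq_mul] at h5 h7
    rw [← hN] at h5
    have := lt_of_mul_lt_mul_left h5 hN0.le
    linarith
  · have h5 := h (fun x => (a x - u / N) / (-t)) (fun y => b y / (-t)) (by
      intro x y
      rw [← add_div, div_le_iff₀ (by linarith)]
      have h6 := h1 x y
      rw [← lt_div_iff₀' hN0] at h6
      linarith)
    rw [← Finset.sum_div, ← Finset.sum_div, ← add_div, div_le_iff₀ (by linarith),
      Finset.sum_sub_distrib] at h5
    simp only [Finset.sum_const, Finset.card_univ, nsmul_eq_mul] at h5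
    rw [← hN, mul_div_cancel₀ _ hN0.ne'] at h5
    linarith

/-- rounding a map to a bijection -/
theorem round {X Y : Type} [Fintype X] [DecidableEq X] [Nonempty X] (d : Y → Y → ℝ)
    (d0 : ∀ y, d y y = 0) (dtri : ∀ a b c, d a c ≤ d a b + d b c) (F : X → Y) (A : Finset Y)
    (hA : A.card = Fintype.card X) (c : ℝ)
    (h : ∀ g : Y → ℝ, (∀ y y', g y - g y' ≤ d y y') → ∑ x, g (F x) - ∑ y ∈ A, g y ≤ c) :
    ∃ φ : X → Y, Function.Injective φ ∧ (∀ x, φ x ∈ A) ∧ ∑ x, d (F x) (φ x) ≤ c := by
  classical
  let e : X ≃ A := Fintype.equivOfCardEq (by simp [hA])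
  obtain ⟨σ, hσ⟩ := assign (fun x x' => d (F x) (e x').1) c (by
    intro a b hab
    let g : Y → ℝ := fun z => Finset.univ.inf' Finset.univ_nonempty fun x' => d z (e x').1 - b x'
    have g1 : ∀ y y', g y - g y' ≤ d y y' := by
      intro y y'
      obtain ⟨x', -, hx'⟩ := Finset.exists_mem_eq_inf' Finset.univ_nonempty
        fun x' => d y' (e x').1 - b x'
      have h1 : g y ≤ d y (e x').1 - b x' := Finset.inf'_le _ (Finset.mem_univ x')
      have h2 : g y' = d y' (e x').1 - b x' := hx'
      have h3 := dtri y y' (e x').1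
      linarith
    have g2 : ∀ x, a x ≤ g (F x) := by
      intro x
      apply Finset.le_inf'
      intro x' _
      have := hab x x'
      linarith
    have g3 : ∀ x', g (e x').1 ≤ - b x' := by
      intro x'
      have h1 : g (e x').1 ≤ d (e x').1 (e x').1 - b x' := Finset.inf'_le _ (Finset.mem_univ x')
      rw [d0] at h1
      linarith
    have h1 := h g g1
    have h2 : ∑ y ∈ A, g y = ∑ x', g (e x').1 := by
      rw [← Finset.sum_coe_sort A, ← Equiv.sum_comp e]
    have h3 : ∑ x, a x ≤ ∑ x, g (F x) := Finset.sum_le_sum fun x _ => g2 x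
    have h4 : ∑ x', g (e x').1 ≤ ∑ x', - b x' := Finset.sum_le_sum fun x _ => g3 x
    rw [Finset.sum_neg_distrib] at h4
    linarith)
  exact ⟨fun x => (e (σ x)).1, fun x y hxy => σ.injective (e.injective (Subtype.ext hxy)),
    fun x => (e (σ x)).2, hσ⟩

end Pool.Agent.H423Z.Str
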