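import Pool.Agent.H423Z.StrA

/-!
# Average stretch, part B: from a random map to a bijection (seeds and rounding)
-/

set_option autoImplicit false
set_option linter.unusedSectionVars false
set_option maxHeartbeats 400000

open Finset

namespace Pool.Agent.H423Z.Str

section cube
variable {κ : Type} [Fintype κ] [DecidableEq κ]

/-- Hamming distance as a real number -/
noncomputable def hd (x y : κ → Bool) : ℝ := (hammingDist x y : ℝ)

/-- flip one bit -/
def fl (x : κ → Bool) (i : κ) : κ → Bool := Function.update x i (!x i)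

def Lip (h : (κ → Bool) → ℝ) : Prop := ∀ y y', h y - h y' ≤ hd y y'

theorem hd_eq (x y : κ → Bool) : hd x y = ∑ i, if x i = y i then (0 : ℝ) else 1 := by
  unfold hd hammingDist
  rw [Finset.card_filter]
  push_cast
  apply Finset.sum_congr rfl
  intro i _
  by_cases h : x i = y i <;> simp [h]

theorem hd_self (x : κ → Bool) : hd x x = 0 := by simp [hd]
theorem hd_comm (x y : κ → Bool) : hd x y = hd y x := by simp [hd, hammingDist_comm]
theorem hd_nonneg (x y : κ → Bool) : 0 ≤ hd x y := Nat.cast_nonneg _
theorem hd_tri (x y z : κ → Bool) : hd x z ≤ hd x y + hd y z := by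
  unfold hd; exact_mod_cast hammingDist_triangle x y z
theorem hd_le (x y : κ → Bool) : hd x y ≤ Fintype.card κ := by
  unfold hd; exact_mod_cast hammingDist_le_card_fintype

theorem fl_fl (x : κ → Bool) (i : κ) : fl (fl x i) i = x := by
  simp [fl]

theorem fl_invol (i : κ) : Function.Involutive fun x : κ → Bool => fl x i := fun x => fl_fl x i

theorem fl_self (x : κ → Bool) (i : κ) : fl x i i = !x i := by simp [fl]

theorem fl_ne (x : κ → Bool) {i j : κ} (h : j ≠ i) : fl x i j = x j := by
  simp [fl, Function.update_of_ne h]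

theorem fl_comm (x : κ → Bool) (i j : κ) : fl (fl x i) j = fl (fl x j) i := by
  by_cases h : i = j
  · rw [h]
  · ext k
    by_cases hi : k = i
    · subst hi; rw [fl_ne _ h, fl_self, fl_self, fl_ne _ h]
    · by_cases hj : k = j
      · subst hj; rw [fl_self, fl_ne _ hi, fl_ne _ hi, fl_self]
      · rw [fl_ne _ hj, fl_ne _ hi, fl_ne _ hi, fl_ne _ hj]

theorem hd_fl (x : κ → Bool) (i : κ) : hd x (fl x i) = 1 := by
  rw [hd_eq, Finset.sum_eq_single i]
  · simp [fl_self]
  · intro j _ hj; simp [fl_ne _ hj]
  · simp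

theorem Lip.abs_le {h : (κ → Bool) → ℝ} (hh : Lip h) (x y : κ → Bool) : |h x - h y| ≤ hd x y := by
  rw [_root_.abs_le]
  have h1 := hh x y
  have h2 := hh y x
  rw [hd_comm] at h2
  constructor <;> linarith

theorem Lip.neg {h : (κ → Bool) → ℝ} (hh : Lip h) : Lip fun x => - h x := by
  intro x y
  have := hh y x
  rw [hd_comm] at this
  linarith

/-- flip all bits in a set -/
def sh (u : κ → Bool) (S : Finset κ) : κ → Bool := fun i => if i ∈ S then !u i else u i

theorem sh_invol (S : Finset κ) : Function.Involutive fun u : κ → Bool => sh u S := by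
  intro u
  ext i
  by_cases h : i ∈ S <;> simp [sh, h]

theorem hd_sh (u : κ → Bool) (S : Finset κ) : hd u (sh u S) = S.card := by
  rw [hd_eq]
  have : ∀ i, (if u i = sh u S i then (0 : ℝ) else 1) = if i ∈ S then 1 else 0 := by
    intro i
    by_cases h : i ∈ S <;> simp [sh, h]
  simp [this]

theorem sh_inj (u : κ → Bool) : Function.Injective (sh u) := by
  intro S S' h
  ext i
  have := congrFun h i
  by_cases h1 : i ∈ S <;> by_cases h2 : i ∈ S' <;> simp_all [sh]

end cube

theorem hd_elim {U V : Type} [Fintype U] [DecidableEq U] [Fintype V] [DecidableEq V]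
    (u u' : U → Bool) (v v' : V → Bool) :
    hd (Sum.elim u v) (Sum.elim u' v') = hd u u' + hd v v' := by
  rw [hd_eq, hd_eq, hd_eq, Fintype.sum_sum_type]
  rfl

theorem av_elim {U V : Type} [Fintype U] [DecidableEq U] [Fintype V] [DecidableEq V]
    (f : (U ⊕ V → Bool) → ℝ) : av f = av fun u => av fun v => f (Sum.elim u v) := by
  rw [← av_equiv (Equiv.sumArrowEquivProdArrow U V Bool).symm f, av_prod]
  rfl

theorem fl_inl {U V : Type} [Fintype U] [DecidableEq U] [Fintype V] [DecidableEq V]
    (u : U → Bool) (v : V → Bool) (i : U) :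
    fl (Sum.elim u v) (Sum.inl i) = Sum.elim (fl u i) v := by
  unfold fl
  rw [Sum.update_elim_inl]
  rfl

theorem fl_inr {U V : Type} [Fintype U] [DecidableEq U] [Fintype V] [DecidableEq V]
    (u : U → Bool) (v : V → Bool) (i : V) :
    fl (Sum.elim u v) (Sum.inr i) = Sum.elim u (fl v i) := by
  unfold fl
  rw [Sum.update_elim_inr]
  rfl

/-- multiplicity of a point in the image -/
noncomputable def mult {X : Type} [Fintype X] [DecidableEq X] (g : X → X) (y : X) : ℝ :=
  ∑ z, if g z = y then 1 else 0

theorem av_mult {X : Type} [Fintype X] [DecidableEq X] (g : X → X) (φ : X → ℝ) :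
    av (fun y => mult g y * φ y) = av fun z => φ (g z) := by
  simp only [av, mult, Finset.sum_mul]
  rw [Finset.sum_comm]
  simp

theorem mult_nonneg {X : Type} [Fintype X] [DecidableEq X] (g : X → X) (y : X) : 0 ≤ mult g y :=
  Finset.sum_nonneg fun _ _ => by split_ifs <;> norm_num

theorem av_mult_one {X : Type} [Fintype X] [DecidableEq X] [Nonempty X] (g : X → X) :
    av (mult g) = 1 := by
  have := av_mult g (fun _ => 1)
  simpa [av_const] using this

theorem mix {α β Γ : Type} [Fintype α] [DecidableEq α] [Fintype β] [Nonempty β] [Fintype Γ]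
    [Nonempty Γ] (a : Γ → α) (ha : Function.Injective a) (f : β → ℝ) (hf : av f = 0) :
    av (fun ω : α → β => (av fun γ => f (ω (a γ))) ^ 2) =
      av (fun o => f o ^ 2) / Fintype.card Γ := by
  classical
  have e1 : ∀ ω : α → β, (av fun γ => f (ω (a γ))) ^ 2 =
      av fun γ => av fun γ' => f (ω (a γ)) * f (ω (a γ')) := by
    intro ω
    simp only [av_mul]
    rw [av_mul', sq]
  simp only [e1]
  rw [av_comm]
  have e2 : ∀ γ, av (fun ω : α → β => av fun γ' => f (ω (a γ)) * f (ω (a γ'))) =
      av (fun o => f o ^ 2) / Fintype.card Γ := by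
    intro γ
    rw [av_comm]
    have e3 : ∀ γ', av (fun ω : α → β => f (ω (a γ)) * f (ω (a γ'))) =
        if γ = γ' then av (fun o => f o ^ 2) else 0 := by
      intro γ'
      split_ifs with h
      · subst h
        rw [← av_pi_one (a γ) fun o => f o ^ 2]
        simp only [sq]
      · rw [av_pi_two (fun e => h (ha e)), hf, zero_mul]
    simp only [e3]
    simp [av]
  simp only [e2, av_const]

/-- a bijection onto `A` with total stretch at a vertex at most `B` on average -/
def Good (ι κ : Type) [Fintype ι] [DecidableEq ι] [Fintype κ] [DecidableEq κ]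
    (A : Finset (κ → Bool)) (B : ℝ) : Prop :=
  ∃ φ : (ι → Bool) → (κ → Bool), Function.Injective φ ∧ (∀ x, φ x ∈ A) ∧
    av (fun x => ∑ i, hd (φ x) (φ (fl x i))) ≤ B

/-- the embedding with the extra coordinates set to `false` -/
def emb {U Z : Type} (E : Type) (u : U → Bool) (y : Z → Bool) : U ⊕ Z ⊕ E → Bool :=
  Sum.elim u (Sum.elim y fun _ => false)

theorem hd_emb {U Z E : Type} [Fintype U] [DecidableEq U] [Fintype Z] [DecidableEq Z]
    [Fintype E] [DecidableEq E] (u u' : U → Bool) (y y' : Z → Bool) :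
    hd (emb E u y) (emb E u' y') = hd u u' + hd y y' := by
  simp [emb, hd_elim, hd_self]

theorem assembly {U Z E Ω Γ : Type} [Fintype U] [DecidableEq U] [Fintype Z] [DecidableEq Z]
    [Fintype E] [DecidableEq E] [Fintype Ω] [Nonempty Ω] [Fintype Γ] [Nonempty Γ] [Nonempty Z]
    (S : Γ → Finset U) (hS : Function.Injective S) (r : ℝ) (hr : ∀ γ, ((S γ).card : ℝ) ≤ r)
    (G : Ω → (Z → Bool) → (Z → Bool)) (A : Finset (U ⊕ Z ⊕ E → Bool))
    (hA : A.card = Fintype.card (U ⊕ Z → Bool)) (L P M W : ℝ)
    (hL : av (fun o => av fun z => ∑ i, hd (G o z) (G o (fl z i))) ≤ L)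
    (hP : av (fun o => av fun z => hd (G o z) z) ≤ P)
    (hM : av (fun o => av fun y => mult (G o) y ^ 2) ≤ M)
    (hΓ : M * (Fintype.card (U ⊕ Z ⊕ E) : ℝ) ^ 2 ≤ Fintype.card Γ)
    (hW : ∀ h, Lip h → av (fun u => av fun o => av fun z => h (emb E u (G o z))) -
      (∑ a ∈ A, h a) / A.card ≤ W) :
    Good (U ⊕ Z) (U ⊕ Z ⊕ E) A
      (2 * Fintype.card (U ⊕ Z) * (W + r + 1) + L + Fintype.card U * (1 + 2 * P)) := by
  set c : ℝ := (Fintype.card (U ⊕ Z ⊕ E) : ℝ) with hc
  have hc0 : 0 < c := by rw [hc]; positivity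
  set n : ℝ := (Fintype.card (U ⊕ Z) : ℝ) with hn
  have hn0 : 0 ≤ n := by rw [hn]; positivity
  have hΓ0 : (0 : ℝ) < Fintype.card Γ := by positivity
  let D : Ω → (Z → Bool) → ℝ := fun o => mult (G o)
  let Db : (Z → Bool) → ℝ := fun y => av fun o => D o y
  let Err : ((U → Bool) → Ω) → ℝ := fun ω => av fun u => av fun y =>
    |av fun γ => (D (ω (sh u (S γ))) y - Db y)|
  let st : Ω → ℝ := fun o => av fun z => ∑ i, hd (G o z) (G o (fl z i))
  let dp : Ω → ℝ := fun o => av fun z => hd (G o z) z
  let St : ((U → Bool) → Ω) → ℝ := fun ω => av fun u =>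
    st (ω u) + ∑ i : U, (1 + dp (ω u) + dp (ω (fl u i)))
  have e1 : av St ≤ L + Fintype.card U * (1 + 2 * P) := by
    simp only [St]
    rw [av_comm]
    apply av_le
    intro u
    rw [av_add, av_sum, av_pi_one u st]
    simp only [av_add, av_const, av_pi_one _ dp, Finset.sum_const, Finset.card_univ, nsmul_eq_mul]
    have h1 : av dp ≤ P := hP
    have h2 : av st ≤ L := hL
    have h3 : (0 : ℝ) ≤ Fintype.card U := by positivity
    nlinarith
  have e2 : av Err ≤ 1 / c := by
    simp only [Err]
    rw [av_comm]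
    apply av_le
    intro u
    rw [av_comm]
    have h1 : ∀ y, av (fun ω : (U → Bool) → Ω => |av fun γ => (D (ω (sh u (S γ))) y - Db y)|) ≤
        1 / (2 * c) + c / (2 * Fintype.card Γ) * av fun o => D o y ^ 2 := by
      intro y
      have h2 := mix (fun γ => sh u (S γ)) ((sh_inj u).comp hS) (fun o => D o y - Db y)
        (by rw [av_sub, av_const]; simp [Db])
      have h3 : av (fun o => (D o y - Db y) ^ 2) ≤ av fun o => D o y ^ 2 := by
        have : ∀ o, (D o y - Db y) ^ 2 = D o y ^ 2 - (2 * Db y) * D o y + Db y ^ 2 := by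
          intro o; ring
        simp only [this, av_add, av_sub, av_mul, av_const]
        have : av (fun o => D o y) = Db y := rfl
        rw [this]
        nlinarith
      have h4 : ∀ t : ℝ, |t| ≤ 1 / (2 * c) + c / 2 * t ^ 2 := by
        intro t
        have h5 : 1 / (2 * c) + c / 2 * t ^ 2 - |t| = (c * |t| - 1) ^ 2 / (2 * c) := by
          rw [← sq_abs t]; field_simp; ring
        have h6 : 0 ≤ (c * |t| - 1) ^ 2 / (2 * c) := by positivity
        linarith
      refine (av_mono fun ω => h4 _).trans ?_
      rw [av_add, av_const, av_mul, h2]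
      have h5 : c / 2 * (av (fun o => (D o y - Db y) ^ 2) / Fintype.card Γ) =
          c / (2 * Fintype.card Γ) * av (fun o => (D o y - Db y) ^ 2) := by
        field_simp
      rw [h5]
      have h6 : 0 ≤ c / (2 * Fintype.card Γ) := by positivity
      nlinarith
    refine (av_mono h1).trans ?_
    rw [av_add, av_const, av_mul, av_comm]
    have h6 : 0 ≤ c / (2 * Fintype.card Γ) := by positivity
    have h7 : c / (2 * Fintype.card Γ) * M ≤ 1 / (2 * c) := by
      rw [div_mul_eq_mul_div, div_le_div_iff₀ (by positivity) (by positivity)]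
      nlinarith
    have h8 : 1 / (2 * c) + 1 / (2 * c) = 1 / c := by field_simp; ring
    have h9 : c / (2 * Fintype.card Γ) * av (fun o => av fun y => D o y ^ 2) ≤
        c / (2 * Fintype.card Γ) * M := mul_le_mul_of_nonneg_left hM h6
    linarith
  obtain ⟨ω, hω⟩ := exists_le_av fun ω => St ω + (2 * n * c) * Err ω
  rw [av_add, av_mul] at hω
  have e3 : St ω + 2 * n * c * Err ω ≤ L + Fintype.card U * (1 + 2 * P) + 2 * n := by
    have h1 : 2 * n * c * av Err ≤ 2 * n * c * (1 / c) :=
      mul_le_mul_of_nonneg_left e2 (by positivity)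
    have h2 : 2 * n * c * (1 / c) = 2 * n := by field_simp
    linarith
  let F : (U ⊕ Z → Bool) → (U ⊕ Z ⊕ E → Bool) := fun x =>
    emb E (fun i => x (Sum.inl i)) (G (ω fun i => x (Sum.inl i)) fun i => x (Sum.inr i))
  have hF : ∀ u z, F (Sum.elim u z) = emb E u (G (ω u) z) := fun u z => rfl
  have e4 : ∀ h, Lip h → av (fun x => h (F x)) ≤
      av (fun u => av fun o => av fun z => h (emb E u (G o z))) + r + c * Err ω := by
    intro h hh
    rw [av_elim]
    simp only [hF]
    have h1 : ∀ u, av (fun z => h (emb E u (G (ω u) z))) ≤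
        av (fun γ => av fun z => h (emb E (sh u (S γ)) (G (ω u) z))) + r := by
      intro u
      rw [← av_const (α := Γ) r, ← av_add, ← av_const (α := Γ) (av fun z => h (emb E u (G (ω u) z)))]
      apply av_mono
      intro γ
      rw [← av_const (α := Z → Bool) r, ← av_add]
      apply av_mono
      intro z
      have h2 := hh (emb E u (G (ω u) z)) (emb E (sh u (S γ)) (G (ω u) z))
      rw [hd_emb, hd_self, hd_sh] at h2
      have := hr γ
      linarith
    refine (av_mono h1).trans ?_
    rw [av_add, av_const, av_comm]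
    have h2 : ∀ γ, av (fun u => av fun z => h (emb E (sh u (S γ)) (G (ω u) z))) =
        av fun u => av fun y => D (ω (sh u (S γ))) y * h (emb E u y) := by
      intro γ
      rw [← av_invol _ (sh_invol (S γ))]
      apply av_congr
      intro u
      rw [av_mult (G (ω (sh u (S γ)))) fun y => h (emb E u y)]
      have : sh (sh u (S γ)) (S γ) = u := sh_invol (S γ) u
      simp only [this]
    simp only [h2]
    rw [av_comm]
    have h3 : ∀ u, av (fun γ => av fun y => D (ω (sh u (S γ))) y * h (emb E u y)) ≤
        av (fun o => av fun z => h (emb E u (G o z))) +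
          c * av fun y => |av fun γ => (D (ω (sh u (S γ))) y - Db y)| := by
      intro u
      have h4 : av (fun o => av fun z => h (emb E u (G o z))) =
          av fun y => Db y * h (emb E u y) := by
        simp only [← av_mult (G _) fun y => h (emb E u y)]
        rw [av_comm]
        simp only [av_mul', Db, D]
      rw [h4, av_comm, ← av_mul, ← av_add]
      set t : (Z → Bool) → ℝ := fun y => av fun γ => (D (ω (sh u (S γ))) y - Db y) with ht
      have h5 : av t = 0 := by
        rw [ht, av_comm]
        have : ∀ γ, av (fun y => D (ω (sh u (S γ))) y - Db y) = 0 := by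
          intro γ
          rw [av_sub]
          simp only [Db]
          rw [av_comm]
          simp only [D]
          have e : ∀ o, av (fun y => mult (G o) y) = 1 := fun o => av_mult_one (G o)
          simp only [e, av_const, sub_self]
        simp only [this, av_zero]
      have h6 : ∀ y, av (fun γ => D (ω (sh u (S γ))) y * h (emb E u y)) ≤
          Db y * h (emb E u y) + c * |t y| + h (fun _ => false) * t y := by
        intro y
        rw [av_mul']
        have h7 : av (fun γ => D (ω (sh u (S γ))) y) = t y + Db y := by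
          rw [ht]; simp only [av_sub, av_const]; ring
        rw [h7]
        have h8 := (hh.abs_le (emb E u y) (fun _ => false)).trans (hd_le _ _)
        have h9 : t y * (h (emb E u y) - h fun _ => false) ≤ c * |t y| := by
          refine (le_abs_self _).trans ?_
          rw [abs_mul, mul_comm]
          exact mul_le_mul_of_nonneg_right h8 (abs_nonneg _)
        nlinarith
      refine (av_mono h6).trans ?_
      rw [av_add, av_mul, h5, mul_zero, add_zero]
    have h4 := av_mono h3
    rw [av_add, av_mul] at h4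
    have : Err ω = av fun u => av fun y => |av fun γ => (D (ω (sh u (S γ))) y - Db y)| := rfl
    linarith
  have hcard : (0 : ℝ) < Fintype.card (U ⊕ Z → Bool) := by positivity
  obtain ⟨φ, hφ1, hφ2, hφ3⟩ := round hd hd_self hd_tri F A hA
    (Fintype.card (U ⊕ Z → Bool) * (W + r + c * Err ω)) (by
      intro h hh
      have h1 := e4 h hh
      have h2 := hW h hh
      rw [hA] at h2
      rw [sum_eq_av]
      have h3 : ∑ a ∈ A, h a = Fintype.card (U ⊕ Z → Bool) *
          ((∑ a ∈ A, h a) / Fintype.card (U ⊕ Z → Bool)) := by field_simp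
      rw [h3, ← mul_sub]
      apply mul_le_mul_of_nonneg_left _ hcard.le
      linarith)
  refine ⟨φ, hφ1, hφ2, ?_⟩
  rw [sum_eq_av] at hφ3
  have e5 : av (fun x => hd (F x) (φ x)) ≤ W + r + c * Err ω := le_of_mul_le_mul_left hφ3 hcard
  have e6 : av (fun x => ∑ i, hd (F x) (F (fl x i))) ≤ St ω := by
    rw [av_elim]
    apply av_mono
    intro u
    simp only [Fintype.sum_sum_type, fl_inl, fl_inr, hF, hd_emb, hd_self, zero_add, hd_fl]
    rw [av_add, av_sum, add_comm]
    apply add_le_add le_rfl
    apply Finset.sum_le_sum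
    intro i _
    rw [av_add, av_const, add_assoc]
    apply add_le_add le_rfl
    rw [← av_add]
    apply av_mono
    intro z
    rw [hd_comm (G (ω (fl u i)) z)]
    exact hd_tri _ _ _
  have e7 : ∀ x, ∑ i, hd (φ x) (φ (fl x i)) ≤
      ∑ i, (hd (F x) (φ x) + hd (F x) (F (fl x i)) + hd (F (fl x i)) (φ (fl x i))) := by
    intro x
    apply Finset.sum_le_sum
    intro i _
    have h1 := hd_tri (φ x) (F x) (φ (fl x i))
    have h2 := hd_tri (F x) (F (fl x i)) (φ (fl x i))
    rw [hd_comm (φ x) (F x)] at h1
    linarith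
  refine (av_mono e7).trans ?_
  simp only [Finset.sum_add_distrib]
  rw [av_add, av_add, av_sum, av_sum _ fun i x => hd (F (fl x i)) (φ (fl x i))]
  have e8 : ∀ i, av (fun x => hd (F (fl x i)) (φ (fl x i))) = av fun x => hd (F x) (φ x) :=
    fun i => av_invol _ (fl_invol i) fun x => hd (F x) (φ x)
  simp only [e8, Finset.sum_const, Finset.card_univ, nsmul_eq_mul]
  rw [← hn]
  nlinarith

theorem Good.mono {ι κ : Type} [Fintype ι] [DecidableEq ι] [Fintype κ] [DecidableEq κ]
    {A : Finset (κ → Bool)} {B B' : ℝ} (h : Good ι κ A B) (hB : B ≤ B') : Good ι κ A B' := by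
  obtain ⟨φ, h1, h2, h3⟩ := h
  exact ⟨φ, h1, h2, h3.trans hB⟩

theorem hd_comp {κ κ' : Type} [Fintype κ] [DecidableEq κ] [Fintype κ'] [DecidableEq κ']
    (e : κ ≃ κ') (x y : κ' → Bool) : hd (x ∘ e) (y ∘ e) = hd x y := by
  rw [hd_eq, hd_eq]
  exact Equiv.sum_comp e fun i => if x i = y i then (0 : ℝ) else 1

theorem fl_comp {κ κ' : Type} [Fintype κ] [DecidableEq κ] [Fintype κ'] [DecidableEq κ']
    (e : κ ≃ κ') (x : κ' → Bool) (i : κ) : fl x (e i) ∘ e = fl (x ∘ e) i := by
  ext j
  by_cases h : j = i
  · subst h; simp [fl_self]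
  · rw [fl_ne _ h, Function.comp_apply, fl_ne _ (fun h' => h (e.injective h'))]; rfl

theorem Good.transport {ι κ ι' κ' : Type} [Fintype ι] [DecidableEq ι] [Fintype κ] [DecidableEq κ]
    [Fintype ι'] [DecidableEq ι'] [Fintype κ'] [DecidableEq κ'] (e : ι ≃ ι') (e' : κ ≃ κ')
    (A : Finset (κ' → Bool)) {B : ℝ} (h : Good ι κ (A.image fun a => a ∘ e') B) :
    Good ι' κ' A B := by
  obtain ⟨φ, h1, h2, h3⟩ := h
  refine ⟨fun x => φ (x ∘ e) ∘ e'.symm, ?_, ?_, ?_⟩
  · intro x y hxy
    have h4 : φ (x ∘ e) = φ (y ∘ e) := by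
      ext k
      have := congrFun hxy (e' k)
      simpa using this
    have h5 := h1 h4
    ext i
    have := congrFun h5 (e.symm i)
    simpa using this
  · intro x
    obtain ⟨a, ha, hae⟩ := Finset.mem_image.1 (h2 (x ∘ e))
    have : φ (x ∘ e) ∘ e'.symm = a := by
      rw [← hae]; ext k; simp
    simp only [this]
    exact ha
  · rw [← av_equiv (Equiv.arrowCongr e.symm (Equiv.refl Bool))] at h3
    refine le_trans (le_of_eq ?_) h3
    apply av_congr
    intro x
    rw [← Equiv.sum_comp e]
    apply Finset.sum_congr rfl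
    intro i _
    rw [hd_comp, fl_comp]
    rfl

end Pool.Agent.H423Z.Str
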