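import Pool.Agent.H423Z.StrB

/-!
# Average stretch, part C: chains of random jumps
-/

set_option autoImplicit false
set_option linter.unusedSectionVars false
set_option maxHeartbeats 400000

open Finset

namespace Pool.Agent.H423Z.Str

section run
variable {X O : Type} [Fintype X] [DecidableEq X] [Fintype O] [Nonempty O]

/-- run `T` random steps, starting at time `k` -/
def run (st : ℕ → O → X → X) : (T : ℕ) → ℕ → (Fin T → O) → X → X
  | 0, _, _, x => x
  | T + 1, k, ω, x => run st T (k + 1) (Fin.tail ω) (st k (ω 0) x)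

theorem run_cons (st : ℕ → O → X → X) (T k : ℕ) (o : O) (ω : Fin T → O) (x : X) :
    run st (T + 1) k (Fin.cons o ω) x = run st T (k + 1) ω (st k o x) := by
  simp [run]

/-- push-forward of a weight -/
noncomputable def push (g : X → X) (μ : X → ℝ) (y : X) : ℝ := ∑ x, if g x = y then μ x else 0

theorem push_comp (g f : X → X) (μ : X → ℝ) : push (fun x => g (f x)) μ = push g (push f μ) := by
  ext y
  simp only [push]
  have : ∀ z, (if g z = y then ∑ x, (if f x = z then μ x else 0) else 0) =
      ∑ x, if f x = z then (if g (f x) = y then μ x else 0) else 0 := by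
    intro z
    split_ifs with h
    · apply Finset.sum_congr rfl
      intro x _
      by_cases h' : f x = z <;> simp [h', h]
    · symm
      apply Finset.sum_eq_zero
      intro x _
      by_cases h' : f x = z <;> simp [h', h]
  simp only [this]
  rw [Finset.sum_comm]
  simp

theorem run_mult (st : ℕ → O → X → X) (l : ℝ) (hl : 0 ≤ l)
    (h : ∀ k (μ : X → ℝ), av (fun o => ∑ y, push (st k o) μ y ^ 2) ≤ (1 + l) * ∑ y, μ y ^ 2)
    (T : ℕ) : ∀ k (μ : X → ℝ),
      av (fun ω => ∑ y, push (run st T k ω) μ y ^ 2) ≤ (1 + l) ^ T * ∑ y, μ y ^ 2 := by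
  induction T with
  | zero =>
    intro k μ
    apply av_le
    intro ω
    have e : push (run st 0 k ω) μ = μ := by
      ext y
      show ∑ x, (if x = y then μ x else 0) = μ y
      simp
    rw [e]
    simp
  | succ T ih =>
    intro k μ
    rw [av_cons]
    have e : ∀ o (ω : Fin T → O), push (run st (T + 1) k (Fin.cons o ω)) μ =
        push (run st T (k + 1) ω) (push (st k o) μ) := by
      intro o ω
      rw [← push_comp]
      congr 1
    simp only [e]
    refine (av_mono fun o => ih (k + 1) (push (st k o) μ)).trans ?_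
    rw [av_mul, pow_succ, mul_assoc]
    exact mul_le_mul_of_nonneg_left (h k μ) (by positivity)

theorem run_law (st : ℕ → O → X → X) (ρ : ℕ → X → ℝ) (K : ℕ) (b δ : ℝ)
    (h : ∀ k < K, ∀ φ : X → ℝ, (∀ x, |φ x| ≤ b) →
      av (fun x => ρ k x * av fun o => φ (st k o x)) ≤ av (fun x => ρ (k + 1) x * φ x) + δ)
    (φ : X → ℝ) (hφ : ∀ x, |φ x| ≤ b) (T : ℕ) : ∀ k, k + T ≤ K →
      av (fun x => ρ k x * av fun ω => φ (run st T k ω x)) ≤
        av (fun x => ρ (k + T) x * φ x) + T * δ := by
  induction T with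
  | zero =>
    intro k _
    simp [run, av_const]
  | succ T ih =>
    intro k hk
    have e : ∀ x, av (fun ω => φ (run st (T + 1) k ω x)) =
        av fun o => av fun ω => φ (run st T (k + 1) ω (st k o x)) := by
      intro x
      rw [av_cons]
      simp only [run_cons]
    simp only [e]
    have h1 := h k (by omega) (fun x => av fun ω => φ (run st T (k + 1) ω x))
      (fun x => (abs_av_le _).trans (av_le fun ω => hφ _))
    have h2 := ih (k + 1) (by omega)
    rw [show k + (T + 1) = k + 1 + T by omega]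
    push_cast
    linarith

end run

section jump
variable {Z : Type} [Fintype Z] [DecidableEq Z] [Nonempty Z]

theorem run_disp {O : Type} [Fintype O] [Nonempty O] (st : ℕ → O → (Z → Bool) → (Z → Bool))
    (l : ℝ) (h : ∀ k x, av (fun o => hd (st k o x) x) ≤ l) (T : ℕ) :
    ∀ k x, av (fun ω => hd (run st T k ω x) x) ≤ T * l := by
  induction T with
  | zero =>
    intro k x
    simp [run, hd_self, av_zero]
  | succ T ih =>
    intro k x
    rw [av_cons]
    simp only [run_cons]
    have h1 : ∀ o, av (fun ω => hd (run st T (k + 1) ω (st k o x)) x) ≤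
        T * l + hd (st k o x) x := by
      intro o
      refine (av_mono fun ω => hd_tri _ (st k o x) _).trans ?_
      rw [av_add, av_const]
      have := ih (k + 1) (st k o x)
      linarith
    refine (av_mono h1).trans ?_
    rw [av_add, av_const]
    have := h k x
    push_cast
    linarith

theorem av_lt {R : ℕ} [NeZero R] {c : ℕ} (hc : c ≤ R) :
    av (fun a : Fin R => if (a : ℕ) < c then (1 : ℝ) else 0) = c / R := by
  simp only [av, Fintype.card_fin]
  congr 1
  rw [Fin.sum_univ_eq_sum_range (fun a => if a < c then (1 : ℝ) else 0) R, Finset.sum_boole]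
  congr 1
  have : (Finset.range R).filter (fun a => a < c) = Finset.range c := by
    ext a; simp; omega
  rw [this, Finset.card_range]

theorem av_ite {R : ℕ} [NeZero R] {c : ℕ} (hc : c ≤ R) (s t : ℝ) :
    av (fun a : Fin R => if (a : ℕ) < c then s else t) = t + c / R * (s - t) := by
  have : ∀ a : Fin R, (if (a : ℕ) < c then s else t) =
      t + (if (a : ℕ) < c then (1 : ℝ) else 0) * (s - t) := by
    intro a; split_ifs <;> ring
  simp only [this, av_add, av_const, av_mul', av_lt hc]

theorem av_xor {R : ℕ} [NeZero R] {c c' : ℕ} (hc : c ≤ R) (hc' : c' ≤ R) :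
    av (fun a : Fin R => if ((a : ℕ) < c ↔ (a : ℕ) < c') then (0 : ℝ) else 1) =
      |(c : ℝ) / R - c' / R| := by
  have hR : (0 : ℝ) < R := by exact_mod_cast Nat.pos_of_ne_zero (NeZero.ne R)
  rcases le_total c c' with h | h
  · have : ∀ a : Fin R, (if ((a : ℕ) < c ↔ (a : ℕ) < c') then (0 : ℝ) else 1) =
        (if (a : ℕ) < c' then (1 : ℝ) else 0) - (if (a : ℕ) < c then (1 : ℝ) else 0) := by
      intro a
      by_cases h1 : (a : ℕ) < c <;> by_cases h2 : (a : ℕ) < c' <;> simp [h1, h2]
      omega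
    simp only [this, av_sub, av_lt hc, av_lt hc']
    have h3 : (c : ℝ) / R ≤ c' / R := div_le_div_of_nonneg_right (by exact_mod_cast h) hR.le
    rw [abs_of_nonpos (by linarith)]; ring
  · have : ∀ a : Fin R, (if ((a : ℕ) < c ↔ (a : ℕ) < c') then (0 : ℝ) else 1) =
        (if (a : ℕ) < c then (1 : ℝ) else 0) - (if (a : ℕ) < c' then (1 : ℝ) else 0) := by
      intro a
      by_cases h1 : (a : ℕ) < c <;> by_cases h2 : (a : ℕ) < c' <;> simp [h1, h2]
      omega
    simp only [this, av_sub, av_lt hc, av_lt hc']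
    have h3 : (c' : ℝ) / R ≤ c / R := div_le_div_of_nonneg_right (by exact_mod_cast h) hR.le
    rw [abs_of_nonneg (by linarith)]

/-- one random jump -/
def jump {R : ℕ} (c : ℕ → Z → (Z → Bool) → ℕ) (k : ℕ) (o : Z × Fin R) (x : Z → Bool) :
    Z → Bool := if (o.2 : ℕ) < c k o.1 x then fl x o.1 else x

variable {R : ℕ} [NeZero R] (c : ℕ → Z → (Z → Bool) → ℕ) (hc : ∀ k j x, c k j x ≤ R)
include hc

theorem jump_av (k : ℕ) (x : Z → Bool) (φ : (Z → Bool) → ℝ) :
    av (fun o : Z × Fin R => φ (jump c k o x)) =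
      φ x + av fun j => (c k j x : ℝ) / R * (φ (fl x j) - φ x) := by
  rw [av_prod]
  have : ∀ j, av (fun a : Fin R => φ (jump c k (j, a) x)) =
      φ x + (c k j x : ℝ) / R * (φ (fl x j) - φ x) := by
    intro j
    rw [← av_ite (hc k j x)]
    apply av_congr
    intro a
    simp only [jump]
    split_ifs <;> rfl
  simp only [this, av_add, av_const]

theorem jump_mult (l : ℝ) (h1 : ∀ k x, av (fun j => (c k j x : ℝ) / R) ≤ l)
    (h2 : ∀ k x, av (fun j => (c k j (fl x j) : ℝ) / R) ≤ l) (k : ℕ) (μ : (Z → Bool) → ℝ) :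
    av (fun o : Z × Fin R => ∑ y, push (jump c k o) μ y ^ 2) ≤ (1 + 2 * l) * ∑ y, μ y ^ 2 := by
  have e : ∀ (o : Z × Fin R) y, push (jump c k o) μ y =
      (if (o.2 : ℕ) < c k o.1 y then 0 else μ y) +
        (if (o.2 : ℕ) < c k o.1 (fl y o.1) then μ (fl y o.1) else 0) := by
    intro o y
    have hne : ∀ x : Z → Bool, fl x o.1 ≠ x := by
      intro x h
      have := congrFun h o.1
      rw [fl_self] at this
      simp at this
    unfold push
    rw [← Finset.add_sum_erase _ _ (Finset.mem_univ y), ← Finset.add_sum_erase _ _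
      (Finset.mem_erase.2 ⟨hne y, Finset.mem_univ (fl y o.1)⟩), Finset.sum_eq_zero, add_zero]
    · congr 1
      · simp only [jump]
        split_ifs with h h' <;> first | rfl | exact absurd h' (hne y) | simp_all
      · simp only [jump]
        split_ifs with h h' h' <;>
          first | rfl | exact absurd (fl_fl y o.1) h' | exact absurd h' (hne y)
    · intro x hx
      obtain ⟨hx1, hx2⟩ := Finset.mem_erase.1 hx
      obtain ⟨hx3, -⟩ := Finset.mem_erase.1 hx2
      rw [if_neg]
      simp only [jump]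
      split_ifs
      · intro h
        apply hx1
        rw [← h, fl_fl]
      · exact hx3
  have e2 : ∀ o : Z × Fin R, ∑ y, push (jump c k o) μ y ^ 2 ≤
      ∑ y, μ y ^ 2 * (1 + ((if (o.2 : ℕ) < c k o.1 y then (1 : ℝ) else 0) +
        if (o.2 : ℕ) < c k o.1 (fl y o.1) then (1 : ℝ) else 0)) := by
    intro o
    have h3 : ∀ y, push (jump c k o) μ y ^ 2 ≤
        (μ y ^ 2 * (if (o.2 : ℕ) < c k o.1 y then (0 : ℝ) else 1) +
          μ y ^ 2 * if (o.2 : ℕ) < c k o.1 (fl y o.1) then (1 : ℝ) else 0) +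
        2 * (μ (fl y o.1) ^ 2 * if (o.2 : ℕ) < c k o.1 (fl y o.1) then (1 : ℝ) else 0) := by
      intro y
      rw [e]
      split_ifs <;> nlinarith [sq_nonneg (μ y - μ (fl y o.1)), sq_nonneg (μ y),
        sq_nonneg (μ (fl y o.1))]
    refine (Finset.sum_le_sum fun y _ => h3 y).trans (le_of_eq ?_)
    have hs : ∑ y, 2 * (μ (fl y o.1) ^ 2 *
        if (o.2 : ℕ) < c k o.1 (fl y o.1) then (1 : ℝ) else 0) =
        ∑ y, 2 * (μ y ^ 2 * if (o.2 : ℕ) < c k o.1 y then (1 : ℝ) else 0) :=
      Equiv.sum_comp (fl_invol o.1).toPerm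
        (fun y => 2 * (μ y ^ 2 * if (o.2 : ℕ) < c k o.1 y then (1 : ℝ) else 0))
    rw [Finset.sum_add_distrib, hs, ← Finset.sum_add_distrib]
    apply Finset.sum_congr rfl
    intro y _
    split_ifs <;> ring
  refine (av_mono e2).trans ?_
  rw [av_sum, Finset.mul_sum]
  apply Finset.sum_le_sum
  intro y _
  rw [av_mul, av_add, av_const, av_add, av_prod, av_prod, mul_comm]
  apply mul_le_mul_of_nonneg_right _ (sq_nonneg _)
  simp only [av_lt (hc k _ _)]
  have := h1 k y
  have := h2 k y
  linarith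

theorem jump_stretch (l : ℝ) (hl : 0 < l)
    (h : ∀ k x, ∑ i, ∑ j, (((c k j x : ℝ) / R - c k j (fl x i) / R) / Fintype.card Z) ^ 2 ≤ l ^ 2)
    (T : ℕ) : ∀ k x, ∑ i, av (fun ω : Fin T → Z × Fin R =>
      hd (run (jump c) T k ω x) (run (jump c) T k ω (fl x i))) ^ 2 ≤
        Fintype.card Z * ((1 + l) ^ T) ^ 2 := by
  induction T with
  | zero =>
    intro k x
    simp [run, hd_fl, av_const]
  | succ T ih =>
    intro k x
    set Φ : (Z → Bool) → Z → ℝ := fun x i => av fun ω : Fin T → Z × Fin R =>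
      hd (run (jump c) T (k + 1) ω x) (run (jump c) T (k + 1) ω (fl x i)) with hΦ
    have hΦ1 : ∀ x, ∑ i, Φ x i ^ 2 ≤ Fintype.card Z * ((1 + l) ^ T) ^ 2 := ih (k + 1)
    set Ψ : ℝ := Fintype.card Z * ((1 + l) ^ T) ^ 2 with hΨ
    have hΨ0 : 0 ≤ Ψ := by positivity
    let α : Z → ℝ := fun i => av fun o : Z × Fin R => Φ (jump c k o x) i
    let β : Z → ℝ := fun i => ∑ j, |((c k j x : ℝ) / R - c k j (fl x i) / R) / Fintype.card Z| *
      Φ (fl x i) j
    have h1 : ∀ i, av (fun ω : Fin (T + 1) → Z × Fin R =>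
        hd (run (jump c) (T + 1) k ω x) (run (jump c) (T + 1) k ω (fl x i))) ≤ α i + β i := by
      intro i
      rw [av_cons]
      simp only [run_cons]
      have h2 : ∀ (o : Z × Fin R) (g : (Z → Bool) → (Z → Bool)),
          hd (g (jump c k o x)) (g (jump c k o (fl x i))) ≤
            hd (g (jump c k o x)) (g (fl (jump c k o x) i)) +
            (if ((o.2 : ℕ) < c k o.1 x ↔ (o.2 : ℕ) < c k o.1 (fl x i)) then (0 : ℝ) else 1) *
              hd (g (fl x i)) (g (fl (fl x i) o.1)) := by
        intro o g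
        simp only [jump]
        by_cases a1 : (o.2 : ℕ) < c k o.1 x <;> by_cases a2 : (o.2 : ℕ) < c k o.1 (fl x i) <;>
          simp only [a1, a2, if_true, if_false, iff_true, iff_false, not_true, not_false_iff,
            true_iff, zero_mul, add_zero, one_mul, le_refl]
        · rw [fl_comm]
        · rw [hd_comm (g (fl x i)), fl_comm x i]
          exact hd_tri _ _ _
        · exact hd_tri _ _ _
      have h3 : ∀ o : Z × Fin R, av (fun ω : Fin T → Z × Fin R =>
          hd (run (jump c) T (k + 1) ω (jump c k o x))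
            (run (jump c) T (k + 1) ω (jump c k o (fl x i)))) ≤ Φ (jump c k o x) i +
            (if ((o.2 : ℕ) < c k o.1 x ↔ (o.2 : ℕ) < c k o.1 (fl x i)) then (0 : ℝ) else 1) *
              Φ (fl x i) o.1 := by
        intro o
        refine (av_mono fun ω => h2 o (run (jump c) T (k + 1) ω)).trans ?_
        rw [av_add, av_mul]
      refine (av_mono h3).trans ?_
      rw [av_add]
      apply add_le_add le_rfl
      rw [av_prod]
      simp only [av_mul', av_xor (hc k _ _) (hc k _ _)]
      simp only [av, β, Finset.sum_div]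
      apply le_of_eq
      apply Finset.sum_congr rfl
      intro j _
      rw [abs_div, Nat.abs_cast]
      ring
    have h2 : ∑ i, α i ^ 2 ≤ Ψ := by
      refine (Finset.sum_le_sum fun i _ => av_sq_le _).trans ?_
      rw [← av_sum]
      exact av_le fun o => hΦ1 _
    have h3 : ∑ i, β i ^ 2 ≤ l ^ 2 * Ψ := by
      have h4 : ∀ i, β i ^ 2 ≤
          (∑ j, (((c k j x : ℝ) / R - c k j (fl x i) / R) / Fintype.card Z) ^ 2) * Ψ := by
        intro i
        refine (Finset.sum_mul_sq_le_sq_mul_sq _ _ _).trans ?_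
        simp only [sq_abs]
        exact mul_le_mul_of_nonneg_left (hΦ1 _) (Finset.sum_nonneg fun _ _ => sq_nonneg _)
      refine (Finset.sum_le_sum fun i _ => h4 i).trans ?_
      rw [← Finset.sum_mul]
      exact mul_le_mul_of_nonneg_right (h k x) hΨ0
    have h4 : ∀ i, av (fun ω : Fin (T + 1) → Z × Fin R =>
        hd (run (jump c) (T + 1) k ω x) (run (jump c) (T + 1) k ω (fl x i))) ^ 2 ≤
        (1 + l) * α i ^ 2 + (1 + l) / l * β i ^ 2 := by
      intro i
      have h5 := pow_le_pow_left₀ (av_nonneg fun ω => hd_nonneg _ _) (h1 i) 2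
      refine h5.trans ?_
      have h6 : (1 + l) * α i ^ 2 + (1 + l) / l * β i ^ 2 - (α i + β i) ^ 2 =
          (l * α i - β i) ^ 2 / l := by field_simp; ring
      have h7 : 0 ≤ (l * α i - β i) ^ 2 / l := by positivity
      linarith
    refine (Finset.sum_le_sum fun i _ => h4 i).trans ?_
    rw [Finset.sum_add_distrib, ← Finset.mul_sum, ← Finset.mul_sum]
    have h5 : (1 + l) * ∑ i, α i ^ 2 ≤ (1 + l) * Ψ := mul_le_mul_of_nonneg_left h2 (by linarith)
    have h6 : (1 + l) / l * ∑ i, β i ^ 2 ≤ (1 + l) / l * (l ^ 2 * Ψ) :=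
      mul_le_mul_of_nonneg_left h3 (by positivity)
    have h7 : (1 + l) * Ψ + (1 + l) / l * (l ^ 2 * Ψ) =
        Fintype.card Z * ((1 + l) ^ (T + 1)) ^ 2 := by
      rw [hΨ]; field_simp; ring
    linarith

end jump

end Pool.Agent.H423Z.Str
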