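import Pool.Agent.H423Z.StrC

/-!
# Average stretch, part D: the discretised flow
-/

set_option autoImplicit false
set_option linter.unusedSectionVars false
set_option maxHeartbeats 400000

open Finset

namespace Pool.Agent.H423Z.Str

theorem sum_le_sqrt {ι : Type} [Fintype ι] (a : ι → ℝ) (B : ℝ) (hB : 0 ≤ B)
    (h : ∑ i, a i ^ 2 ≤ B ^ 2) : ∑ i, a i ≤ √(Fintype.card ι) * B := by
  have h1 : (∑ i, a i) ^ 2 ≤ Fintype.card ι * ∑ i, a i ^ 2 := by
    have := sq_sum_le_card_mul_sum_sq (s := (Finset.univ : Finset ι)) (f := a)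
    simpa using this
  have h2 : (√(Fintype.card ι) * B) ^ 2 = Fintype.card ι * B ^ 2 := by
    rw [mul_pow, Real.sq_sqrt (Nat.cast_nonneg _)]
  have h3 : (Fintype.card ι : ℝ) * ∑ i, a i ^ 2 ≤ Fintype.card ι * B ^ 2 :=
    mul_le_mul_of_nonneg_left h (Nat.cast_nonneg _)
  exact (le_abs_self _).trans (abs_le_of_sq_le_sq (by linarith) (by positivity))

theorem pow_le_exp (l : ℝ) (hl : 0 ≤ l) (T : ℕ) : (1 + l) ^ T ≤ Real.exp (T * l) := by
  rw [Real.exp_nat_mul]
  apply pow_le_pow_left₀ (by linarith)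
  linarith [Real.add_one_le_exp l]

theorem flow {Z : Type} [Fintype Z] [DecidableEq Z] [Nonempty Z] (v : Z → (Z → Bool) → ℝ)
    (g : (Z → Bool) → ℝ) (η B : ℝ) (hη : 0 < η) (hη1 : η ≤ 1) (hB : 0 < B)
    (hv : ∀ j x, v j (fl x j) = - v j x) (hg : ∀ x, g x - 1 = ∑ j, v j x)
    (hg1 : ∀ x, η ≤ g x) (hg2 : ∀ x, g x ≤ 2)
    (h1 : ∀ x, ∑ j, v j x ^ 2 ≤ B ^ 2) (h2 : ∀ x, ∑ i, ∑ j, (v j x - v j (fl x i)) ^ 2 ≤ B ^ 2)
    (h3 : ∀ x, ∑ i, (g x - g (fl x i)) ^ 2 ≤ B ^ 2) :
    ∃ T R : ℕ, ∃ G : (Fin T → Z × Fin (R + 1)) → (Z → Bool) → (Z → Bool),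
      av (fun o => av fun z => ∑ i, hd (G o z) (G o (fl z i))) ≤
        Fintype.card Z * Real.exp (2 * (B / η + (B / η) ^ 2 + 1)) ∧
      av (fun o => av fun z => hd (G o z) z) ≤ √(Fintype.card Z) * (B / η) + 1 ∧
      av (fun o => av fun y => mult (G o) y ^ 2) ≤
        Real.exp (2 * (√(Fintype.card Z) * (B / η) + 1)) ∧
      ∀ φ, Lip φ → av (fun o => av fun z => φ (G o z)) ≤ av (fun x => g x * φ x) + 1 := by
  set n : ℝ := (Fintype.card Z : ℝ) with hn
  have hn1 : 1 ≤ n := by rw [hn]; exact_mod_cast Fintype.card_pos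
  set a : ℝ := B / η with ha
  have ha0 : 0 < a := by positivity
  obtain ⟨T, hT, hT0⟩ : ∃ T : ℕ, n * a ≤ T ∧ 0 < T :=
    ⟨⌈n * a⌉₊ + 1, by push_cast; linarith [Nat.le_ceil (n * a)], Nat.succ_pos _⟩
  have hT1 : (0 : ℝ) < T := by exact_mod_cast hT0
  obtain ⟨R, hR⟩ : ∃ R : ℕ, 4 * Fintype.card Z * T = R + 1 :=
    Nat.exists_eq_succ_of_ne_zero (by have := @Fintype.card_pos Z _ _; positivity)
  have hR1 : ((R + 1 : ℕ) : ℝ) = 4 * n * T := by rw [← hR]; push_cast; rfl
  have hR0 : (0 : ℝ) < (R + 1 : ℕ) := by positivity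
  have hR2 : 1 / ((R + 1 : ℕ) : ℝ) ≤ 1 / T := by
    apply one_div_le_one_div_of_le hT1
    rw [hR1]; nlinarith
  let τ : ℕ → ℝ := fun k => ((min k T : ℕ) : ℝ) / T
  have τ0 : ∀ k, 0 ≤ τ k := fun k => by positivity
  have τ1 : ∀ k, τ k ≤ 1 := fun k => by
    rw [div_le_one hT1]; exact_mod_cast min_le_right _ _
  let ρ : ℕ → (Z → Bool) → ℝ := fun k x => 1 + τ k * (g x - 1)
  have ρ1 : ∀ k x, η ≤ ρ k x := fun k x => by
    have := τ0 k; have := τ1 k; have := hg1 x
    simp only [ρ]; nlinarith
  have ρ0 : ∀ k x, 0 < ρ k x := fun k x => hη.trans_le (ρ1 k x)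
  have ρ2 : ∀ k x, ρ k x ≤ 2 := fun k x => by
    have := τ0 k; have := τ1 k; have := hg2 x
    simp only [ρ]; nlinarith
  let q : ℕ → Z → (Z → Bool) → ℝ := fun k j x => max (- v j x) 0 / ρ k x
  have q0 : ∀ k j x, 0 ≤ q k j x := fun k j x => div_nonneg (le_max_right _ _) (ρ0 k x).le
  have q1 : ∀ k j x, q k j x ≤ |v j x| / η := fun k j x =>
    div_le_div₀ (abs_nonneg _) (max_le (neg_le_abs _) (abs_nonneg _)) hη (ρ1 k x)
  have vB : ∀ j x, |v j x| ≤ B := fun j x => by
    apply abs_le_of_sq_le_sq _ hB.le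
    exact (Finset.single_le_sum (f := fun j => v j x ^ 2) (fun _ _ => sq_nonneg _)
      (Finset.mem_univ j)).trans (h1 x)
  have vS : ∀ x, ∑ j, |v j x| / η ≤ √n * a := fun x => by
    rw [← Finset.sum_div, ha, ← mul_div_assoc]
    apply div_le_div_of_nonneg_right _ hη.le
    exact sum_le_sqrt _ B hB.le (by simpa only [sq_abs] using h1 x)
  let c : ℕ → Z → (Z → Bool) → ℕ := fun k j x => ⌈((R + 1 : ℕ) : ℝ) * (n * q k j x / T)⌉₊
  have c1 : ∀ k j x, n * q k j x / T ≤ (c k j x : ℝ) / (R + 1 : ℕ) := fun k j x => by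
    rw [le_div_iff₀' hR0]; exact Nat.le_ceil _
  have c2 : ∀ k j x, (c k j x : ℝ) / (R + 1 : ℕ) ≤ n * q k j x / T + 1 / (R + 1 : ℕ) :=
    fun k j x => by
      rw [div_le_iff₀' hR0, mul_add, mul_one_div_cancel hR0.ne']
      have := q0 k j x
      exact (Nat.ceil_lt_add_one (by positivity)).le
  have hc : ∀ k j x, c k j x ≤ R + 1 := fun k j x => by
    apply Nat.ceil_le.2
    apply mul_le_of_le_one_right hR0.le
    rw [div_le_one hT1]
    refine le_trans (mul_le_mul_of_nonneg_left ((q1 k j x).trans ?_) (by linarith)) hT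
    exact div_le_div_of_nonneg_right (vB j x) hη.le
  set l : ℝ := (√n * a + 1) / T with hl
  have hl0 : 0 ≤ l := by positivity
  have hTl : T * l = √n * a + 1 := by rw [hl]; field_simp
  have key : ∀ (k : ℕ) (y : Z → Z → Bool) (x : Z → Bool), (∀ j, |v j (y j)| = |v j x|) →
      av (fun j => (c k j (y j) : ℝ) / (R + 1 : ℕ)) ≤ l := by
    intro k y x hy
    refine (av_mono fun j => c2 k j (y j)).trans ?_
    rw [av_add, av_const, hl, add_div]
    apply add_le_add _ hR2
    have e : av (fun j => n * q k j (y j) / T) = (∑ j, q k j (y j)) / T := by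
      simp only [av, ← Finset.sum_div, ← Finset.mul_sum]
      rw [← hn]; field_simp
    rw [e]
    apply div_le_div_of_nonneg_right _ hT1.le
    refine le_trans (Finset.sum_le_sum fun j _ => ?_) (vS x)
    rw [← hy j]; exact q1 k j (y j)
  have k1 : ∀ k x, av (fun j => (c k j x : ℝ) / (R + 1 : ℕ)) ≤ l :=
    fun k x => key k (fun _ => x) x fun _ => rfl
  have k2 : ∀ k x, av (fun j => (c k j (fl x j) : ℝ) / (R + 1 : ℕ)) ≤ l :=
    fun k x => key k (fun j => fl x j) x fun j => by rw [hv, abs_neg]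
  refine ⟨T, R, fun ω x => run (jump c) T 0 ω x, ?_, ?_, ?_, ?_⟩
  · set Λ : ℝ := 2 * (a + a ^ 2 + 1) with hΛ
    have hΛ0 : 0 < Λ := by positivity
    have s1 := jump_stretch c hc (Λ / T) (by positivity) (by
      intro k x
      have s2 : ∀ i j, (((c k j x : ℝ) / (R + 1 : ℕ) - c k j (fl x i) / (R + 1 : ℕ)) / n) ^ 2 ≤
          3 / T ^ 2 * ((v j x - v j (fl x i)) ^ 2 / η ^ 2 +
            (g x - g (fl x i)) ^ 2 * v j x ^ 2 / η ^ 4 + 1 / n ^ 2) := by
        intro i j
        set y := fl x i
        set e : ℝ := ((c k j x : ℝ) / (R + 1 : ℕ) - n * q k j x / T) -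
          ((c k j y : ℝ) / (R + 1 : ℕ) - n * q k j y / T) with he
        have e1 : |e| ≤ 1 / T := by
          have := c1 k j x; have := c2 k j x; have := c1 k j y; have := c2 k j y
          rw [abs_le]; constructor <;> linarith
        set A : ℝ := (max (- v j x) 0 - max (- v j y) 0) / ρ k y with hA
        set C : ℝ := max (- v j x) 0 * (ρ k y - ρ k x) / (ρ k x * ρ k y) with hC
        have e2 : ((c k j x : ℝ) / (R + 1 : ℕ) - c k j y / (R + 1 : ℕ)) / n =
            (A + C + T * e / n) / T := by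
          have := (ρ0 k x).ne'
          have := (ρ0 k y).ne'
          rw [he, hA, hC]
          simp only [q]
          field_simp
          ring
        have e3 : A ^ 2 ≤ (v j x - v j y) ^ 2 / η ^ 2 := by
          rw [hA, div_pow]
          apply div_le_div₀ (sq_nonneg _) _ (by positivity) (pow_le_pow_left₀ hη.le (ρ1 k y) 2)
          rw [sq_le_sq]
          refine (abs_max_sub_max_le_abs _ _ _).trans (le_of_eq ?_)
          rw [← abs_neg]; congr 1; ring
        have e4 : C ^ 2 ≤ (g x - g y) ^ 2 * v j x ^ 2 / η ^ 4 := by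
          rw [hC, div_pow]
          apply div_le_div₀ (by positivity) _ (by positivity)
          · rw [show η ^ 4 = (η * η) ^ 2 by ring]
            exact pow_le_pow_left₀ (by positivity)
              (mul_le_mul (ρ1 k x) (ρ1 k y) hη.le (ρ0 k x).le) 2
          · rw [mul_pow, mul_comm]
            apply mul_le_mul _ _ (sq_nonneg _) (sq_nonneg _)
            · have : ρ k y - ρ k x = τ k * (g y - g x) := by simp only [ρ]; ring
              rw [this, mul_pow]
              have t1 : τ k ^ 2 ≤ 1 := pow_le_one₀ (τ0 k) (τ1 k)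
              have t2 : (g y - g x) ^ 2 = (g x - g y) ^ 2 := by ring
              rw [t2]
              exact mul_le_of_le_one_left (sq_nonneg _) t1
            · rw [sq_le_sq, abs_of_nonneg (le_max_right _ _)]
              exact max_le (neg_le_abs _) (abs_nonneg _)
        have e5 : (T * e / n) ^ 2 ≤ 1 / n ^ 2 := by
          rw [div_pow]
          apply div_le_div_of_nonneg_right _ (by positivity)
          rw [sq_le_one_iff_abs_le_one, abs_mul, abs_of_pos hT1, ← le_div_iff₀' hT1]
          exact e1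
        rw [e2, div_pow, div_mul_eq_mul_div]
        apply div_le_div_of_nonneg_right _ (by positivity)
        nlinarith [sq_nonneg (A - C), sq_nonneg (A - T * e / n), sq_nonneg (C - T * e / n)]
      refine (Finset.sum_le_sum fun i _ => Finset.sum_le_sum fun j _ => s2 i j).trans ?_
      simp only [← Finset.mul_sum, Finset.sum_add_distrib, ← Finset.sum_div, ← Finset.sum_mul,
        Finset.sum_const, Finset.card_univ, nsmul_eq_mul]
      rw [← hn, div_pow, div_mul_eq_mul_div]
      apply div_le_div_of_nonneg_right _ (by positivity)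
      have t1 : (∑ i, ∑ j, (v j x - v j (fl x i)) ^ 2) / η ^ 2 ≤ a ^ 2 := by
        rw [ha, div_pow]; exact div_le_div_of_nonneg_right (h2 x) (by positivity)
      have t2 : ((∑ i, (g x - g (fl x i)) ^ 2) * ∑ j, v j x ^ 2) / η ^ 4 ≤ a ^ 4 := by
        rw [ha, div_pow, show B ^ 4 = B ^ 2 * B ^ 2 by ring]
        apply div_le_div_of_nonneg_right _ (by positivity)
        exact mul_le_mul (h3 x) (h1 x) (Finset.sum_nonneg fun _ _ => sq_nonneg _) (sq_nonneg _)
      have t3 : n * (n * 1) / n ^ 2 = 1 := by field_simp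
      have t4 : 3 * (a ^ 2 + a ^ 4 + 1) ≤ Λ ^ 2 := by
        rw [hΛ]
        have : 0 < a ^ 2 := by positivity
        have : 0 < a ^ 3 := by positivity
        have : 0 < a ^ 4 := by positivity
        nlinarith
      rw [t3]
      linarith) T 0
    rw [av_comm]
    apply av_le
    intro x
    rw [av_sum]
    have s2 := sum_le_sqrt _ (√n * (1 + Λ / T) ^ T) (by positivity) ((s1 x).trans (by
      rw [mul_pow, Real.sq_sqrt (by linarith)]))
    refine s2.trans ?_
    rw [← hn, ← mul_assoc, Real.mul_self_sqrt (by linarith)]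
    apply mul_le_mul_of_nonneg_left _ (by linarith)
    refine (pow_le_exp _ (by positivity) T).trans (le_of_eq ?_)
    congr 1
    field_simp
  · rw [av_comm]
    apply av_le
    intro x
    rw [← hTl]
    apply run_disp
    intro k x
    rw [jump_av c hc k x (fun y => hd y x), hd_self, zero_add]
    simp only [hd_comm (fl x _) x, hd_fl, sub_zero, mul_one]
    exact k1 k x
  · have s1 := run_mult (jump c) (2 * l) (by linarith) (jump_mult c hc l k1 k2) T 0 (fun _ => 1)
    have e : ∀ ω : Fin T → Z × Fin (R + 1), av (fun y => mult (fun x => run (jump c) T 0 ω x) y ^ 2)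
        = (1 / Fintype.card (Z → Bool)) * ∑ y, push (run (jump c) T 0 ω) (fun _ => 1) y ^ 2 := by
      intro ω
      rw [one_div_mul_eq_div]
      rfl
    simp only [e]
    rw [av_mul]
    have hN : (0 : ℝ) < Fintype.card (Z → Bool) := by positivity
    refine (mul_le_mul_of_nonneg_left s1 (by positivity)).trans ?_
    simp only [one_pow, Finset.sum_const, Finset.card_univ, nsmul_eq_mul, mul_one]
    rw [mul_comm, mul_assoc, mul_one_div_cancel hN.ne', mul_one]
    refine (pow_le_exp _ (by linarith) T).trans (le_of_eq ?_)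
    rw [← hTl]
    congr 1
    ring
  · have law : ∀ k < T, ∀ φ : (Z → Bool) → ℝ, ∀ b : ℝ, (∀ x, |φ x| ≤ b) →
        av (fun x => ρ k x * av fun o : Z × Fin (R + 1) => φ (jump c k o x)) ≤
          av (fun x => ρ (k + 1) x * φ x) + 4 * b / (R + 1 : ℕ) := by
      intro k hk φ b hφ
      have l1 : ∀ x, ρ k x * av (fun o : Z × Fin (R + 1) => φ (jump c k o x)) ≤
          ρ k x * φ x + ∑ j, max (- v j x) 0 / T * (φ (fl x j) - φ x) + 4 * b / (R + 1 : ℕ) := by
        intro x
        rw [jump_av c hc, mul_add, add_assoc]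
        apply add_le_add le_rfl
        have e : ∑ j, max (- v j x) 0 / T * (φ (fl x j) - φ x) =
            av fun j => ρ k x * (n * q k j x / T * (φ (fl x j) - φ x)) := by
          rw [sum_eq_av, ← av_mul]
          apply av_congr
          intro j
          have := (ρ0 k x).ne'
          simp only [q]
          rw [← hn]
          field_simp
        rw [e, ← av_mul, ← av_const (α := Z) (4 * b / (R + 1 : ℕ)), ← av_add]
        apply av_mono
        intro j
        have m1 := c1 k j x
        have m2 := c2 k j x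
        have m3 := abs_le.1 (hφ x)
        have m4 := abs_le.1 (hφ (fl x j))
        have m5 := ρ0 k x
        have m6 := ρ2 k x
        set e : ℝ := (c k j x : ℝ) / (R + 1 : ℕ) - n * q k j x / T with he
        have m7 : e * (φ (fl x j) - φ x) ≤ 1 / (R + 1 : ℕ) * (2 * b) := by
          refine le_trans (mul_le_mul_of_nonneg_left (show _ ≤ 2 * b by linarith)
            (by linarith)) ?_
          exact mul_le_mul_of_nonneg_right (by linarith) (by linarith)
        have m8 : ρ k x * (e * (φ (fl x j) - φ x)) ≤ 2 * (1 / (R + 1 : ℕ) * (2 * b)) := by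
          refine (mul_le_mul_of_nonneg_left m7 m5.le).trans ?_
          exact mul_le_mul_of_nonneg_right m6 (mul_nonneg (by positivity) (by linarith))
        have m9 : 4 * b / (R + 1 : ℕ) = 2 * (1 / ((R + 1 : ℕ) : ℝ) * (2 * b)) := by ring
        rw [m9]
        have m10 : (c k j x : ℝ) / (R + 1 : ℕ) = e + n * q k j x / T := by rw [he]; ring
        rw [m10]
        nlinarith
      refine (av_mono l1).trans (le_of_eq ?_)
      rw [av_add, av_const, av_add, av_sum]
      congr 1
      have l2 : ∀ j, av (fun x => max (- v j x) 0 / T * (φ (fl x j) - φ x)) =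
          av fun x => v j x / T * φ x := by
        intro j
        simp only [mul_sub]
        rw [av_sub, ← av_invol _ (fl_invol j), ← av_sub]
        apply av_congr
        intro x
        rw [hv, fl_fl, neg_neg, ← sub_mul, ← sub_div, max_zero_sub_max_neg_zero_eq_self]
      simp only [l2]
      rw [← av_sum, ← av_add]
      apply av_congr
      intro x
      rw [← Finset.sum_mul, ← Finset.sum_div, ← hg, ← add_mul]
      congr 1
      simp only [ρ, τ]
      rw [min_eq_left hk.le, min_eq_left (by omega : k + 1 ≤ T)]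
      push_cast
      ring
    have hg0 : av g = 1 := by
      have : ∀ x, g x = 1 + ∑ j, v j x := fun x => by rw [← hg]; ring
      rw [av_congr this, av_add, av_const, av_sum, Finset.sum_eq_zero, add_zero]
      intro j _
      have e := av_invol _ (fl_invol j) (v j)
      simp only [hv] at e
      rw [av_neg] at e
      linarith
    intro φ hφ
    have s1 := run_law (jump c) ρ T n (4 * n / (R + 1 : ℕ)) (fun k hk φ h => law k hk φ n h)
      (fun x => φ x - φ fun _ => false) (fun x => (hφ.abs_le _ _).trans (hd_le _ _)) T 0 (by omega)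
    have e1 : ∀ x, ρ 0 x = 1 := fun x => by simp [ρ, τ]
    have e2 : ∀ x, ρ (0 + T) x = g x := fun x => by
      simp only [ρ, τ, zero_add, min_self, div_self hT1.ne']; ring
    have e3 : T * (4 * n / (R + 1 : ℕ)) = 1 := by rw [hR1]; field_simp
    simp only [e1, e2, e3, one_mul, mul_sub, av_sub, av_const, av_mul', hg0] at s1
    rw [av_comm]
    linarith

end Pool.Agent.H423Z.Str
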