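import Pool.Agent.H423Z.StrD

/-!
# Average stretch, part E: the noise operator and the velocity field
-/

set_option autoImplicit false
set_option linter.unusedSectionVars false
set_option maxHeartbeats 400000

open Finset

namespace Pool.Agent.H423Z.Str

theorem bessel {X ι : Type} [Fintype X] (s : Finset ι) (w : X → ℝ) (hw : ∀ y, 0 ≤ w y)
    (ψ : ι → X → ℝ) (f : X → ℝ) (C F : ℝ) (hC : 0 < C)
    (hG : ∀ a ∈ s, ∑ b ∈ s, |av fun y => w y * ψ a y * ψ b y| ≤ C)
    (hf : av (fun y => w y * f y ^ 2) ≤ F) :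
    ∑ a ∈ s, (av fun y => w y * ψ a y * f y) ^ 2 ≤ C * F := by
  set c : ι → ℝ := fun a => av fun y => w y * ψ a y * f y with hc
  set G : ι → ι → ℝ := fun a b => av fun y => w y * ψ a y * ψ b y with hGd
  have Gs : ∀ a b, G a b = G b a := fun a b => av_congr fun y => by ring
  let u : X → ℝ := fun y => ∑ a ∈ s, c a * ψ a y
  have e1 : av (fun y => w y * u y * f y) = ∑ a ∈ s, c a ^ 2 := by
    have : ∀ y, w y * u y * f y = ∑ a ∈ s, c a * (w y * ψ a y * f y) := by
      intro y
      simp only [u, Finset.mul_sum, Finset.sum_mul]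
      exact Finset.sum_congr rfl fun a _ => by ring
    simp only [this]
    rw [av_sum]
    apply Finset.sum_congr rfl
    intro a _
    rw [av_mul, sq]
  have e2 : av (fun y => w y * u y ^ 2) = ∑ a ∈ s, ∑ b ∈ s, c a * c b * G a b := by
    have : ∀ y, w y * u y ^ 2 = ∑ a ∈ s, ∑ b ∈ s, c a * c b * (w y * ψ a y * ψ b y) := by
      intro y
      simp only [u, sq, Finset.mul_sum, Finset.sum_mul]
      exact Finset.sum_congr rfl fun a _ => Finset.sum_congr rfl fun b _ => by ring
    simp only [this]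
    rw [av_sum]
    apply Finset.sum_congr rfl
    intro a _
    rw [av_sum]
    apply Finset.sum_congr rfl
    intro b _
    rw [av_mul]
  have e3 : ∑ a ∈ s, ∑ b ∈ s, c a * c b * G a b ≤ C * ∑ a ∈ s, c a ^ 2 := by
    have h1 : ∀ a b, c a * c b * G a b ≤ c a ^ 2 / 2 * |G a b| + c b ^ 2 / 2 * |G b a| := by
      intro a b
      rw [Gs b a, ← add_mul]
      refine (le_abs_self _).trans ?_
      rw [abs_mul]
      apply mul_le_mul_of_nonneg_right _ (abs_nonneg _)
      rw [abs_le]
      constructor <;> nlinarith [sq_nonneg (c a - c b), sq_nonneg (c a + c b)]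
    refine (Finset.sum_le_sum fun a _ => Finset.sum_le_sum fun b _ => h1 a b).trans ?_
    simp only [Finset.sum_add_distrib]
    rw [Finset.sum_comm (f := fun a b => c b ^ 2 / 2 * |G b a|), ← Finset.sum_add_distrib,
      Finset.mul_sum]
    apply Finset.sum_le_sum
    intro a ha
    rw [← Finset.mul_sum]
    have h2 : ∑ b ∈ s, |G a b| ≤ C := hG a ha
    nlinarith [sq_nonneg (c a)]
  have e4 : 0 ≤ av fun y => w y * (C * f y - u y) ^ 2 :=
    av_nonneg fun y => mul_nonneg (hw y) (sq_nonneg _)
  have e5 : ∀ y, w y * (C * f y - u y) ^ 2 =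
      C ^ 2 * (w y * f y ^ 2) - (2 * C) * (w y * u y * f y) + w y * u y ^ 2 := fun y => by ring
  simp only [e5, av_add, av_sub, av_mul, e1, e2] at e4
  have e6 : C ^ 2 * av (fun y => w y * f y ^ 2) ≤ C ^ 2 * F :=
    mul_le_mul_of_nonneg_left hf (sq_nonneg _)
  have e7 : C * ∑ a ∈ s, c a ^ 2 ≤ C * (C * F) := by nlinarith
  exact le_of_mul_le_mul_left e7 hC

theorem av_hasDeriv {X : Type} [Fintype X] (F : ℝ → X → ℝ) (F' : X → ℝ) (t : ℝ)
    (h : ∀ x, HasDerivAt (fun r => F r x) (F' x) t) :
    HasDerivAt (fun r => av (F r)) (av F') t :=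
  (HasDerivAt.fun_sum fun x _ => h x).div_const _

theorem av_cont {X : Type} [Fintype X] (F : ℝ → X → ℝ) (h : ∀ x, Continuous fun r => F r x) :
    Continuous fun r => av (F r) :=
  (continuous_finsetSum _ fun x _ => h x).div_const _

theorem int_sq {ι : Type} (s : Finset ι) (a : ι → ℝ → ℝ) (ha : ∀ i, Continuous (a i))
    (t C : ℝ) (ht0 : 0 ≤ t) (ht1 : t ≤ 1) (hC : 0 ≤ C)
    (h : ∀ r ∈ Set.Icc 0 t, ∑ i ∈ s, a i r ^ 2 ≤ C) :
    ∑ i ∈ s, (∫ r in (0 : ℝ)..t, a i r) ^ 2 ≤ C := by
  set I : ι → ℝ := fun i => ∫ r in (0 : ℝ)..t, a i r with hI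
  have e1 : ∑ i ∈ s, I i ^ 2 = ∫ r in (0 : ℝ)..t, ∑ i ∈ s, I i * a i r := by
    rw [intervalIntegral.integral_finsetSum]
    · apply Finset.sum_congr rfl
      intro i _
      rw [intervalIntegral.integral_const_mul, sq]
    · intro i _
      exact (continuous_const.mul (ha i)).intervalIntegrable _ _
  have e2 : ∫ r in (0 : ℝ)..t, ∑ i ∈ s, I i * a i r ≤
      ∫ _r in (0 : ℝ)..t, ((∑ i ∈ s, I i ^ 2) / 2 + C / 2) := by
    apply intervalIntegral.integral_mono_on ht0
    · exact (continuous_finsetSum _ fun i _ => continuous_const.mul (ha i)).intervalIntegrable _ _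
    · exact continuous_const.intervalIntegrable _ _
    · intro r hr
      have h1 := h r hr
      have h2 : ∑ i ∈ s, I i * a i r ≤ ∑ i ∈ s, (I i ^ 2 / 2 + a i r ^ 2 / 2) :=
        Finset.sum_le_sum fun i _ => by nlinarith [sq_nonneg (I i - a i r)]
      rw [Finset.sum_add_distrib, ← Finset.sum_div, ← Finset.sum_div] at h2
      linarith
  rw [intervalIntegral.integral_const, sub_zero, smul_eq_mul] at e2
  have e3 : 0 ≤ ∑ i ∈ s, I i ^ 2 := Finset.sum_nonneg fun _ _ => sq_nonneg _
  show ∑ i ∈ s, I i ^ 2 ≤ C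
  nlinarith

section noise
variable {κ : Type} [Fintype κ] [DecidableEq κ]

theorem av_prod_pi (a : κ → Bool → ℝ) :
    av (fun y : κ → Bool => ∏ i, a i (y i)) = ∏ i, (a i true + a i false) / 2 := by
  rw [Finset.prod_div_distrib]
  simp only [av]
  congr 1
  · have := Finset.prod_univ_sum (fun _ : κ => (Finset.univ : Finset Bool)) a
    rw [Fintype.piFinset_univ] at this
    rw [← this]
    simp
  · simp

/-- sign of agreement -/
def sg (s t : Bool) : ℝ := if s = t then 1 else -1

theorem sg_not (s t : Bool) : sg (!s) t = - sg s t := by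
  cases s <;> cases t <;> simp [sg]

/-- the noise operator (`S = ∅`) and its derivatives -/
noncomputable def D (S : Finset κ) (r : ℝ) (f : (κ → Bool) → ℝ) (x : κ → Bool) : ℝ :=
  av fun y => (∏ i, if i ∈ S then sg (x i) (y i) else 1 + r * sg (x i) (y i)) * f y

theorem D_split (S : Finset κ) (r : ℝ) (f : (κ → Bool) → ℝ) (x : κ → Bool) (j : κ) :
    D S r f x = av fun y => (if j ∈ S then sg (x j) (y j) else 1 + r * sg (x j) (y j)) *
      ((∏ i ∈ Finset.univ.erase j, if i ∈ S then sg (x i) (y i) else 1 + r * sg (x i) (y i)) *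
        f y) := by
  apply av_congr
  intro y
  rw [← Finset.mul_prod_erase _ _ (Finset.mem_univ j), mul_assoc]

theorem prod_fl (S : Finset κ) (r : ℝ) (x y : κ → Bool) (j : κ) :
    (∏ i ∈ Finset.univ.erase j, if i ∈ S then sg (fl x j i) (y i) else 1 + r * sg (fl x j i) (y i))
      = ∏ i ∈ Finset.univ.erase j, if i ∈ S then sg (x i) (y i) else 1 + r * sg (x i) (y i) := by
  apply Finset.prod_congr rfl
  intro i hi
  rw [fl_ne _ (Finset.mem_erase.1 hi).1]

theorem D_fl_mem {S : Finset κ} {j : κ} (h : j ∈ S) (r : ℝ) (f : (κ → Bool) → ℝ) (x : κ → Bool) :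
    D S r f (fl x j) = - D S r f x := by
  rw [D_split S r f x j, D_split S r f (fl x j) j, ← av_neg]
  apply av_congr
  intro y
  rw [prod_fl, if_pos h, if_pos h, fl_self, sg_not]
  ring

theorem D_fl_not {S : Finset κ} {j : κ} (h : j ∉ S) (r : ℝ) (f : (κ → Bool) → ℝ) (x : κ → Bool) :
    D S r f x - D S r f (fl x j) = 2 * r * D (insert j S) r f x := by
  rw [D_split S r f x j, D_split S r f (fl x j) j, D_split (insert j S) r f x j, ← av_sub, ← av_mul]
  apply av_congr
  intro y
  have e : (∏ i ∈ Finset.univ.erase j,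
      if i ∈ insert j S then sg (x i) (y i) else 1 + r * sg (x i) (y i))
      = ∏ i ∈ Finset.univ.erase j, if i ∈ S then sg (x i) (y i) else 1 + r * sg (x i) (y i) := by
    apply Finset.prod_congr rfl
    intro i hi
    simp [(Finset.mem_erase.1 hi).1]
  rw [prod_fl, e, if_neg h, if_neg h, if_pos (Finset.mem_insert_self j S), fl_self, sg_not]
  ring

theorem D_cont (S : Finset κ) (f : (κ → Bool) → ℝ) (x : κ → Bool) :
    Continuous fun r => D S r f x := by
  apply av_cont
  intro y
  apply Continuous.mul _ continuous_const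
  apply continuous_finsetProd
  intro i _
  split_ifs <;> fun_prop

theorem D_deriv (f : (κ → Bool) → ℝ) (x : κ → Bool) (t : ℝ) :
    HasDerivAt (fun r => D ∅ r f x) (∑ j, D {j} t f x) t := by
  have e : ∑ j, D {j} t f x = av fun y => (∑ j, (∏ i ∈ Finset.univ.erase j,
      (1 + t * sg (x i) (y i))) • sg (x j) (y j)) * f y := by
    simp only [Finset.sum_mul]
    rw [av_sum]
    apply Finset.sum_congr rfl
    intro j _
    rw [D_split _ _ _ _ j]
    apply av_congr
    intro y
    have : (∏ i ∈ Finset.univ.erase j,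
        if i ∈ ({j} : Finset κ) then sg (x i) (y i) else 1 + t * sg (x i) (y i)) =
        ∏ i ∈ Finset.univ.erase j, (1 + t * sg (x i) (y i)) := by
      apply Finset.prod_congr rfl
      intro i hi
      simp [(Finset.mem_erase.1 hi).1]
    rw [this, if_pos (Finset.mem_singleton_self j), smul_eq_mul]
    ring
  rw [e]
  apply av_hasDeriv
  intro y
  apply HasDerivAt.mul_const
  simp only [Finset.notMem_empty, if_false]
  apply HasDerivAt.fun_finsetProd
  intro i _
  simpa using ((hasDerivAt_id t).mul_const (sg (x i) (y i))).const_add 1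

theorem D_zero (f : (κ → Bool) → ℝ) (x : κ → Bool) : D ∅ 0 f x = av f := by
  simp [D]

theorem D_one (f : (κ → Bool) → ℝ) (x : κ → Bool) : D ∅ 1 f x = f x := by
  simp only [D, av, Finset.notMem_empty, if_false, one_mul]
  rw [Finset.sum_eq_single x]
  · simp only [sg, if_true]
    norm_num
  · intro y _ hy
    obtain ⟨i, hi⟩ := Function.ne_iff.1 hy
    rw [Finset.prod_eq_zero (Finset.mem_univ i), zero_mul]
    simp [sg, hi.symm]
  · simp

theorem wt_nonneg {r : ℝ} (h0 : 0 ≤ r) (h1 : r ≤ 1) (x y : κ → Bool) :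
    0 ≤ ∏ i, (1 + r * sg (x i) (y i)) := by
  apply Finset.prod_nonneg
  intro i _
  unfold sg
  split_ifs <;> linarith

theorem wt_av (r : ℝ) (x : κ → Bool) : av (fun y : κ → Bool => ∏ i, (1 + r * sg (x i) (y i))) = 1 := by
  rw [av_prod_pi fun i b => 1 + r * sg (x i) b]
  apply Finset.prod_eq_one
  intro i _
  cases x i <;> simp only [sg] <;> norm_num <;> ring

theorem D_nonneg {r : ℝ} (h0 : 0 ≤ r) (h1 : r ≤ 1) {f : (κ → Bool) → ℝ} (hf : ∀ y, 0 ≤ f y)
    (x : κ → Bool) : 0 ≤ D ∅ r f x := by
  simp only [D, Finset.notMem_empty, if_false]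
  exact av_nonneg fun y => mul_nonneg (wt_nonneg h0 h1 x y) (hf y)

theorem D_le {r : ℝ} (h0 : 0 ≤ r) (h1 : r ≤ 1) {f : (κ → Bool) → ℝ} (hf : ∀ y, f y ≤ 2)
    (x : κ → Bool) : D ∅ r f x ≤ 2 := by
  simp only [D, Finset.notMem_empty, if_false]
  refine (av_mono fun y => mul_le_mul_of_nonneg_left (hf y) (wt_nonneg h0 h1 x y)).trans ?_
  rw [av_mul', wt_av, one_mul]

theorem D_bessel {ι : Type} (s : Finset ι) (S : ι → Finset κ) (d m : ℕ)
    (hd : ∀ a ∈ s, (S a).card = d) (hm : ∀ a ∈ s, (s.filter fun b => S a = S b).card ≤ m)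
    (hm0 : 0 < m) {r : ℝ} (h0 : 0 ≤ r) (h1 : r < 1) {f : (κ → Bool) → ℝ} (hf : ∀ y, |f y| ≤ 2)
    (x : κ → Bool) : ∑ a ∈ s, D (S a) r f x ^ 2 ≤ m * (1 / (1 - r ^ 2)) ^ d * 4 := by
  have hr : 0 < 1 - r ^ 2 := by nlinarith
  have hp : ∀ s t, 0 < 1 + r * sg s t := by
    intro s t
    unfold sg
    split_ifs <;> linarith
  let ψ : ι → (κ → Bool) → ℝ := fun a y =>
    ∏ i, if i ∈ S a then sg (x i) (y i) / (1 + r * sg (x i) (y i)) else 1
  have h := bessel s (fun y => ∏ i, (1 + r * sg (x i) (y i))) (wt_nonneg h0 h1.le x) ψ f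
    (m * (1 / (1 - r ^ 2)) ^ d) 4 (by positivity) (by
      intro a ha
      have e : ∀ b, av (fun y => (∏ i, (1 + r * sg (x i) (y i))) * ψ a y * ψ b y) =
          if S a = S b then (1 / (1 - r ^ 2)) ^ d else 0 := by
        intro b
        simp only [ψ, ← Finset.prod_mul_distrib]
        rw [av_prod_pi fun i t => (1 + r * sg (x i) t) *
          (if i ∈ S a then sg (x i) t / (1 + r * sg (x i) t) else 1) *
          (if i ∈ S b then sg (x i) t / (1 + r * sg (x i) t) else 1)]
        have p1 : (1 + r) ≠ 0 := by linarith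
        have p2 : (1 - r) ≠ 0 := by linarith
        have p3 : (1 + -r) ≠ 0 := by linarith
        split_ifs with hab
        · rw [← hab, ← hd a ha, ← Finset.prod_const, ← Finset.prod_ite_mem_eq (S a)]
          apply Finset.prod_congr rfl
          intro i _
          have p4 : 1 - r ^ 2 = (1 + r) * (1 + -r) := by ring
          rw [p4]
          split_ifs
          · cases x i <;> simp only [sg] <;> norm_num <;> field_simp <;> ring
          · cases x i <;> simp only [sg] <;> norm_num <;> ring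
        · obtain ⟨i, hi⟩ : ∃ i, ¬ (i ∈ S a ↔ i ∈ S b) := by
            by_contra h
            push Not at h
            exact hab (Finset.ext h)
          apply Finset.prod_eq_zero (Finset.mem_univ i)
          by_cases q1 : i ∈ S a <;> by_cases q2 : i ∈ S b
          · exact absurd (iff_of_true q1 q2) hi
          · rw [if_pos q1, if_pos q1, if_neg q2, if_neg q2, mul_one, mul_one,
              mul_div_cancel₀ _ (hp _ _).ne', mul_div_cancel₀ _ (hp _ _).ne']
            cases x i <;> simp [sg]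
          · rw [if_pos q2, if_pos q2, if_neg q1, if_neg q1, mul_one, mul_one,
              mul_div_cancel₀ _ (hp _ _).ne', mul_div_cancel₀ _ (hp _ _).ne']
            cases x i <;> simp [sg]
          · exact absurd (iff_of_false q1 q2) hi
      simp only [e]
      have e2 : ∀ b, |if S a = S b then (1 / (1 - r ^ 2)) ^ d else 0| =
          if S a = S b then (1 / (1 - r ^ 2)) ^ d else 0 := by
        intro b
        apply abs_of_nonneg
        split_ifs <;> positivity
      simp only [e2]
      rw [← Finset.sum_filter, Finset.sum_const, nsmul_eq_mul]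
      apply mul_le_mul_of_nonneg_right _ (by positivity)
      exact_mod_cast hm a ha) (by
      refine (av_mono fun y => mul_le_mul_of_nonneg_left (show f y ^ 2 ≤ 4 from ?_)
        (wt_nonneg h0 h1.le x y)).trans ?_
      · have := abs_le.1 (hf y)
        nlinarith
      · rw [av_mul', wt_av, one_mul])
  refine le_trans (le_of_eq ?_) h
  apply Finset.sum_congr rfl
  intro a _
  congr 1
  apply av_congr
  intro y
  congr 1
  simp only [ψ, ← Finset.prod_mul_distrib]
  apply Finset.prod_congr rfl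
  intro i _
  split_ifs
  · rw [mul_div_cancel₀ _ (hp _ _).ne']
  · rw [mul_one]

theorem D_one_sq {r : ℝ} (h0 : 0 ≤ r) (h1 : r < 1) {f : (κ → Bool) → ℝ} (hf : ∀ y, |f y| ≤ 2)
    (x : κ → Bool) : ∑ j, D {j} r f x ^ 2 ≤ 4 * (1 / (1 - r ^ 2)) := by
  have := D_bessel Finset.univ (fun j : κ => {j}) 1 1 (by simp) (by
    intro a _
    rw [Finset.card_le_one]
    intro b hb c hc
    simp only [Finset.mem_filter, Finset.singleton_inj] at hb hc
    rw [← hb.2, ← hc.2]) one_pos h0 h1 hf x
  simpa [mul_comm] using this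

theorem D_two_sq {r : ℝ} (h0 : 0 ≤ r) (h1 : r < 1) {f : (κ → Bool) → ℝ} (hf : ∀ y, |f y| ≤ 2)
    (x : κ → Bool) : ∑ p : κ × κ, (D {p.2} r f x - D {p.2} r f (fl x p.1)) ^ 2 ≤
      48 * (1 / (1 - r ^ 2)) ^ 2 := by
  have hr : 0 < 1 - r ^ 2 := by nlinarith
  have hN : 1 ≤ 1 / (1 - r ^ 2) := by
    rw [le_div_iff₀ hr]; nlinarith
  have b2 := D_bessel (Finset.univ.filter fun p : κ × κ => p.1 ≠ p.2)
    (fun p => insert p.1 {p.2}) 2 2 (by
      intro p hp
      exact Finset.card_pair (Finset.mem_filter.1 hp).2) (by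
      intro p hp
      refine le_trans (Finset.card_le_card (t := {p, p.swap}) ?_) Finset.card_le_two
      intro q hq
      simp only [Finset.mem_filter, Finset.mem_univ, true_and] at hq hp
      obtain ⟨q1, q2⟩ := hq
      have a1 : q.1 ∈ (insert p.1 {p.2} : Finset κ) := by rw [q2]; simp
      have a2 : q.2 ∈ (insert p.1 {p.2} : Finset κ) := by rw [q2]; simp
      simp only [Finset.mem_insert, Finset.mem_singleton] at a1 a2 ⊢
      rcases a1 with a1 | a1 <;> rcases a2 with a2 | a2
      · exact absurd (a1.trans a2.symm) q1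
      · left; exact Prod.ext a1 a2
      · right; exact Prod.ext a1 a2
      · exact absurd (a1.trans a2.symm) q1) two_pos h0 h1 hf x
  have b1 := D_one_sq h0 h1 hf x
  rw [← Finset.sum_filter_add_sum_filter_not Finset.univ fun p : κ × κ => p.1 ≠ p.2]
  have c1 : ∑ p ∈ Finset.univ.filter (fun p : κ × κ => p.1 ≠ p.2),
      (D {p.2} r f x - D {p.2} r f (fl x p.1)) ^ 2 ≤
      ∑ p ∈ Finset.univ.filter (fun p : κ × κ => p.1 ≠ p.2), 4 * D (insert p.1 {p.2}) r f x ^ 2 := by
    apply Finset.sum_le_sum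
    intro p hp
    rw [D_fl_not (by simpa using (Finset.mem_filter.1 hp).2), mul_pow]
    apply mul_le_mul_of_nonneg_right _ (sq_nonneg _)
    nlinarith
  have c2 : ∑ p ∈ Finset.univ.filter (fun p : κ × κ => ¬ p.1 ≠ p.2),
      (D {p.2} r f x - D {p.2} r f (fl x p.1)) ^ 2 = ∑ j, 4 * D {j} r f x ^ 2 := by
    rw [Finset.sum_filter, Fintype.sum_prod_type]
    apply Finset.sum_congr rfl
    intro j _
    simp only [not_not, Finset.sum_ite_eq, Finset.mem_univ, if_true]
    rw [D_fl_mem (Finset.mem_singleton_self j)]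
    ring
  rw [c2]
  rw [← Finset.mul_sum] at c1 ⊢
  push_cast at b2
  nlinarith

theorem noise_lip {f h : (κ → Bool) → ℝ} (hf : ∀ y, |f y| ≤ 2) (hh : Lip h) {t : ℝ}
    (h0 : 0 ≤ t) (h1 : t ≤ 1) :
    av (fun x => h x * f x) ≤ av (fun x => h x * D ∅ t f x) + 2 * √(Fintype.card κ) * √(1 - t) := by
  set n : ℝ := (Fintype.card κ : ℝ) with hn
  let F : ℝ → ℝ := fun r => av (fun x => h x * D ∅ r f x) + 2 * √n * √(1 - r)
  have hd : ∀ r, r < 1 → HasDerivAt F
      (av (fun x => h x * ∑ j, D {j} r f x) + 2 * √n * (-1 / (2 * √(1 - r)))) r := by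
    intro r hr
    apply HasDerivAt.add
    · exact av_hasDeriv _ _ _ fun x => (D_deriv f x r).const_mul _
    · apply HasDerivAt.const_mul
      exact ((hasDerivAt_id r).const_sub 1).sqrt (by simp only [id]; linarith)
  have hA : AntitoneOn F (Set.Icc t 1) := by
    apply antitoneOn_of_deriv_nonpos (convex_Icc t 1)
    · apply Continuous.continuousOn
      exact (av_cont _ fun x => continuous_const.mul (D_cont _ f x)).add (by fun_prop)
    · intro r hr
      rw [interior_Icc] at hr
      exact (hd r hr.2).differentiableAt.differentiableWithinAt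
    · intro r hr
      rw [interior_Icc] at hr
      rw [(hd r hr.2).deriv]
      have r0 : 0 ≤ r := h0.trans hr.1.le
      have s0 : 0 < √(1 - r) := Real.sqrt_pos.2 (by linarith [hr.2])
      have e1 : ∀ j, av (fun x => h x * D {j} r f x) ≤ av fun x => 1 / 2 * |D {j} r f x| := by
        intro j
        have e2 := av_invol _ (fl_invol j) fun x => h x * D {j} r f x
        simp only [D_fl_mem (Finset.mem_singleton_self j)] at e2
        have e3 : av (fun x => h x * D {j} r f x) =
            av fun x => 1 / 2 * (h x * D {j} r f x + h (fl x j) * - D {j} r f x) := by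
          rw [av_mul, av_add, e2]; ring
        rw [e3]
        apply av_mono
        intro x
        apply mul_le_mul_of_nonneg_left _ (by norm_num)
        have e4 := hh.abs_le x (fl x j)
        rw [hd_fl] at e4
        rw [show h x * D {j} r f x + h (fl x j) * - D {j} r f x =
          (h x - h (fl x j)) * D {j} r f x by ring]
        refine (le_abs_self _).trans ?_
        rw [abs_mul]
        exact mul_le_of_le_one_left (abs_nonneg _) e4
      have e2 : av (fun x => h x * ∑ j, D {j} r f x) ≤ 1 / 2 * (√n * (2 / √(1 - r))) := by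
        simp only [Finset.mul_sum]
        rw [av_sum]
        refine (Finset.sum_le_sum fun j _ => e1 j).trans ?_
        rw [← av_sum]
        apply av_le
        intro x
        rw [← Finset.mul_sum]
        apply mul_le_mul_of_nonneg_left _ (by norm_num)
        apply sum_le_sqrt _ _ (by positivity)
        simp only [sq_abs]
        refine (D_one_sq r0 hr.2 hf x).trans ?_
        rw [div_pow, Real.sq_sqrt (by linarith [hr.2]), mul_one_div]
        apply div_le_div₀ (by norm_num) (by norm_num) (by linarith [hr.2])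
        nlinarith [hr.2]
      have e3 : 1 / 2 * (√n * (2 / √(1 - r))) + 2 * √n * (-1 / (2 * √(1 - r))) = 0 := by
        field_simp; ring
      linarith
  have := hA ⟨le_rfl, h1⟩ ⟨h1, le_rfl⟩ h1
  simpa [F, D_one] using this

end noise

end Pool.Agent.H423Z.Str
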