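import Pool.Agent.H423Z.StrE

/-!
# Average stretch, part F: every set of density one half
-/

set_option autoImplicit false
set_option linter.unusedSectionVars false
set_option maxHeartbeats 400000

open Finset

namespace Pool.Agent.H423Z.Str

theorem moser (δ : ℝ) (h0 : 0 < δ) (h1 : δ ≤ 1) : ∃ a : ℝ, 0 < a ∧
    ∀ (Z : Type) [Fintype Z] [DecidableEq Z] [Nonempty Z] (f : (Z → Bool) → ℝ),
      (∀ y, 0 ≤ f y) → (∀ y, f y ≤ 2) → av f = 1 →
    ∃ T R : ℕ, ∃ G : (Fin T → Z × Fin (R + 1)) → (Z → Bool) → (Z → Bool),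
      av (fun o => av fun z => ∑ i, hd (G o z) (G o (fl z i))) ≤
        Fintype.card Z * Real.exp (2 * (a + a ^ 2 + 1)) ∧
      av (fun o => av fun z => hd (G o z) z) ≤ √(Fintype.card Z) * a + 1 ∧
      av (fun o => av fun y => mult (G o) y ^ 2) ≤ Real.exp (2 * (√(Fintype.card Z) * a + 1)) ∧
      ∀ φ, Lip φ → av (fun o => av fun z => φ (G o z)) ≤
        av (fun x => φ x * f x) + (4 * δ * √(Fintype.card Z) + 1) := by
  set t : ℝ := 1 - δ ^ 2 with ht
  have t0 : 0 ≤ t := by rw [ht]; nlinarith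
  have t1 : t < 1 := by rw [ht]; nlinarith
  have t2 : 0 < 1 - t ^ 2 := by nlinarith
  set N : ℝ := 1 / (1 - t ^ 2) with hN
  have N1 : 1 ≤ N := by rw [hN, le_div_iff₀ t2]; nlinarith
  have N2 : ∀ r ∈ Set.Icc 0 t, 1 / (1 - r ^ 2) ≤ N := by
    intro r hr
    apply one_div_le_one_div_of_le t2
    nlinarith [hr.1, hr.2]
  refine ⟨7 * N / δ, by positivity, ?_⟩
  intro Z _ _ _ f f0 f2 f1
  have hf : ∀ y, |f y| ≤ 2 := fun y => by rw [abs_of_nonneg (f0 y)]; exact f2 y
  have d0 : 0 ≤ 1 - δ := by linarith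
  have d1 : (1 - δ) ^ 2 ≤ 1 := by nlinarith
  obtain ⟨T, R, G, g1, g2, g3, g4⟩ := flow
    (fun j x => (1 - δ) * ∫ r in (0 : ℝ)..t, D {j} r f x) (fun x => (1 - δ) * D ∅ t f x + δ)
    δ (7 * N) h0 h1 (by positivity)
    (by
      intro j x
      simp only [D_fl_mem (Finset.mem_singleton_self j), intervalIntegral.integral_neg]
      ring)
    (by
      intro x
      rw [← Finset.mul_sum, ← intervalIntegral.integral_finsetSum
        (fun j _ => (D_cont _ f x).intervalIntegrable _ _),
        intervalIntegral.integral_eq_sub_of_hasDerivAt (fun r _ => D_deriv f x r)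
          ((continuous_finsetSum _ fun j _ => D_cont _ f x).intervalIntegrable _ _), D_zero, f1]
      ring)
    (by
      intro x
      have := mul_nonneg d0 (D_nonneg t0 t1.le f0 x)
      linarith)
    (by
      intro x
      have := mul_le_mul_of_nonneg_left (D_le t0 t1.le f2 x) d0
      linarith)
    (by
      intro x
      simp only [mul_pow]
      rw [← Finset.mul_sum]
      have := int_sq Finset.univ (fun j r => D {j} r f x) (fun j => D_cont _ f x) t (4 * N) t0
        t1.le (by positivity) (by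
          intro r hr
          have := D_one_sq hr.1 (hr.2.trans_lt t1) hf x
          have := N2 r hr
          linarith)
      refine (mul_le_of_le_one_left (Finset.sum_nonneg fun _ _ => sq_nonneg _) d1).trans ?_
      nlinarith)
    (by
      intro x
      have := int_sq Finset.univ (fun (p : Z × Z) r => D {p.2} r f x - D {p.2} r f (fl x p.1))
        (fun p => (D_cont _ f x).sub (D_cont _ f _)) t (48 * N ^ 2) t0
        t1.le (by positivity) (by
          intro r hr
          have r1 := hr.2.trans_lt t1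
          have := D_two_sq hr.1 r1 hf x
          have := pow_le_pow_left₀ (one_div_nonneg.2 (by nlinarith [hr.1])) (N2 r hr) 2
          linarith)
      rw [Fintype.sum_prod_type] at this
      simp only [← mul_sub, mul_pow, ← Finset.mul_sum, ← intervalIntegral.integral_sub
        ((D_cont _ f _).intervalIntegrable _ _) ((D_cont _ f _).intervalIntegrable _ _)]
      refine (mul_le_of_le_one_left (Finset.sum_nonneg fun _ _ =>
        Finset.sum_nonneg fun _ _ => sq_nonneg _) d1).trans ?_
      nlinarith)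
    (by
      intro x
      have e : ∀ i, ((1 - δ) * D ∅ t f x + δ - ((1 - δ) * D ∅ t f (fl x i) + δ)) ^ 2 =
          ((1 - δ) ^ 2 * t ^ 2) * (4 * D {i} t f x ^ 2) := by
        intro i
        have := D_fl_not (Finset.notMem_empty i) t f x
        rw [show (1 - δ) * D ∅ t f x + δ - ((1 - δ) * D ∅ t f (fl x i) + δ) =
          (1 - δ) * (D ∅ t f x - D ∅ t f (fl x i)) by ring, this]
        simp only [insert_empty_eq]
        ring
      simp only [e]
      rw [← Finset.mul_sum, ← Finset.mul_sum]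
      have := D_one_sq t0 t1 hf x
      refine (mul_le_of_le_one_left (mul_nonneg (by norm_num)
        (Finset.sum_nonneg fun _ _ => sq_nonneg _)) (by nlinarith)).trans ?_
      nlinarith)
  refine ⟨T, R, G, g1, g2, g3, fun φ hφ => (g4 φ hφ).trans ?_⟩
  have a1 := noise_lip hf hφ.neg t0 t1.le
  have a2 := noise_lip hf hφ.neg le_rfl zero_le_one
  have e : √(1 - t) = δ := by rw [ht, sub_sub_cancel, Real.sqrt_sq h0.le]
  simp only [D_zero, f1, sub_zero, Real.sqrt_one, mul_one, neg_mul, av_neg, e] at a1 a2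
  have e2 : ∀ x, ((1 - δ) * D ∅ t f x + δ) * φ x = (1 - δ) * (φ x * D ∅ t f x) + δ * φ x :=
    fun x => by ring
  simp only [e2, av_add, av_mul]
  have s0 : 0 ≤ √(Fintype.card Z : ℝ) := Real.sqrt_nonneg _
  have a3 := mul_le_mul_of_nonneg_left a1 d0
  have a4 := mul_le_mul_of_nonneg_left a2 h0.le
  have a5 : 0 ≤ δ ^ 2 * √(Fintype.card Z : ℝ) := by positivity
  nlinarith

section marg
variable {U Z E : Type} [Fintype U] [DecidableEq U] [Fintype Z] [DecidableEq Z]
  [Fintype E] [DecidableEq E]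

/-- insert the middle block -/
def cmb (w : U ⊕ E → Bool) (y : Z → Bool) : U ⊕ Z ⊕ E → Bool :=
  Sum.elim (fun i => w (Sum.inl i)) (Sum.elim y fun i => w (Sum.inr i))

theorem av_cmb (F : (U ⊕ Z ⊕ E → Bool) → ℝ) : av F = av fun y => av fun w => F (cmb w y) := by
  rw [av_elim]
  simp only [av_elim (U := Z) (V := E), av_elim (U := U) (V := E)]
  rw [av_comm]
  rfl

theorem hd_cmb (w w' : U ⊕ E → Bool) (y : Z → Bool) : hd (cmb w y) (cmb w' y) = hd w w' := by
  simp only [cmb, hd_elim, hd_self, zero_add]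
  rw [hd_eq w w', Fintype.sum_sum_type, hd_eq, hd_eq]

theorem marg (F h : (U ⊕ Z ⊕ E → Bool) → ℝ) (F0 : ∀ x, 0 ≤ F x) (F2 : ∀ x, F x ≤ 2)
    (hh : Lip h) :
    av (fun u => av fun y => h (emb E u y) * av fun w => F (cmb w y)) ≤
      av (fun x => h x * F x) + (2 * Fintype.card E + 2 * √(Fintype.card (U ⊕ E))) := by
  rw [av_comm, av_cmb, ← av_const (α := Z → Bool)
    (2 * Fintype.card E + 2 * √(Fintype.card (U ⊕ E))), ← av_add]
  apply av_mono
  intro y
  have l1 : Lip fun w : U ⊕ E → Bool => h (cmb w y) := by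
    intro w w'
    rw [← hd_cmb w w' y]
    exact hh _ _
  have a2 := noise_lip (f := fun w => F (cmb w y))
    (fun w => by rw [abs_of_nonneg (F0 _)]; exact F2 _) l1.neg le_rfl zero_le_one
  simp only [D_zero, sub_zero, Real.sqrt_one, mul_one, neg_mul, av_neg, av_mul'] at a2
  have a3 : av (fun u => h (emb E u y)) ≤ av (fun w => h (cmb w y)) + Fintype.card E := by
    rw [av_elim (U := U) (V := E), ← av_const (α := U → Bool) (Fintype.card E : ℝ), ← av_add]
    apply av_mono
    intro u
    rw [← av_const (α := E → Bool) (Fintype.card E : ℝ), ← av_add,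
      ← av_const (α := E → Bool) (h (emb E u y))]
    apply av_mono
    intro e
    have := hh (emb E u y) (cmb (Sum.elim u e) y)
    have e1 : hd (emb E u y) (cmb (Sum.elim u e) y) ≤ Fintype.card E := by
      simp only [emb, cmb, hd_elim, Sum.elim_inl, Sum.elim_inr, hd_self, zero_add]
      exact hd_le _ _
    linarith
  rw [av_mul']
  have b0 : 0 ≤ av fun w => F (cmb w y) := av_nonneg fun w => F0 _
  have b2 : av (fun w => F (cmb w y)) ≤ 2 := av_le fun w => F2 _
  have b3 := mul_le_mul_of_nonneg_right a3 b0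
  have b4 : (0 : ℝ) ≤ Fintype.card E := by positivity
  nlinarith

end marg

theorem good_main (δ : ℝ) (h0 : 0 < δ) (h1 : δ ≤ 1) : ∃ C : ℝ, ∃ N0 : ℕ, ∀ N, N0 ≤ N →
    ∀ A : Finset (Fin (N + 1) → Bool), A.card = 2 ^ N →
      Good (Fin N) (Fin (N + 1)) A (N * (14 * δ * √N + C)) := by
  obtain ⟨a, a0, ha⟩ := moser δ h0 h1
  obtain ⟨K, hK⟩ : ∃ K : ℕ, Real.exp ((2 * a + 6) / δ) ≤ K := ⟨_, Nat.le_ceil _⟩
  have K1 : (1 : ℝ) ≤ K := le_trans (Real.one_le_exp (by positivity)) hK
  have K0 : 0 < K := by exact_mod_cast (zero_lt_one.trans_le K1)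
  refine ⟨10 + Real.exp (2 * (a + a ^ 2 + 1)) + 2 * K * (3 + 2 * a), ⌈(3 * K / δ ^ 2) ^ 2⌉₊, ?_⟩
  intro N hN A hA
  have s1 : 3 * K / δ ^ 2 ≤ √N := Real.le_sqrt_of_sq_le (Nat.ceil_le.1 hN)
  have d2 : 0 < δ ^ 2 := by positivity
  have d3 : δ ^ 2 ≤ 1 := by nlinarith
  rw [div_le_iff₀ d2] at s1
  have s0 : 0 ≤ √(N : ℝ) := Real.sqrt_nonneg _
  have s2 : 1 ≤ √(N : ℝ) := by nlinarith
  have s3 : √(N : ℝ) * √N = N := Real.mul_self_sqrt (Nat.cast_nonneg _)
  set r : ℕ := ⌈δ * √N⌉₊ with hr
  have r1 : δ * √N ≤ r := Nat.le_ceil _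
  have r2 : (r : ℝ) ≤ δ * √N + 1 := (Nat.ceil_lt_add_one (by positivity)).le
  have r3 : (r : ℝ) * K ≤ 2 * K * √N := by
    have : (r : ℝ) ≤ 2 * √N := by nlinarith
    nlinarith
  have r4 : (r : ℝ) * K + 1 ≤ δ ^ 2 * N := by nlinarith
  have r5 : r * K < N := by
    have : (r : ℝ) * K < N := by nlinarith
    exact_mod_cast this
  have : Nonempty (Fin K) := ⟨⟨0, K0⟩⟩
  have : Nonempty (Fin (N - r * K)) := ⟨⟨0, by omega⟩⟩
  have c1 : Fintype.card ((Fin r × Fin K) ⊕ Fin (N - r * K)) = N := by simp; omega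
  have c2 : Fintype.card ((Fin r × Fin K) ⊕ Fin (N - r * K) ⊕ Unit) = N + 1 := by simp; omega
  let e' := Fintype.equivFinOfCardEq c2
  apply Good.transport (Fintype.equivFinOfCardEq c1) e'
  set A' := A.image fun a => a ∘ e' with hA'
  have c3 : A'.card = 2 ^ N := by
    rw [hA', Finset.card_image_of_injective _ (e'.surjective.injective_comp_right), hA]
  let F : ((Fin r × Fin K) ⊕ Fin (N - r * K) ⊕ Unit → Bool) → ℝ :=
    fun x => if x ∈ A' then 2 else 0
  have F0 : ∀ x, 0 ≤ F x := fun x => by simp only [F]; split_ifs <;> norm_num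
  have F2 : ∀ x, F x ≤ 2 := fun x => by simp only [F]; split_ifs <;> norm_num
  have F3 : ∀ h : _ → ℝ, av (fun x => h x * F x) = (∑ a ∈ A', h a) / A'.card := by
    intro h
    simp only [av, F, mul_ite, mul_zero, Finset.sum_ite_mem, Finset.univ_inter, Fintype.card_fun,
      c2, c3, Fintype.card_bool, ← Finset.sum_mul]
    push_cast
    field_simp
    ring
  obtain ⟨T, R, G, g1, g2, g3, g4⟩ := ha (Fin (N - r * K)) (fun y => av fun w => F (cmb w y))
    (fun y => av_nonneg fun w => F0 _) (fun y => av_le fun w => F2 _) (by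
      have := F3 fun _ => 1
      simp only [one_mul, Finset.sum_const, nsmul_eq_mul, mul_one, c3] at this
      rw [← av_cmb, this]
      exact div_self (by positivity))
  have n1 : (Fintype.card (Fin (N - r * K)) : ℝ) ≤ N := by
    rw [Fintype.card_fin]; exact_mod_cast Nat.sub_le _ _
  have n2 : √(Fintype.card (Fin (N - r * K)) : ℝ) ≤ √N := Real.sqrt_le_sqrt n1
  have n3 := mul_le_mul_of_nonneg_right n2 a0.le
  have key := assembly (U := Fin r × Fin K) (E := Unit) (Γ := Fin r → Fin K)
    (fun γ => Finset.univ.image fun t => (t, γ t)) (by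
      intro γ γ' h
      ext t
      have : (t, γ t) ∈ Finset.univ.image fun t => (t, γ' t) := by
        have h' : (Finset.univ.image fun t => (t, γ t)) =
          Finset.univ.image fun t => (t, γ' t) := h
        rw [← h']; simp
      simp only [Finset.mem_image, Finset.mem_univ, true_and, Prod.mk.injEq] at this
      obtain ⟨s, rfl, hs⟩ := this
      rw [hs]) r (by
      intro γ
      exact_mod_cast (Finset.card_image_le.trans (by simp))) G A'
    (by rw [c3, Fintype.card_fun, c1, Fintype.card_bool])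
    (N * Real.exp (2 * (a + a ^ 2 + 1))) (√N * a + 1) (Real.exp (2 * (√N * a + 1)))
    (6 * δ * √N + 3)
    (g1.trans (mul_le_mul_of_nonneg_right n1 (Real.exp_pos _).le)) (by linarith)
    (g3.trans (Real.exp_le_exp.2 (by linarith))) (by
      rw [c2, Fintype.card_fun, Fintype.card_fin, Fintype.card_fin]
      push_cast
      have e1 : (N : ℝ) + 1 ≤ Real.exp √N ^ 2 := by
        have := pow_le_pow_left₀ (by positivity) (Real.add_one_le_exp √N) 2
        nlinarith
      have e2 := pow_le_pow_left₀ (by positivity) e1 2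
      have e3 := pow_le_pow_left₀ (Real.exp_pos _).le hK r
      refine (mul_le_mul_of_nonneg_left e2 (Real.exp_pos _).le).trans (le_trans ?_ e3)
      rw [← pow_mul, ← Real.exp_nat_mul, ← Real.exp_nat_mul, ← Real.exp_add]
      apply Real.exp_le_exp.2
      have e4 : √N * (2 * a + 6) ≤ r * ((2 * a + 6) / δ) := by
        rw [← mul_div_assoc, le_div_iff₀ h0]
        nlinarith
      push_cast
      nlinarith) (by
      intro h hh
      have b1 := marg F h F0 F2 hh
      have b2 : ∀ u, av (fun o => av fun z => h (emb Unit u (G o z))) ≤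
          av (fun y => h (emb Unit u y) * av fun w => F (cmb w y)) + (4 * δ * √N + 1) := by
        intro u
        refine (g4 (fun y => h (emb Unit u y)) ?_).trans ?_
        · intro y y'
          have := hh (emb Unit u y) (emb Unit u y')
          rwa [hd_emb, hd_self, zero_add] at this
        · have := mul_le_mul_of_nonneg_left n2 (show 0 ≤ 4 * δ by positivity)
          linarith
      have b3 := av_mono b2
      rw [av_add, av_const] at b3
      rw [F3] at b1
      have b4 : √(Fintype.card ((Fin r × Fin K) ⊕ Unit) : ℝ) ≤ δ * √N := by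
        apply Real.sqrt_le_iff.2 ⟨by positivity, ?_⟩
        simp only [Fintype.card_sum, Fintype.card_prod, Fintype.card_fin, Fintype.card_unit]
        push_cast
        nlinarith
      simp only [Fintype.card_unit, Nat.cast_one] at b1
      linarith)
  refine key.mono ?_
  rw [c1, Fintype.card_prod, Fintype.card_fin, Fintype.card_fin]
  push_cast
  have N0 : (0 : ℝ) ≤ N := Nat.cast_nonneg _
  have q1 : 2 * (N : ℝ) * (6 * δ * √N + 3 + r + 1) ≤ 2 * N * (7 * δ * √N + 5) :=
    mul_le_mul_of_nonneg_left (by linarith) (by linarith)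
  have q2 : (r : ℝ) * K * (1 + 2 * (√N * a + 1)) ≤ 2 * K * √N * (√N * (3 + 2 * a)) :=
    mul_le_mul r3 (by nlinarith) (by positivity) (by positivity)
  have q3 : 2 * K * √N * (√N * (3 + 2 * a)) = N * (2 * K * (3 + 2 * a)) := by
    rw [show 2 * K * √N * (√N * (3 + 2 * a)) = (√N * √N) * (2 * K * (3 + 2 * a)) by ring, s3]
  nlinarith

end Pool.Agent.H423Z.Str
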