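import Pool.Agent.H423Z.StrF

/-!
# Average stretch, part G: symmetric chains in the cube
-/

set_option autoImplicit false
set_option linter.unusedSectionVars false
set_option maxHeartbeats 400000

open Finset

namespace Pool.Agent.H423Z.Str

/-- Hamming weight -/
def wt {κ : Type} [Fintype κ] (x : κ → Bool) : ℕ := (Finset.univ.filter fun i => x i = true).card

theorem wt_eq {κ : Type} [Fintype κ] (x : κ → Bool) : wt x = ∑ i, if x i = true then 1 else 0 := by
  rw [wt, Finset.card_filter]

theorem wt_le {κ : Type} [Fintype κ] (x : κ → Bool) : wt x ≤ Fintype.card κ :=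
  Finset.card_le_univ _

theorem wt_comp {κ κ' : Type} [Fintype κ] [Fintype κ'] (e : κ ≃ κ') (x : κ' → Bool) :
    wt (x ∘ e) = wt x := by
  rw [wt_eq, wt_eq]
  exact Equiv.sum_comp e fun i => if x i = true then 1 else 0

theorem wt_cons {n : ℕ} (c : Bool) (t : Fin n → Bool) :
    wt (Fin.cons c t : Fin (n + 1) → Bool) = wt t + if c = true then 1 else 0 := by
  rw [wt_eq, wt_eq, Fin.sum_univ_succ, add_comm]
  rfl

theorem ham_cons {n : ℕ} (a b : Bool) (s t : Fin n → Bool) :
    hammingDist (Fin.cons a s : Fin (n + 1) → Bool) (Fin.cons b t) =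
      hammingDist s t + if a = b then 0 else 1 := by
  have h : hd (Fin.cons a s : Fin (n + 1) → Bool) (Fin.cons b t) =
      hd s t + if a = b then 0 else 1 := by
    rw [hd_eq, hd_eq, Fin.sum_univ_succ, add_comm]
    rfl
  unfold hd at h
  split_ifs at h ⊢ <;> exact_mod_cast h

theorem fl_cons_zero {n : ℕ} (c : Bool) (t : Fin n → Bool) :
    fl (Fin.cons c t : Fin (n + 1) → Bool) 0 = Fin.cons (!c) t := by
  unfold fl
  rw [Fin.update_cons_zero]
  rfl

theorem fl_cons_succ {n : ℕ} (c : Bool) (t : Fin n → Bool) (i : Fin n) :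
    fl (Fin.cons c t : Fin (n + 1) → Bool) i.succ = Fin.cons c (fl t i) := by
  unfold fl
  rw [Fin.cons_update]
  rfl

/-- number of unmatched zeros -/
def lo : (n : ℕ) → (Fin n → Bool) → ℕ
  | 0, _ => 0
  | n + 1, x => if x 0 = true then lo n (Fin.tail x) - 1 else lo n (Fin.tail x) + 1

/-- number of matched pairs -/
def bt : (n : ℕ) → (Fin n → Bool) → ℕ
  | 0, _ => 0
  | n + 1, x => if x 0 = true ∧ 0 < lo n (Fin.tail x) then bt n (Fin.tail x) + 1
      else bt n (Fin.tail x)

/-- the element of the chain of `x` with `r` unmatched zeros -/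
def st : (n : ℕ) → (Fin n → Bool) → ℕ → (Fin n → Bool)
  | 0, x, _ => x
  | n + 1, x, r => if x 0 = true ∧ 0 < lo n (Fin.tail x) then
      Fin.cons true (st n (Fin.tail x) (r + 1))
      else if 0 < r then Fin.cons false (st n (Fin.tail x) (r - 1))
      else Fin.cons true (st n (Fin.tail x) 0)

theorem lo_cons {n : ℕ} (c : Bool) (t : Fin n → Bool) :
    lo (n + 1) (Fin.cons c t) = if c = true then lo n t - 1 else lo n t + 1 := by
  simp [lo]

theorem bt_cons {n : ℕ} (c : Bool) (t : Fin n → Bool) :
    bt (n + 1) (Fin.cons c t) = if c = true ∧ 0 < lo n t then bt n t + 1 else bt n t := by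
  simp [bt]

theorem st_cons {n : ℕ} (c : Bool) (t : Fin n → Bool) (r : ℕ) :
    st (n + 1) (Fin.cons c t) r = if c = true ∧ 0 < lo n t then Fin.cons true (st n t (r + 1))
      else if 0 < r then Fin.cons false (st n t (r - 1)) else Fin.cons true (st n t 0) := by
  simp [st]

theorem cons_ind {n : ℕ} {P : (Fin (n + 1) → Bool) → Prop}
    (h : ∀ c t, P (Fin.cons c t)) (x : Fin (n + 1) → Bool) : P x := by
  rw [← Fin.cons_self_tail x]; exact h _ _

theorem bt_lo_wt (n : ℕ) : ∀ x : Fin n → Bool, bt n x + lo n x + wt x = n ∧ bt n x ≤ wt x := by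
  induction n with
  | zero => intro x; simp [bt, lo, wt]
  | succ n ih =>
    apply cons_ind
    intro c t
    have := ih t
    rw [bt_cons, lo_cons, wt_cons]
    cases c <;> simp
    · omega
    · split_ifs <;> omega

theorem st_lo (n : ℕ) : ∀ x : Fin n → Bool, st n x (lo n x) = x := by
  induction n with
  | zero => intro x; rfl
  | succ n ih =>
    apply cons_ind
    intro c t
    rw [st_cons, lo_cons]
    cases c
    · simp [ih t]
    · by_cases h : 0 < lo n t
      · simp only [h, and_self, if_true]
        rw [Nat.sub_add_cancel h, ih t]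
      · have h0 : lo n t = 0 := by omega
        simp only [h0, lt_irrefl, and_false, if_false, if_true, Nat.zero_sub]
        rw [← h0, ih t]

theorem st_st (n : ℕ) : ∀ (x : Fin n → Bool) (r : ℕ), r + 2 * bt n x ≤ n →
    lo n (st n x r) = r ∧ bt n (st n x r) = bt n x ∧ ∀ r', st n (st n x r) r' = st n x r' := by
  induction n with
  | zero => intro x r h; simp [st, lo]; omega
  | succ n ih =>
    apply cons_ind
    intro c t r
    have h0 := bt_lo_wt n t
    rw [bt_cons, st_cons]
    split_ifs with h1 h2
    · intro h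
      obtain ⟨a1, a2, a3⟩ := ih t (r + 1) (by omega)
      refine ⟨by simp [lo_cons, a1], by simp [bt_cons, a1, a2], fun r' => ?_⟩
      rw [st_cons, st_cons, if_pos h1, if_pos (by simp [a1]), a3]
    · intro h
      obtain ⟨a1, a2, a3⟩ := ih t (r - 1) (by omega)
      refine ⟨by simp [lo_cons, a1]; omega, by simp [bt_cons, a2], fun r' => ?_⟩
      rw [st_cons, st_cons, if_neg h1, if_neg (by simp), a3, a3]
    · intro h
      obtain ⟨a1, a2, a3⟩ := ih t 0 (by omega)
      refine ⟨by simp [lo_cons, a1]; omega, by simp [bt_cons, a1, a2], fun r' => ?_⟩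
      rw [st_cons, st_cons, if_neg h1, if_neg (by simp [a1]), a3, a3]

theorem st_dist (n : ℕ) : ∀ (x : Fin n → Bool) (r r' : ℕ),
    hammingDist (st n x r) (st n x r') ≤ (r - r') + (r' - r) := by
  induction n with
  | zero => intro x r r'; simp [st]
  | succ n ih =>
    apply cons_ind
    intro c t r r'
    rw [st_cons, st_cons]
    split_ifs with h1 h2 h3 h3 <;> rw [ham_cons] <;> simp
    · have := ih t (r + 1) (r' + 1); omega
    · have := ih t (r - 1) (r' - 1); omega
    · have := ih t (r - 1) 0; omega
    · have := ih t 0 (r' - 1); omega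

theorem st_adj (n : ℕ) : ∀ (x : Fin n → Bool) (i : Fin n), x i = false →
    lo n (fl x i) ≤ lo n x ∧ lo n x ≤ lo n (fl x i) + 2 ∧ ∀ r r',
      hammingDist (st n x r) (st n (fl x i) r') + 3 * (lo n x - lo n (fl x i)) ≤
        9 + ((r - r') + (r' - r)) := by
  induction n with
  | zero => intro x i; exact i.elim0
  | succ n ih =>
    apply cons_ind
    intro c t i
    refine Fin.cases ?_ (fun i => ?_) i
    · intro hc
      obtain rfl : c = false := hc
      rw [fl_cons_zero, lo_cons, lo_cons]
      simp only [Bool.not_false, if_true, Bool.false_eq_true, if_false]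
      refine ⟨by omega, by omega, fun r r' => ?_⟩
      rw [st_cons, st_cons]
      simp only [Bool.false_eq_true, false_and, if_false, true_and]
      split_ifs with h1 h2 h3 h2 h3 <;> rw [ham_cons] <;> simp
      · have := st_dist n t (r - 1) (r' + 1); omega
      · have := st_dist n t (r - 1) (r' - 1); omega
      · have := st_dist n t (r - 1) 0; omega
      · have := st_dist n t 0 (r' + 1); omega
      · have := st_dist n t 0 (r' - 1); omega
      · omega
    · intro hc
      obtain ⟨a1, a2, a3⟩ := ih t i hc
      rw [fl_cons_succ, lo_cons, lo_cons]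
      cases c
      · simp only [Bool.false_eq_true, if_false]
        refine ⟨by omega, by omega, fun r r' => ?_⟩
        rw [st_cons, st_cons]
        simp only [Bool.false_eq_true, false_and, if_false]
        split_ifs with h1 h2 h2 <;> rw [ham_cons] <;> simp
        · have := a3 (r - 1) (r' - 1); omega
        · have := a3 (r - 1) 0; omega
        · have := a3 0 (r' - 1); omega
        · have := a3 0 0; omega
      · simp only [if_true]
        refine ⟨by omega, by omega, fun r r' => ?_⟩
        rw [st_cons, st_cons]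
        simp only [true_and]
        by_cases h1 : 0 < lo n t <;> by_cases h2 : 0 < lo n (fl t i) <;> by_cases h3 : 0 < r <;>
          by_cases h4 : 0 < r' <;> simp only [h1, h2, h3, h4, if_true, if_false, ham_cons] <;>
          simp <;>
          (have := a3 (r + 1) (r' + 1); have := a3 (r + 1) (r' - 1); have := a3 (r + 1) 0
           have := a3 (r - 1) (r' - 1); have := a3 (r - 1) 0; have := a3 0 (r' - 1)
           have := a3 0 0; omega)

/-- the element of weight `j` in the chain of `x` -/
def lev {n : ℕ} (j : ℕ) (x : Fin n → Bool) : Fin n → Bool := st n x (n - bt n x - j)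

variable {n : ℕ}

theorem bt_le (x : Fin n → Bool) : bt n x ≤ wt x ∧ bt n x + wt x ≤ n := by
  have := bt_lo_wt n x; omega

theorem lev_self (x : Fin n → Bool) : lev (wt x) x = x := by
  have := bt_lo_wt n x
  rw [lev, show n - bt n x - wt x = lo n x by omega, st_lo]

theorem lev_spec {j : ℕ} {x : Fin n → Bool} (h1 : bt n x ≤ j) (h2 : bt n x + j ≤ n) :
    bt n (lev j x) = bt n x ∧ wt (lev j x) = j ∧ ∀ w, lev w (lev j x) = lev w x := by
  obtain ⟨a1, a2, a3⟩ := st_st n x (n - bt n x - j) (by omega)
  have := bt_lo_wt n (lev j x)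
  refine ⟨a2, ?_, fun w => ?_⟩
  · unfold lev at this ⊢; omega
  · unfold lev; rw [a2, a3]

theorem lev_dist {j : ℕ} {x : Fin n → Bool} (h2 : bt n x + j ≤ n) :
    hd (lev j x) x ≤ |(wt x : ℝ) - j| := by
  have h := st_dist n x (n - bt n x - j) (lo n x)
  rw [st_lo] at h
  have := bt_lo_wt n x
  have h3 : hammingDist (lev j x) x ≤ (wt x - j) + (j - wt x) := by unfold lev; omega
  unfold hd
  rcases le_total j (wt x) with h4 | h4
  · rw [abs_of_nonneg (by rw [sub_nonneg]; exact_mod_cast h4), ← Nat.cast_sub h4]
    exact_mod_cast (by omega)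
  · rw [abs_of_nonpos (by rw [sub_nonpos]; exact_mod_cast h4), neg_sub, ← Nat.cast_sub h4]
    exact_mod_cast (by omega)

theorem wt_fl {κ : Type} [Fintype κ] [DecidableEq κ] (x : κ → Bool) (i : κ) (h : x i = false) :
    wt (fl x i) = wt x + 1 := by
  rw [wt_eq, wt_eq, ← Finset.add_sum_erase _ _ (Finset.mem_univ i),
    ← Finset.add_sum_erase _ _ (Finset.mem_univ i), fl_self, h]
  rw [Finset.sum_congr rfl fun j hj => by rw [fl_ne x (Finset.mem_erase.1 hj).1]]
  simp [add_comm]

theorem lev_adj' (j : ℕ) (x : Fin n → Bool) (i : Fin n) (h : x i = false) :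
    bt n (fl x i) ≤ bt n x + 1 ∧ bt n x ≤ bt n (fl x i) + 1 ∧ hd (lev j x) (lev j (fl x i)) ≤ 10 := by
  obtain ⟨a1, a2, a3⟩ := st_adj n x i h
  have b1 := bt_lo_wt n x
  have b2 := bt_lo_wt n (fl x i)
  have b3 := wt_fl x i h
  refine ⟨by omega, by omega, ?_⟩
  have := a3 (n - bt n x - j) (n - bt n (fl x i) - j)
  unfold hd lev
  exact_mod_cast (by omega)

theorem lev_adj (j : ℕ) (x : Fin n → Bool) (i : Fin n) :
    bt n (fl x i) ≤ bt n x + 1 ∧ bt n x ≤ bt n (fl x i) + 1 ∧ hd (lev j x) (lev j (fl x i)) ≤ 10 := by
  cases h : x i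
  · exact lev_adj' j x i h
  · have := lev_adj' j (fl x i) i (by rw [fl_self, h]; rfl)
    rw [fl_fl, hd_comm] at this
    exact ⟨this.2.1, this.1, this.2.2⟩

theorem card_wt {κ : Type} [Fintype κ] [DecidableEq κ] (j : ℕ) :
    (Finset.univ.filter fun x : κ → Bool => wt x = j).card = (Fintype.card κ).choose j := by
  rw [← Finset.card_univ, ← Finset.card_powersetCard]
  apply Finset.card_nbij' (fun x => Finset.univ.filter fun i => x i = true)
    (fun S i => decide (i ∈ S))
  · intro x hx
    simpa [wt] using hx
  · intro S hS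
    simpa [wt] using hS
  · intro x _
    ext i
    simp
  · intro S _
    ext i
    simp

theorem card_bt {j w : ℕ} (h1 : j ≤ w) (h2 : j + w ≤ n) :
    (Finset.univ.filter fun x : Fin n → Bool => wt x = w ∧ bt n x ≤ j).card = n.choose j := by
  have := card_wt (κ := Fin n) j
  rw [Fintype.card_fin] at this
  rw [← this]
  apply Finset.card_nbij' (lev j) (lev w)
  · intro x hx
    simp only [Finset.coe_filter, Finset.mem_univ, true_and, Set.mem_ofPred_eq] at hx ⊢
    exact (lev_spec hx.2 (by omega)).2.1
  · intro y hy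
    simp only [Finset.coe_filter, Finset.mem_univ, true_and, Set.mem_ofPred_eq] at hy ⊢
    have := bt_le y
    have := lev_spec (j := w) (x := y) (by omega) (by omega)
    omega
  · intro x hx
    simp only [Finset.coe_filter, Finset.mem_univ, true_and, Set.mem_ofPred_eq] at hx
    rw [(lev_spec hx.2 (by omega)).2.2, ← hx.1, lev_self]
  · intro y hy
    simp only [Finset.coe_filter, Finset.mem_univ, true_and, Set.mem_ofPred_eq] at hy
    have := bt_le y
    rw [(lev_spec (j := w) (x := y) (by omega) (by omega)).2.2, ← hy, lev_self]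

theorem card_ratio {j : ℕ} (w : ℕ) (hj : 2 * j ≤ n) :
    (n : ℝ) * (Finset.univ.filter fun x : Fin n → Bool => wt x = w ∧ bt n x = j).card ≤
      2 * (n - 2 * j + 1) *
        (Finset.univ.filter fun x : Fin n → Bool => wt x = w ∧ bt n x ≤ j).card := by
  have hj' : 2 * (j : ℝ) ≤ n := by exact_mod_cast hj
  by_cases h : j ≤ w ∧ j + w ≤ n
  · rcases j with _ | i
    · simp only [Nat.le_zero]
      apply mul_le_mul_of_nonneg_right _ (Nat.cast_nonneg _)
      push_cast
      linarith
    · have e : (Finset.univ.filter fun x : Fin n → Bool => wt x = w ∧ bt n x = i + 1).card +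
          (Finset.univ.filter fun x : Fin n → Bool => wt x = w ∧ bt n x ≤ i).card =
          (Finset.univ.filter fun x : Fin n → Bool => wt x = w ∧ bt n x ≤ i + 1).card := by
        rw [← Finset.card_union_of_disjoint]
        · congr 1
          ext x
          simp only [Finset.mem_union, Finset.mem_filter, Finset.mem_univ, true_and]
          omega
        · rw [Finset.disjoint_filter]
          intro x _
          omega
      rw [card_bt h.1 h.2, card_bt (by omega) (by omega)] at e
      rw [card_bt h.1 h.2]
      have e2 := Nat.choose_succ_right_eq n i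
      set c := (Finset.univ.filter fun x : Fin n → Bool => wt x = w ∧ bt n x = i + 1).card
      have e3 : (c : ℝ) + n.choose i = n.choose (i + 1) := by exact_mod_cast e
      have e4 : (n.choose (i + 1) : ℝ) * (i + 1) = n.choose i * (n - i) := by
        rw [← Nat.cast_sub (by omega)]; exact_mod_cast e2
      have c0 : (0 : ℝ) ≤ c := Nat.cast_nonneg _
      push_cast at hj' ⊢
      nlinarith
  · rw [Finset.filter_eq_empty_iff.2]
    · simp only [Finset.card_empty, Nat.cast_zero, mul_zero]
      apply mul_nonneg _ (Nat.cast_nonneg _)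
      linarith
    · intro x _
      have := bt_le x
      omega

end Pool.Agent.H423Z.Str
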