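import Pool.Agent.H423Z.StrG

/-!
# Average stretch, part H: moving to a level along a random chain
-/

set_option autoImplicit false
set_option linter.unusedSectionVars false
set_option maxHeartbeats 400000

open Finset

namespace Pool.Agent.H423Z.Str

section sym
variable {κ : Type} [Fintype κ] [DecidableEq κ]

theorem exists_perm {x y : κ → Bool} (h : wt x = wt y) : ∃ σ : Equiv.Perm κ, x ∘ σ = y := by
  have e : ∀ c, Fintype.card {a // y a = c} = Fintype.card {b // x b = c} := by
    have e1 : Fintype.card {a // y a = true} = Fintype.card {b // x b = true} := by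
      rw [Fintype.card_subtype, Fintype.card_subtype]
      exact h.symm
    intro c
    cases c
    · have e2 := Fintype.card_subtype_compl fun a => y a = true
      have e3 := Fintype.card_subtype_compl fun a => x a = true
      simp only [Bool.not_eq_true] at e2 e3
      rw [e2, e3, e1]
    · exact e1
  refine ⟨Equiv.ofFiberEquiv fun c => Fintype.equivOfCardEq (e c), ?_⟩
  ext a
  exact Equiv.ofFiberEquiv_map _ a

/-- symmetrisation -/
noncomputable def sym (φ : (κ → Bool) → ℝ) (y : κ → Bool) : ℝ :=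
  av fun σ : Equiv.Perm κ => φ (y ∘ σ)

theorem sym_eq (φ : (κ → Bool) → ℝ) {x y : κ → Bool} (h : wt x = wt y) : sym φ x = sym φ y := by
  obtain ⟨τ, rfl⟩ := exists_perm h
  unfold sym
  rw [← av_equiv (Equiv.mulLeft τ)]
  rfl

theorem sym_level (φ : (κ → Bool) → ℝ) (x : κ → Bool) :
    ((Fintype.card κ).choose (wt x) : ℝ) * sym φ x =
      ∑ y ∈ Finset.univ.filter (fun y => wt y = wt x), φ y := by
  rw [← card_wt, ← nsmul_eq_mul, ← Finset.sum_const]
  rw [Finset.sum_congr rfl fun y hy => sym_eq φ (Finset.mem_filter.1 hy).2.symm]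
  unfold sym
  rw [← av_sum, ← av_const (α := Equiv.Perm κ) (∑ y ∈ Finset.univ.filter _, φ y)]
  apply av_congr
  intro σ
  apply Finset.sum_equiv (Equiv.arrowCongr σ.symm (Equiv.refl Bool))
  · intro y
    have : wt (Equiv.arrowCongr σ.symm (Equiv.refl Bool) y) = wt y := wt_comp σ y
    simp only [Finset.mem_filter, Finset.mem_univ, true_and, this]
  · intro y _
    rfl

theorem sym_ind (p : (κ → Bool) → Prop) [DecidablePred p] (x : κ → Bool) :
    ((Fintype.card κ).choose (wt x) : ℝ) * av (fun σ : Equiv.Perm κ =>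
      if p (x ∘ σ) then (1 : ℝ) else 0) =
      (Finset.univ.filter fun y => wt y = wt x ∧ p y).card := by
  have := sym_level (fun y => if p y then (1 : ℝ) else 0) x
  rw [Finset.sum_boole, Finset.filter_filter] at this
  exact this

theorem choose_wt_pos (x : κ → Bool) : (0 : ℝ) < (Fintype.card κ).choose (wt x) := by
  exact_mod_cast Nat.choose_pos (wt_le x)

end sym

variable {n : ℕ}

theorem prob_ratio {j : ℕ} (hj : 2 * j ≤ n) (x : Fin n → Bool) :
    n * av (fun σ : Equiv.Perm (Fin n) => if bt n (x ∘ σ) = j then (1 : ℝ) else 0) ≤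
      2 * (n - 2 * j + 1) *
        av (fun σ : Equiv.Perm (Fin n) => if bt n (x ∘ σ) ≤ j then (1 : ℝ) else 0) := by
  have h := card_ratio (wt x) hj
  rw [← sym_ind (fun y => bt n y = j), ← sym_ind (fun y => bt n y ≤ j)] at h
  apply le_of_mul_le_mul_left _ (choose_wt_pos x)
  linarith

theorem prob_ok {j : ℕ} (hj : j ≤ n) (x : Fin n → Bool) :
    (n.choose j : ℝ) / 2 ^ n ≤
      av (fun σ : Equiv.Perm (Fin n) => if bt n (x ∘ σ) ≤ min j (n - j) then (1 : ℝ) else 0) := by
  have c1 : ∀ i, (n.choose i : ℝ) ≤ 2 ^ n := fun i => by exact_mod_cast Nat.choose_le_two_pow n i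
  by_cases h : min j (n - j) ≤ wt x ∧ min j (n - j) + wt x ≤ n
  · have h1 := sym_ind (fun y => bt n y ≤ min j (n - j)) x
    rw [card_bt h.1 h.2, Fintype.card_fin] at h1
    have h2 : n.choose (min j (n - j)) = n.choose j := by
      rcases le_total j (n - j) with h3 | h3
      · rw [min_eq_left h3]
      · rw [min_eq_right h3, Nat.choose_symm hj]
    rw [h2] at h1
    rw [div_le_iff₀' (by positivity), ← h1]
    exact mul_le_mul_of_nonneg_right (c1 _) (av_nonneg fun σ => by split_ifs <;> norm_num)
  · have h1 : ∀ σ : Equiv.Perm (Fin n), bt n (x ∘ σ) ≤ min j (n - j) := by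
      intro σ
      have := bt_le (x ∘ σ)
      rw [wt_comp] at this
      omega
    simp only [h1, if_true, av_const]
    rw [div_le_one (by positivity)]
    exact c1 j

/-- try random chains until one of them meets level `j` -/
def tries (j : ℕ) : (K : ℕ) → (Fin K → Equiv.Perm (Fin n)) → (Fin n → Bool) → (Fin n → Bool)
  | 0, _, x => x
  | K + 1, ω, x => if bt n (x ∘ ω 0) ≤ min j (n - j) then lev j (x ∘ ω 0) ∘ (ω 0).symm
      else tries j K (Fin.tail ω) x

theorem tries_cons (j K : ℕ) (π : Equiv.Perm (Fin n)) (ω : Fin K → Equiv.Perm (Fin n))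
    (x : Fin n → Bool) : tries j (K + 1) (Fin.cons π ω) x =
      if bt n (x ∘ π) ≤ min j (n - j) then lev j (x ∘ π) ∘ π.symm else tries j K ω x := by
  simp [tries]

theorem comp_symm_comp (y : Fin n → Bool) (π : Equiv.Perm (Fin n)) : (y ∘ π.symm) ∘ π = y := by
  ext i; simp

theorem tries_dist {j : ℕ} (hj : j ≤ n) (K : ℕ) : ∀ (ω : Fin K → Equiv.Perm (Fin n))
    (x : Fin n → Bool), hd (tries j K ω x) x ≤ |(wt x : ℝ) - j| := by
  induction K with
  | zero => intro ω x; simp [tries, hd_self]
  | succ K ih =>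
    intro ω x
    simp only [tries]
    split_ifs with h
    · rw [← hd_comp (ω 0), comp_symm_comp, ← wt_comp (ω 0) x]
      exact lev_dist (by omega)
    · exact ih _ _

theorem abs_wt_fl (x : Fin n → Bool) (i : Fin n) : |(wt (fl x i) : ℝ) - wt x| ≤ 1 := by
  cases h : x i
  · rw [wt_fl x i h]; simp
  · have := wt_fl (fl x i) i (by rw [fl_self, h]; rfl)
    rw [fl_fl] at this
    rw [this]; simp

theorem tries_stretch {j : ℕ} (hj : j ≤ n) (hn : 0 < n) (x : Fin n → Bool) (i : Fin n) (K : ℕ) :
    av (fun ω : Fin K → Equiv.Perm (Fin n) => hd (tries j K ω x) (tries j K ω (fl x i))) ≤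
      10 + 4 * (|(n : ℝ) - 2 * j| + 1) / n * (2 * |(wt x : ℝ) - j| + 2) := by
  set L : ℝ := 2 * |(wt x : ℝ) - j| + 2 with hL
  have L0 : 0 ≤ L := by positivity
  have n0 : (0 : ℝ) < n := by exact_mod_cast hn
  have hL1 : ∀ K (ω : Fin K → Equiv.Perm (Fin n)),
      hd (tries j K ω x) (tries j K ω (fl x i)) ≤ L := by
    intro K ω
    have h1 := tries_dist hj K ω x
    have h2 := tries_dist hj K ω (fl x i)
    have h3 := hd_tri (tries j K ω x) x (tries j K ω (fl x i))
    have h4 := hd_tri x (fl x i) (tries j K ω (fl x i))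
    rw [hd_fl, hd_comm (fl x i)] at h4
    have h5 := abs_wt_fl x i
    have h6 := abs_sub_le (wt (fl x i) : ℝ) (wt x) j
    linarith
  set j' := min j (n - j) with hj'
  have e1 : |(n : ℝ) - 2 * j| = n - 2 * j' := by
    rcases le_total j (n - j) with h3 | h3
    · rw [hj', min_eq_left h3, abs_of_nonneg]
      have : 2 * j ≤ n := by omega
      rw [sub_nonneg]; exact_mod_cast this
    · rw [hj', min_eq_right h3, abs_of_nonpos, Nat.cast_sub hj]
      · ring
      · have : n ≤ 2 * j := by omega
        rw [sub_nonpos]; exact_mod_cast this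
  set β : ℝ := 2 * (|(n : ℝ) - 2 * j| + 1) / n with hβ
  have β0 : 0 ≤ β := by positivity
  have hr : ∀ y : Fin n → Bool,
      av (fun σ : Equiv.Perm (Fin n) => if bt n (y ∘ σ) = j' then (1 : ℝ) else 0) ≤
      β * av (fun σ : Equiv.Perm (Fin n) => if bt n (y ∘ σ) ≤ j' then (1 : ℝ) else 0) := by
    intro y
    rw [hβ, div_mul_eq_mul_div, le_div_iff₀' n0, e1]
    exact prob_ratio (by omega) y
  rw [show 4 * (|(n : ℝ) - 2 * j| + 1) / n * L = 2 * β * L by rw [hβ]; ring]
  have γ0 : 0 ≤ 2 * β * L := by positivity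
  induction K with
  | zero =>
    apply av_le
    intro ω
    simp only [tries, hd_fl]
    linarith
  | succ K ih =>
    rw [av_cons]
    let U : Equiv.Perm (Fin n) → ℝ := fun π =>
      if bt n (x ∘ π) ≤ j' ∨ bt n (fl x i ∘ π) ≤ j' then 1 else 0
    have h1 : ∀ π : Equiv.Perm (Fin n), av (fun ω : Fin K → Equiv.Perm (Fin n) =>
        hd (tries j (K + 1) (Fin.cons π ω) x) (tries j (K + 1) (Fin.cons π ω) (fl x i))) ≤
        (10 + 2 * β * L) + L * ((if bt n (x ∘ π) = j' then (1 : ℝ) else 0) +
          if bt n (fl x i ∘ π) = j' then (1 : ℝ) else 0) - (2 * β * L) * U π := by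
      intro π
      have e2 : fl x i ∘ π = fl (x ∘ π) (π.symm i) := by
        rw [← fl_comp, Equiv.apply_symm_apply]
      obtain ⟨a1, a2, a3⟩ := lev_adj j (x ∘ π) (π.symm i)
      rw [← e2] at a1 a2 a3
      by_cases b1 : bt n (x ∘ π) ≤ j' <;> by_cases b2 : bt n (fl x i ∘ π) ≤ j'
      · apply av_le
        intro ω
        rw [tries_cons, tries_cons, if_pos b1, if_pos b2, hd_comp]
        simp only [U, b1, true_or, if_true]
        split_ifs <;> linarith
      · refine (av_le fun ω => hL1 _ _).trans ?_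
        simp only [U, b1, true_or, if_true]
        rw [if_pos (by omega), if_neg (by omega)]
        linarith
      · refine (av_le fun ω => hL1 _ _).trans ?_
        simp only [U, b2, or_true, if_true]
        rw [if_neg (by omega), if_pos (by omega)]
        linarith
      · simp only [tries_cons, ← hj', U, b1, b2, or_false, if_false]
        rw [if_neg (by omega), if_neg (by omega)]
        linarith
    refine (av_mono h1).trans ?_
    rw [av_sub, av_add, av_const, av_mul, av_mul, av_add]
    have h2 : av (fun π : Equiv.Perm (Fin n) => if bt n (x ∘ π) ≤ j' then (1 : ℝ) else 0) ≤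
        av U := av_mono fun π => by
      simp only [U]; split_ifs <;> first | (exfalso; tauto) | norm_num
    have h3 : av (fun π : Equiv.Perm (Fin n) => if bt n (fl x i ∘ π) ≤ j' then (1 : ℝ) else 0) ≤
        av U := av_mono fun π => by
      simp only [U]; split_ifs <;> first | (exfalso; tauto) | norm_num
    have h4 := (hr x).trans (mul_le_mul_of_nonneg_left h2 β0)
    have h5 := (hr (fl x i)).trans (mul_le_mul_of_nonneg_left h3 β0)
    have h6 := mul_le_mul_of_nonneg_left (add_le_add h4 h5) L0
    nlinarith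

theorem tries_mult {j : ℕ} (hj : j ≤ n) (K : ℕ) : ∀ (ω : Fin K → Equiv.Perm (Fin n))
    (y : Fin n → Bool), mult (tries j K ω) y ≤ 1 + K * (n + 1) := by
  induction K with
  | zero =>
    intro ω y
    show (∑ x, if x = y then (1 : ℝ) else 0) ≤ _
    rw [Finset.sum_ite_eq']
    simp
  | succ K ih =>
    intro ω y
    have h1 : mult (tries j (K + 1) ω) y ≤ (∑ x, if bt n (x ∘ ω 0) ≤ min j (n - j) ∧
        lev j (x ∘ ω 0) ∘ (ω 0).symm = y then (1 : ℝ) else 0) +
        mult (tries j K (Fin.tail ω)) y := by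
      unfold mult
      rw [← Finset.sum_add_distrib]
      apply Finset.sum_le_sum
      intro x _
      simp only [tries]
      by_cases b : bt n (x ∘ ω 0) ≤ min j (n - j)
      · simp only [b, if_true, true_and]
        split_ifs <;> norm_num
      · simp only [b, if_false, false_and, zero_add, le_refl]
    have h2 : (Finset.univ.filter fun x : Fin n → Bool => bt n (x ∘ ω 0) ≤ min j (n - j) ∧
        lev j (x ∘ ω 0) ∘ (ω 0).symm = y).card ≤ (Finset.range (n + 1)).card := by
      apply Finset.card_le_card_of_injOn wt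
      · intro x _
        have := wt_le x
        rw [Fintype.card_fin] at this
        simp; omega
      · have h3 : ∀ x : Fin n → Bool, bt n (x ∘ ω 0) ≤ min j (n - j) →
            lev j (x ∘ ω 0) ∘ (ω 0).symm = y → x = lev (wt x) (y ∘ ω 0) ∘ (ω 0).symm := by
          intro x a1 a2
          rw [← a2, comp_symm_comp, (lev_spec (by omega) (by omega)).2.2, ← wt_comp (ω 0) x,
            lev_self]
          ext k; simp
        intro x hx x' hx' h
        simp only [Finset.coe_filter, Finset.mem_univ, true_and, Set.mem_ofPred_eq] at hx hx'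
        rw [h3 x hx.1 hx.2, h3 x' hx'.1 hx'.2, h]
    rw [Finset.sum_boole] at h1
    rw [Finset.card_range] at h2
    have h3 : ((Finset.univ.filter fun x : Fin n → Bool => bt n (x ∘ ω 0) ≤ min j (n - j) ∧
        lev j (x ∘ ω 0) ∘ (ω 0).symm = y).card : ℝ) ≤ n + 1 := by exact_mod_cast h2
    have h4 := ih (Fin.tail ω) y
    push_cast
    linarith

theorem tries_fail {j : ℕ} (hj : j ≤ n) (x : Fin n → Bool) (K : ℕ) :
    av (fun ω : Fin K → Equiv.Perm (Fin n) => if wt (tries j K ω x) = j then (0 : ℝ) else 1) ≤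
      (1 - (n.choose j : ℝ) / 2 ^ n) ^ K := by
  have p1 : (n.choose j : ℝ) / 2 ^ n ≤ 1 := by
    rw [div_le_one (by positivity)]
    exact_mod_cast Nat.choose_le_two_pow n j
  induction K with
  | zero =>
    apply av_le
    intro ω
    split_ifs <;> norm_num
  | succ K ih =>
    rw [av_cons]
    have h1 : ∀ π : Equiv.Perm (Fin n), av (fun ω : Fin K → Equiv.Perm (Fin n) =>
        if wt (tries j (K + 1) (Fin.cons π ω) x) = j then (0 : ℝ) else 1) ≤
        (1 - (n.choose j : ℝ) / 2 ^ n) ^ K *
          (1 - if bt n (x ∘ π) ≤ min j (n - j) then (1 : ℝ) else 0) := by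
      intro π
      by_cases b : bt n (x ∘ π) ≤ min j (n - j)
      · simp only [tries_cons, b, if_true, wt_comp, (lev_spec (x := x ∘ π) (j := j) (by omega)
          (by omega)).2.1, av_zero, sub_self, mul_zero, le_refl]
      · simp only [tries_cons, b, if_false, sub_zero, mul_one]
        exact ih
    refine (av_mono h1).trans ?_
    rw [av_mul, av_sub, av_const, pow_succ]
    apply mul_le_mul_of_nonneg_left _ (pow_nonneg (by linarith) _)
    linarith [prob_ok hj x]

theorem tries_equiv (j K : ℕ) (σ : Equiv.Perm (Fin n)) : ∀ (ω : Fin K → Equiv.Perm (Fin n))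
    (x : Fin n → Bool), tries j K (fun t => σ⁻¹ * ω t) (x ∘ σ) = tries j K ω x ∘ σ := by
  induction K with
  | zero => intro ω x; rfl
  | succ K ih =>
    intro ω x
    have e : (x ∘ σ) ∘ (σ⁻¹ * ω 0 : Equiv.Perm (Fin n)) = x ∘ ω 0 := by
      ext i; simp
    simp only [tries, e]
    split_ifs
    · ext i
      simp [Equiv.Perm.mul_def, Equiv.Perm.inv_def]
    · exact ih (Fin.tail ω) x

theorem tries_law {j : ℕ} (hj : j ≤ n) (K : ℕ) (φ : (Fin n → Bool) → ℝ) (hφ : Lip φ)
    (y : Fin n → Bool) (hy : wt y = j) :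
    av (fun ω : Fin K → Equiv.Perm (Fin n) => av fun x => φ (tries j K ω x)) ≤
      sym φ y + n * (1 - (n.choose j : ℝ) / 2 ^ n) ^ K := by
  have h1 : ∀ σ : Equiv.Perm (Fin n),
      av (fun ω : Fin K → Equiv.Perm (Fin n) => av fun x => φ (tries j K ω x)) =
      av (fun ω : Fin K → Equiv.Perm (Fin n) => av fun x => φ (tries j K ω x ∘ σ)) := by
    intro σ
    rw [← av_equiv (Equiv.piCongrRight fun _ : Fin K => Equiv.mulLeft σ⁻¹)]
    apply av_congr
    intro ω
    rw [← av_equiv (Equiv.arrowCongr σ.symm (Equiv.refl Bool))]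
    apply av_congr
    intro x
    rw [← tries_equiv]
    rfl
  rw [← av_const (α := Equiv.Perm (Fin n))
    (av fun ω : Fin K → Equiv.Perm (Fin n) => av fun x => φ (tries j K ω x)), av_congr h1, av_comm]
  have h2 : ∀ ω : Fin K → Equiv.Perm (Fin n),
      av (fun σ : Equiv.Perm (Fin n) => av fun x => φ (tries j K ω x ∘ σ)) ≤
      av fun x => sym φ y + n * if wt (tries j K ω x) = j then (0 : ℝ) else 1 := by
    intro ω
    rw [av_comm]
    apply av_mono
    intro x
    split_ifs with h
    · rw [mul_zero, add_zero, ← sym_eq φ (h.trans hy.symm)]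
      rfl
    · rw [mul_one, sym, ← av_const (α := Equiv.Perm (Fin n)) (n : ℝ), ← av_add]
      apply av_mono
      intro σ
      have h3 := (hφ (tries j K ω x ∘ σ) (y ∘ σ)).trans (hd_le _ _)
      rw [Fintype.card_fin] at h3
      linarith
  refine (av_mono h2).trans ?_
  rw [av_comm]
  apply av_le
  intro x
  rw [av_add, av_const, av_mul]
  have := mul_le_mul_of_nonneg_left (tries_fail hj x K) (Nat.cast_nonneg n)
  linarith

end Pool.Agent.H423Z.Str
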