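import Pool.Agent.H423Z.StrH

/-!
# Average stretch, part I: the ball of density one quarter
-/

set_option autoImplicit false
set_option linter.unusedSectionVars false
set_option maxHeartbeats 400000

open Finset

namespace Pool.Agent.H423Z.Str

theorem central_sq (m : ℕ) : (Nat.centralBinom m) ^ 2 * (2 * m + 1) ≤ 16 ^ m := by
  induction m with
  | zero => simp
  | succ m ih =>
    have h := Nat.succ_mul_centralBinom_succ m
    apply Nat.le_of_mul_le_mul_left _ (show 0 < (m + 1) ^ 2 by positivity)
    have e : (m + 1) ^ 2 * (Nat.centralBinom (m + 1) ^ 2 * (2 * (m + 1) + 1)) =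
        (Nat.centralBinom m ^ 2 * (2 * m + 1)) * (4 * (2 * m + 1) * (2 * m + 3)) := by
      rw [← mul_assoc, ← mul_pow, h]; ring
    rw [e, pow_succ 16 m]
    refine (Nat.mul_le_mul ih (show _ ≤ (m + 1) ^ 2 * 16 by nlinarith)).trans (le_of_eq ?_)
    ring

theorem choose_sq_le (n j : ℕ) : (n.choose j) ^ 2 * (n + 1) ≤ 4 ^ n := by
  refine le_trans (Nat.mul_le_mul_right _ (Nat.pow_le_pow_left (Nat.choose_le_middle j n) 2)) ?_
  rcases Nat.even_or_odd' n with ⟨m, rfl | rfl⟩
  · have := central_sq m
    rw [Nat.centralBinom_eq_two_mul_choose] at this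
    rw [show 2 * m / 2 = m by omega, pow_mul]
    exact this
  · have h := central_sq (m + 1)
    rw [Nat.centralBinom_eq_two_mul_choose, show 2 * (m + 1) = 2 * m + 1 + 1 by ring,
      Nat.choose_succ_succ', Nat.choose_symm_half] at h
    rw [show (2 * m + 1) / 2 = m by omega, pow_succ 4, pow_mul]
    rw [pow_succ 16] at h
    norm_num
    nlinarith

section
variable {κ : Type} [Fintype κ] [DecidableEq κ]

theorem av_wt_sq : av (fun z : κ → Bool => ((Fintype.card κ : ℝ) - 2 * wt z) ^ 2) =
    Fintype.card κ := by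
  have e : ∀ z : κ → Bool, ((Fintype.card κ : ℝ) - 2 * wt z) ^ 2 =
      ∑ i, ∑ k, sg false (z i) * sg false (z k) := by
    intro z
    rw [← Finset.sum_mul_sum, ← sq, wt_eq]
    congr 1
    push_cast
    rw [Finset.mul_sum, ← Finset.card_univ, Finset.card_eq_sum_ones]
    push_cast
    rw [← Finset.sum_sub_distrib]
    apply Finset.sum_congr rfl
    intro i _
    cases z i <;> simp [sg]
    norm_num
  simp only [e]
  rw [av_sum, ← Finset.card_univ, Finset.card_eq_sum_ones]
  push_cast
  apply Finset.sum_congr rfl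
  intro i _
  rw [av_sum, Finset.sum_eq_single i]
  · have : ∀ z : κ → Bool, sg false (z i) * sg false (z i) = 1 := by
      intro z; cases z i <;> simp [sg]
    simp only [this, av_const]
  · intro k _ hk
    rw [av_pi_two hk.symm]
    simp [av, sg]
  · simp

theorem av_level (ψ : ℕ → ℝ) : av (fun z : κ → Bool => ψ (wt z)) =
    ∑ j ∈ Finset.range (Fintype.card κ + 1),
      ((Fintype.card κ).choose j : ℝ) / 2 ^ Fintype.card κ * ψ j := by
  unfold av
  rw [← Finset.sum_fiberwise_of_maps_to (t := Finset.range (Fintype.card κ + 1)) (g := wt)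
    (fun z _ => by simpa [Nat.lt_succ_iff] using wt_le z), Finset.sum_div]
  apply Finset.sum_congr rfl
  intro j _
  rw [Finset.sum_congr rfl fun z hz => by rw [(Finset.mem_filter.1 hz).2], Finset.sum_const,
    card_wt]
  simp [div_mul_eq_mul_div]

theorem card_ball (k : ℕ) : (Finset.univ.filter fun x : κ → Bool => wt x ≤ k).card =
    ∑ j ∈ Finset.range (k + 1), (Fintype.card κ).choose j := by
  rw [Finset.card_eq_sum_card_fiberwise (f := wt) (t := Finset.range (k + 1))
    (fun z hz => by simpa [Nat.lt_succ_iff] using hz)]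
  apply Finset.sum_congr rfl
  intro j hj
  rw [← card_wt, Finset.filter_filter]
  congr 1
  ext x
  have := Finset.mem_range.1 hj
  simp only [Finset.mem_filter, Finset.mem_univ, true_and]
  omega

end

theorem av_coe {X : Type} [Fintype X] [DecidableEq X] (A : Finset X) (hA : 0 < A.card)
    (h : Fintype.card X = 4 * A.card) (ψ : X → ℝ) :
    av (fun a : A => ψ a.1) = 4 * av fun x => if x ∈ A then ψ x else 0 := by
  simp only [av, Finset.sum_ite_mem, Finset.univ_inter, h, Fintype.card_coe]
  rw [Finset.sum_coe_sort A ψ]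
  have : (0 : ℝ) < A.card := by exact_mod_cast hA
  push_cast
  field_simp

section blk
variable {U Z E : Type} [Fintype U] [DecidableEq U] [Fintype Z] [DecidableEq Z]
  [Fintype E] [DecidableEq E]

/-- the middle block -/
def zp (x : U ⊕ Z ⊕ E → Bool) : Z → Bool := fun i => x (Sum.inr (Sum.inl i))

/-- the outer blocks -/
def up (x : U ⊕ Z ⊕ E → Bool) : U ⊕ E → Bool :=
  Sum.elim (fun i => x (Sum.inl i)) fun i => x (Sum.inr (Sum.inr i))

/-- permute the middle block -/
def act (σ : Equiv.Perm Z) : (U ⊕ Z ⊕ E → Bool) ≃ (U ⊕ Z ⊕ E → Bool) :=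
  Equiv.arrowCongr (Equiv.sumCongr (Equiv.refl U) (Equiv.sumCongr σ (Equiv.refl E))).symm
    (Equiv.refl Bool)

theorem cmb_up_zp (x : U ⊕ Z ⊕ E → Bool) : cmb (up x) (zp x) = x := by
  ext i
  rcases i with i | i | i <;> rfl

theorem wt_act (σ : Equiv.Perm Z) (x : U ⊕ Z ⊕ E → Bool) : wt (act σ x) = wt x :=
  wt_comp (Equiv.sumCongr (Equiv.refl U) (Equiv.sumCongr σ (Equiv.refl E))) x

theorem up_act (σ : Equiv.Perm Z) (x : U ⊕ Z ⊕ E → Bool) : up (act σ x) = up x := by
  ext i
  rcases i with i | i <;> rfl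

theorem wt_cmb (w : U ⊕ E → Bool) (y : Z → Bool) : wt (cmb w y) = wt w + wt y := by
  simp only [wt_eq, Fintype.sum_sum_type, cmb, Sum.elim_inl, Sum.elim_inr]
  ring_nf

theorem av_zp_le (A : Finset (U ⊕ Z ⊕ E → Bool)) (hA : 0 < A.card)
    (h : Fintype.card (U ⊕ Z ⊕ E → Bool) = 4 * A.card) (φ : (Z → Bool) → ℝ) (hφ : ∀ y, 0 ≤ φ y) :
    av (fun a : A => φ (zp a.1)) ≤ 4 * av φ := by
  rw [av_coe A hA h fun x => φ (zp x), av_cmb]
  apply mul_le_mul_of_nonneg_left _ (by norm_num)
  apply av_mono
  intro y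
  apply av_le
  intro w
  split_ifs
  · exact le_rfl
  · exact hφ y

end blk

theorem ball_good {U Γ : Type} [Fintype U] [DecidableEq U] [Fintype Γ] [Nonempty Γ]
    (S : Γ → Finset U) (hS : Function.Injective S) (r : ℝ) (hr : ∀ γ, ((S γ).card : ℝ) ≤ r)
    (n k : ℕ) (hn : 0 < n) (A At : Finset (U ⊕ Fin n ⊕ Bool → Bool))
    (hA : A.card = Fintype.card (U ⊕ Fin n → Bool)) (h1 : ∀ x, wt x ≤ k → x ∈ A)
    (h2 : ∀ x ∈ A, wt x ≤ k + 1) (hAt : At ⊆ A) (hsym : ∀ σ x, x ∈ At ↔ act σ x ∈ At)
    (hdiff : (A \ At).card ≤ 2 ^ n) (q p : ℝ) (hq : 0 < q) (hnq : (n : ℝ) ≤ q ^ 2)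
    (hp : ∀ j, (n.choose j : ℝ) / 2 ^ n ≤ p) (hm : n ≤ 2 ^ Fintype.card U)
    (hΓ : ((n : ℝ) + 1) ^ 6 * (Fintype.card (U ⊕ Fin n ⊕ Bool) : ℝ) ^ 2 ≤ Fintype.card Γ) :
    Good (U ⊕ Fin n) (U ⊕ Fin n ⊕ Bool) A
      (2 * Fintype.card (U ⊕ Fin n) *
        ((17 + 4 * ((Fintype.card U + 2) * (Fintype.card U + 3) * p)) + r + 1) + 78 * n +
        Fintype.card U * (1 + 2 * (2 * q))) := by
  have n1 : (1 : ℝ) ≤ n := by exact_mod_cast hn
  have : Nonempty (Fin n) := ⟨⟨0, hn⟩⟩
  have A0 : 0 < A.card := by rw [hA]; exact Fintype.card_pos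
  have : Nonempty A := (Finset.card_pos.1 A0).to_subtype
  have A4 : Fintype.card (U ⊕ Fin n ⊕ Bool → Bool) = 4 * A.card := by
    rw [hA]; simp [pow_add]; ring
  have hj : ∀ y : Fin n → Bool, wt y ≤ n := fun y => by simpa using wt_le y
  have Y2 : av (fun z : Fin n → Bool => ((n : ℝ) - 2 * wt z) ^ 2) = n := by
    simpa using av_wt_sq (κ := Fin n)
  have X2 : av (fun a : A => ((n : ℝ) - 2 * wt (zp a.1)) ^ 2) ≤ 4 * n := by
    have := av_zp_le A A0 A4 (fun z => ((n : ℝ) - 2 * wt z) ^ 2) fun _ => sq_nonneg _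
    rwa [Y2] at this
  have tri : ∀ y z : Fin n → Bool, 2 * |(wt z : ℝ) - wt y| ≤
      |(n : ℝ) - 2 * wt y| + |(n : ℝ) - 2 * wt z| := by
    intro y z
    have := abs_sub ((n : ℝ) - 2 * wt y) ((n : ℝ) - 2 * wt z)
    rwa [show (n : ℝ) - 2 * wt y - (n - 2 * wt z) = 2 * ((wt z : ℝ) - wt y) by ring, abs_mul,
      abs_two] at this
  apply assembly S hS r hr
    (fun (o : A × (Fin (n ^ 2) → Equiv.Perm (Fin n))) z => tries (wt (zp o.1.1)) (n ^ 2) o.2 z)
    A hA _ _ (((n : ℝ) + 1) ^ 6) _ _ _ _ hΓ
  · intro h hh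
    let H : (Fin n → Bool) → ℝ := fun y => av fun u => h (emb Bool u y)
    have HL : Lip H := by
      intro y y'
      simp only [H]
      rw [← av_sub]
      apply av_le
      intro u
      have := hh (emb Bool u y) (emb Bool u y')
      rwa [hd_emb, hd_self, zero_add] at this
    have e1 : av (fun u => av fun o : A × (Fin (n ^ 2) → Equiv.Perm (Fin n)) => av fun z =>
        h (emb Bool u (tries (wt (zp o.1.1)) (n ^ 2) o.2 z))) =
        av fun a : A => av fun ω : Fin (n ^ 2) → Equiv.Perm (Fin n) => av fun z =>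
          H (tries (wt (zp a.1)) (n ^ 2) ω z) := by
      rw [av_comm, av_prod]
      apply av_congr
      intro a
      apply av_congr
      intro ω
      rw [av_comm]
    rw [e1]
    have e2 := av_mono fun a : A => tries_law (hj (zp a.1)) (n ^ 2) H HL (zp a.1) rfl
    rw [av_add, av_mul] at e2
    have e3 : av (fun a : A => (1 - (n.choose (wt (zp a.1)) : ℝ) / 2 ^ n) ^ (n ^ 2)) ≤
        4 * ((n + 1) / n ^ 2) := by
      have p1 : ∀ j, (n.choose j : ℝ) / 2 ^ n ≤ 1 := fun j => by
        rw [div_le_one (by positivity)]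
        exact_mod_cast Nat.choose_le_two_pow n j
      refine (av_zp_le A A0 A4 (fun z => (1 - (n.choose (wt z) : ℝ) / 2 ^ n) ^ (n ^ 2))
        fun y => pow_nonneg (by linarith [p1 (wt y)]) _).trans ?_
      apply mul_le_mul_of_nonneg_left _ (by norm_num)
      rw [av_level (fun j => (1 - (n.choose j : ℝ) / 2 ^ n) ^ (n ^ 2)), Fintype.card_fin]
      refine (Finset.sum_le_card_nsmul _ _ (1 / (n : ℝ) ^ 2) ?_).trans (le_of_eq ?_)
      · intro j _
        set t : ℝ := (n.choose j : ℝ) / 2 ^ n
        have t0 : 0 ≤ t := by positivity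
        have t1 : t ≤ 1 := p1 j
        have b1 := one_add_mul_le_pow (show (-2 : ℝ) ≤ t by linarith) (n ^ 2)
        have b2 : (1 - t) ^ (n ^ 2) * (1 + t) ^ (n ^ 2) ≤ 1 := by
          rw [← mul_pow]
          apply pow_le_one₀ <;> nlinarith
        have b3 : 0 ≤ (1 - t) ^ (n ^ 2) := pow_nonneg (by linarith) _
        have b4 := mul_le_mul_of_nonneg_left b1 b3
        rw [le_div_iff₀ (by positivity)]
        push_cast at b4
        nlinarith
      · simp [div_eq_mul_inv]
    have e4 : (n : ℝ) * (4 * ((n + 1) / n ^ 2)) ≤ 8 := by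
      rw [show (n : ℝ) * (4 * ((n + 1) / n ^ 2)) = 4 * (n + 1) / n by field_simp,
        div_le_iff₀ (by linarith)]
      linarith
    have e5 : av (fun a : A => sym H (zp a.1)) ≤ av (fun a : A => H (zp a.1)) + 1 := by
      unfold sym
      rw [av_comm]
      apply av_le
      intro σ
      have A1 : (0 : ℝ) < A.card := by exact_mod_cast A0
      simp only [av, Fintype.card_coe]
      rw [Finset.sum_coe_sort A fun x => H (zp x ∘ σ), Finset.sum_coe_sort A fun x => H (zp x),
        div_add_one A1.ne']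
      apply div_le_div_of_nonneg_right _ A1.le
      rw [← Finset.sum_sdiff hAt, ← Finset.sum_sdiff hAt (f := fun x => H (zp x))]
      have f1 : ∑ x ∈ At, H (zp x ∘ σ) = ∑ x ∈ At, H (zp x) :=
        Finset.sum_equiv (act σ) (hsym σ) fun _ _ => rfl
      have f2 : ∑ x ∈ A \ At, H (zp x ∘ σ) ≤ ∑ x ∈ A \ At, (H (zp x) + n) := by
        apply Finset.sum_le_sum
        intro x _
        have := (HL (zp x ∘ σ) (zp x)).trans (hd_le _ _)
        rw [Fintype.card_fin] at this
        linarith
      rw [Finset.sum_add_distrib, Finset.sum_const, nsmul_eq_mul] at f2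
      have f3 : (A \ At).card * n ≤ A.card := by
        rw [hA, Fintype.card_fun, Fintype.card_sum, Fintype.card_fin, Fintype.card_bool, pow_add,
          mul_comm]
        exact Nat.mul_le_mul hm hdiff
      have f4 : ((A \ At).card : ℝ) * n ≤ A.card := by exact_mod_cast f3
      linarith
    set m : ℝ := (Fintype.card U : ℝ) with hm'
    have m0 : 0 ≤ m := by positivity
    have e6 : av (fun a : A => H (zp a.1) - h a.1) ≤ 4 * (2 + (m + 2) * ((m + 3) * p)) := by
      rw [av_coe A A0 A4 fun x => H (zp x) - h x, av_cmb]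
      apply mul_le_mul_of_nonneg_left _ (by norm_num)
      have g1 : ∀ y, av (fun w => if cmb w y ∈ A then H (zp (cmb w y)) - h (cmb w y) else 0) ≤
          2 + (m + 2) * if k < wt y + (Fintype.card U + 2) ∧ wt y ≤ k + 1 then 1 else 0 := by
        intro y
        have g2 : ∀ w : U ⊕ Bool → Bool, wt w ≤ Fintype.card U + 2 := fun w => by
          simpa using wt_le w
        by_cases c1 : k < wt y + (Fintype.card U + 2)
        · by_cases c2 : wt y ≤ k + 1
          · rw [if_pos ⟨c1, c2⟩]
            apply av_le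
            intro w
            split_ifs
            · show av (fun u => h (emb Bool u y)) - h (cmb w y) ≤ _
              rw [← av_const (α := U → Bool) (h (cmb w y)), ← av_sub]
              apply av_le
              intro u
              have g3 := hh (cmb (Sum.elim u fun _ => false) y) (cmb w y)
              rw [hd_cmb] at g3
              have g4 := hd_le (Sum.elim u fun _ : Bool => false) w
              simp only [Fintype.card_sum, Fintype.card_bool] at g4
              push_cast at g4
              have g5 : emb Bool u y = cmb (Sum.elim u fun _ => false) y := rfl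
              rw [g5]
              linarith
            · linarith
          · rw [if_neg (by tauto)]
            apply av_le
            intro w
            rw [if_neg]
            · linarith
            · intro c3
              have := h2 _ c3
              rw [wt_cmb] at this
              omega
        · rw [if_neg (by tauto)]
          have g3 : ∀ w, cmb w y ∈ A := fun w => h1 _ (by
            have := g2 w
            rw [wt_cmb]; omega)
          simp only [g3, if_true, mul_zero, add_zero]
          rw [av_elim (U := U) (V := Bool)]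
          show av (fun u => av fun e => H y - h (cmb (Sum.elim u e) y)) ≤ _
          simp only [av_sub, av_const, H]
          rw [← av_sub]
          apply av_le
          intro u
          rw [← av_const (α := Bool → Bool) (h (emb Bool u y)), ← av_sub]
          apply av_le
          intro e
          refine (hh _ _).trans ?_
          simp only [emb, cmb, hd_elim, Sum.elim_inl, Sum.elim_inr, hd_self, zero_add]
          simpa using hd_le (fun _ : Bool => false) e
      refine (av_mono g1).trans ?_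
      rw [av_add, av_const, av_mul, av_level fun j =>
        if k < j + (Fintype.card U + 2) ∧ j ≤ k + 1 then (1 : ℝ) else 0, Fintype.card_fin]
      apply add_le_add le_rfl
      apply mul_le_mul_of_nonneg_left _ (by linarith)
      simp only [mul_ite, mul_one, mul_zero]
      rw [← Finset.sum_filter]
      refine (Finset.sum_le_card_nsmul _ _ p fun j _ => hp j).trans ?_
      rw [nsmul_eq_mul]
      apply mul_le_mul_of_nonneg_right _ (le_trans (by positivity) (hp 0))
      have g2 : ((Finset.range (n + 1)).filter fun j =>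
          k < j + (Fintype.card U + 2) ∧ j ≤ k + 1).card ≤ Fintype.card U + 3 := by
        refine (Finset.card_le_card
          (t := Finset.Icc (k + 1 - (Fintype.card U + 2)) (k + 1)) ?_).trans ?_
        · intro j hj
          simp only [Finset.mem_filter, Finset.mem_Icc] at hj ⊢
          omega
        · rw [Nat.card_Icc]; omega
      rw [hm']
      exact_mod_cast g2
    rw [av_sub] at e6
    have e7 : av (fun a : A => h a.1) = (∑ a ∈ A, h a) / A.card := by
      simp only [av, Fintype.card_coe]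
      rw [Finset.sum_coe_sort A h]
    have e8 := mul_le_mul_of_nonneg_left e3 (show (0 : ℝ) ≤ n by linarith)
    rw [← e7]
    linarith
  · rw [av_prod]
    have g1 : ∀ a : A, av (fun ω : Fin (n ^ 2) → Equiv.Perm (Fin n) => av fun z =>
        ∑ i, hd (tries (wt (zp a.1)) (n ^ 2) ω z) (tries (wt (zp a.1)) (n ^ 2) ω (fl z i))) ≤
        (14 * n + 16) + 12 * ((n : ℝ) - 2 * wt (zp a.1)) ^ 2 := by
      intro a
      rw [av_comm]
      have g2 : ∀ z : Fin n → Bool, av (fun ω : Fin (n ^ 2) → Equiv.Perm (Fin n) =>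
          ∑ i, hd (tries (wt (zp a.1)) (n ^ 2) ω z) (tries (wt (zp a.1)) (n ^ 2) ω (fl z i))) ≤
          (10 * n + 16 + 12 * ((n : ℝ) - 2 * wt (zp a.1)) ^ 2) + 4 * ((n : ℝ) - 2 * wt z) ^ 2 := by
        intro z
        rw [av_sum]
        refine (Finset.sum_le_card_nsmul _ _ _
          fun i _ => tries_stretch (hj (zp a.1)) hn z i (n ^ 2)).trans ?_
        rw [Finset.card_univ, Fintype.card_fin, nsmul_eq_mul, mul_add, ← mul_assoc,
          mul_div_cancel₀ _ (by linarith), ← sq_abs ((n : ℝ) - 2 * wt (zp a.1)),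
          ← sq_abs ((n : ℝ) - 2 * wt z)]
        have t1 := tri (zp a.1) z
        have x0 := abs_nonneg ((n : ℝ) - 2 * wt (zp a.1))
        have y0 := abs_nonneg ((n : ℝ) - 2 * wt z)
        set X := |(n : ℝ) - 2 * wt (zp a.1)|
        set Y := |(n : ℝ) - 2 * wt z|
        have t2 : 4 * (X + 1) * (2 * |(wt z : ℝ) - wt (zp a.1)| + 2) ≤ 4 * (X + 1) * (X + Y + 2) :=
          mul_le_mul_of_nonneg_left (by linarith) (by linarith)
        nlinarith [sq_nonneg (X - Y), sq_nonneg (X - 1), sq_nonneg (Y - 1)]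
      refine (av_mono g2).trans ?_
      rw [av_add, av_const, av_mul, Y2]
      linarith
    refine (av_mono g1).trans ?_
    rw [av_add, av_const, av_mul]
    linarith
  · rw [av_prod]
    have ab : ∀ t : ℝ, |t| ≤ q / 2 + 1 / (2 * q) * t ^ 2 := by
      intro t
      have h5 : q / 2 + 1 / (2 * q) * t ^ 2 - |t| = (q - |t|) ^ 2 / (2 * q) := by
        rw [← sq_abs t]; field_simp; ring
      have h6 : 0 ≤ (q - |t|) ^ 2 / (2 * q) := by positivity
      linarith
    have c0 : 0 ≤ 1 / (2 * q) := by positivity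
    have c1 : 1 / (2 * q) * n ≤ q / 2 := by
      rw [one_div_mul_eq_div, div_le_iff₀ (by positivity)]
      linarith
    have g1 : ∀ a : A, av (fun ω : Fin (n ^ 2) → Equiv.Perm (Fin n) => av fun z =>
        hd (tries (wt (zp a.1)) (n ^ 2) ω z) z) ≤
        3 * q / 4 + 1 / (2 * q) / 2 * ((n : ℝ) - 2 * wt (zp a.1)) ^ 2 := by
      intro a
      apply av_le
      intro ω
      have g2 : ∀ z : Fin n → Bool, hd (tries (wt (zp a.1)) (n ^ 2) ω z) z ≤
          (q / 2 + 1 / (2 * q) / 2 * ((n : ℝ) - 2 * wt (zp a.1)) ^ 2) +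
            1 / (2 * q) / 2 * ((n : ℝ) - 2 * wt z) ^ 2 := by
        intro z
        have t0 := tries_dist (hj (zp a.1)) (n ^ 2) ω z
        have t1 := tri (zp a.1) z
        have t2 := ab ((n : ℝ) - 2 * wt (zp a.1))
        have t3 := ab ((n : ℝ) - 2 * wt z)
        linarith
      refine (av_mono g2).trans ?_
      rw [av_add, av_const, av_mul, Y2]
      linarith
    refine (av_mono g1).trans ?_
    rw [av_add, av_const, av_mul]
    have := mul_le_mul_of_nonneg_left X2 c0
    linarith
  · apply av_le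
    intro o
    apply av_le
    intro y
    have t1 := tries_mult (hj (zp o.1.1)) (n ^ 2) o.2 y
    have t2 := mult_nonneg (tries (wt (zp o.1.1)) (n ^ 2) o.2) y
    rw [show ((n : ℝ) + 1) ^ 6 = (((n : ℝ) + 1) ^ 3) ^ 2 by ring]
    apply pow_le_pow_left₀ t2
    push_cast at t1
    nlinarith

end Pool.Agent.H423Z.Str
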