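import Pool.Agent.H423Z.StrI

/-!
# Average stretch, part J: parameters, and two antipodal balls
-/

set_option autoImplicit false
set_option linter.unusedSectionVars false
set_option maxHeartbeats 400000

open Finset

namespace Pool.Agent.H423Z.Str

theorem exists_set {U Z E : Type} [Fintype U] [DecidableEq U] [Fintype Z] [DecidableEq Z]
    [Fintype E] [DecidableEq E] (k c : ℕ)
    (h1 : ∑ j ∈ Finset.range (k + 1), (Fintype.card (U ⊕ Z ⊕ E)).choose j ≤ c)
    (h2 : c < ∑ j ∈ Finset.range (k + 1 + 1), (Fintype.card (U ⊕ Z ⊕ E)).choose j) :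
    ∃ A At : Finset (U ⊕ Z ⊕ E → Bool), A.card = c ∧ (∀ x, wt x ≤ k → x ∈ A) ∧
      (∀ x ∈ A, wt x ≤ k + 1) ∧ At ⊆ A ∧ (∀ σ x, x ∈ At ↔ act σ x ∈ At) ∧
      (A \ At).card ≤ 2 ^ Fintype.card Z := by
  classical
  let idx : (U ⊕ E → Bool) → ℕ := fun w => (Fintype.equivFin _ w : ℕ)
  let B : ℕ → Finset (U ⊕ Z ⊕ E → Bool) := fun t =>
    Finset.univ.filter fun x => wt x ≤ k ∨ (wt x = k + 1 ∧ idx (up x) < t)
  have b0 : (B 0).card ≤ c := by
    rw [← card_ball] at h1
    simpa [B] using h1
  have b1 : ∃ t, c < (B t).card := by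
    refine ⟨Fintype.card (U ⊕ E → Bool), ?_⟩
    rw [← card_ball] at h2
    refine h2.trans_le (Finset.card_le_card ?_)
    intro x hx
    simp only [B, Finset.mem_filter, Finset.mem_univ, true_and] at hx ⊢
    have : idx (up x) < Fintype.card (U ⊕ E → Bool) := (Fintype.equivFin _ (up x)).2
    omega
  obtain ⟨t, ht⟩ : ∃ t, Nat.find b1 = t + 1 := by
    apply Nat.exists_eq_succ_of_ne_zero
    intro h
    have := Nat.find_spec b1
    rw [h] at this
    omega
  have b2 : c < (B (t + 1)).card := ht ▸ Nat.find_spec b1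
  have b3 : (B t).card ≤ c := not_lt.1 (Nat.find_min b1 (by omega))
  have b4 : B t ⊆ B (t + 1) := by
    intro x hx
    simp only [B, Finset.mem_filter, Finset.mem_univ, true_and] at hx ⊢
    omega
  obtain ⟨A, a1, a2, a3⟩ := Finset.exists_subsuperset_card_eq b4 b3 b2.le
  refine ⟨A, B t, a3, fun x hx => a1 (by simp [B, hx]), fun x hx => ?_, a1, fun σ x => ?_, ?_⟩
  · have := a2 hx
    simp only [B, Finset.mem_filter, Finset.mem_univ, true_and] at this
    omega
  · simp only [B, Finset.mem_filter, Finset.mem_univ, true_and, wt_act, up_act]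
  · have e : 2 ^ Fintype.card Z = (Finset.univ : Finset (Z → Bool)).card := by simp
    rw [e]
    apply Finset.card_le_card_of_injOn zp (fun _ _ => Finset.mem_univ _)
    have f : ∀ x ∈ A \ B t, idx (up x) = t := by
      intro x hx
      obtain ⟨q1, q2⟩ := Finset.mem_sdiff.1 hx
      have := a2 q1
      simp only [B, Finset.mem_filter, Finset.mem_univ, true_and] at this q2
      omega
    intro x hx y hy hxy
    have g : up x = up y :=
      (Fintype.equivFin _).injective (Fin.ext ((f x hx).trans (f y hy).symm))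
    rw [← cmb_up_zp x, ← cmb_up_zp y, g, hxy]

theorem ball_fin (N : ℕ) (hN : 4096 ≤ N) (k : ℕ)
    (h1 : ∑ j ∈ Finset.range (k + 1), (N + 2).choose j ≤ 2 ^ N)
    (h2 : 2 ^ N < ∑ j ∈ Finset.range (k + 1 + 1), (N + 2).choose j) :
    ∃ A : Finset (Fin (N + 2) → Bool), A.card = 2 ^ N ∧ (∀ x, wt x ≤ k → x ∈ A) ∧
      (∀ x ∈ A, wt x ≤ k + 1) ∧ Good (Fin N) (Fin (N + 2)) A (100000 * N) := by
  have hs : ∃ s, N + 2 ≤ s ^ 4 := ⟨N + 2, Nat.le_self_pow (by norm_num) _⟩
  obtain ⟨t, ht⟩ : ∃ t, Nat.find hs = t + 1 := by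
    apply Nat.exists_eq_succ_of_ne_zero
    intro h
    have := Nat.find_spec hs
    rw [h] at this
    omega
  have s1 : N + 2 ≤ (t + 1) ^ 4 := ht ▸ Nat.find_spec hs
  have s2 : t ^ 4 < N + 2 := not_le.1 (Nat.find_min hs (by omega))
  have t8 : 8 ≤ t := by
    by_contra h
    have : (t + 1) ^ 4 ≤ 8 ^ 4 := Nat.pow_le_pow_left (by omega) 4
    omega
  have t3 : 512 * t ≤ t ^ 4 := by
    have := Nat.pow_le_pow_left t8 3
    nlinarith
  have t4 : (t + 1) ^ 4 ≤ 16 * t ^ 4 := by
    have := Nat.pow_le_pow_left (show t + 1 ≤ 2 * t by omega) 4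
    rwa [mul_pow] at this
  set s := t + 1 with hs'
  set n := N - 32 * s with hn
  have n0 : 0 < n := by omega
  have n1 : s ^ 4 ≤ 36 * (n + 1) := by omega
  have : Nonempty (Fin s) := ⟨⟨0, by omega⟩⟩
  have c0 : Fintype.card (Fin 32 × Fin s) = 32 * s := by simp
  have c1 : Fintype.card ((Fin 32 × Fin s) ⊕ Fin n) = N := by simp; omega
  have c2 : Fintype.card ((Fin 32 × Fin s) ⊕ Fin n ⊕ Bool) = N + 2 := by simp; omega
  obtain ⟨A, At, a1, a2, a3, a4, a5, a6⟩ :=
    exists_set (U := Fin 32 × Fin s) (Z := Fin n) (E := Bool) k (2 ^ N) (by rwa [c2]) (by rwa [c2])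
  rw [Fintype.card_fin] at a6
  have s9 : (9 : ℝ) ≤ s := by exact_mod_cast (by omega : 9 ≤ s)
  have key := ball_good (U := Fin 32 × Fin s) (Γ := Fin 32 → Fin s)
    (fun γ => Finset.univ.image fun t => (t, γ t)) (by
      intro γ γ' h
      ext t
      have : (t, γ t) ∈ Finset.univ.image fun t => (t, γ' t) := by
        have h' : (Finset.univ.image fun t => (t, γ t)) =
          Finset.univ.image fun t => (t, γ' t) := h
        rw [← h']; simp
      simp only [Finset.mem_image, Finset.mem_univ, true_and, Prod.mk.injEq] at this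
      obtain ⟨s, rfl, hs⟩ := this
      rw [hs]) 32 (by
      intro γ
      exact_mod_cast (Finset.card_image_le.trans (by simp))) n k n0 A At
    (by rw [a1, Fintype.card_fun, c1, Fintype.card_bool]) a2 a3 a4 a5 a6 (s ^ 2) (6 / s ^ 2)
    (by positivity) (by
      rw [← pow_mul]
      exact_mod_cast (by omega : n ≤ s ^ 4)) (by
      intro j
      apply le_of_sq_le_sq _ (by positivity)
      have h3 : (n.choose j) ^ 2 * s ^ 4 ≤ 36 * 4 ^ n := by
        have h4 := Nat.mul_le_mul_left ((n.choose j) ^ 2) n1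
        have h5 := choose_sq_le n j
        rw [mul_left_comm] at h4
        omega
      have this : ((n.choose j : ℝ)) ^ 2 * (s ^ 2) ^ 2 ≤ 6 ^ 2 * (2 ^ n) ^ 2 := by
        rw [← pow_mul, ← pow_mul, mul_comm n 2, pow_mul (2 : ℝ)]
        norm_num
        exact_mod_cast h3
      rw [div_pow, div_pow, div_le_div_iff₀ (by positivity) (by positivity)]
      exact this) (by
      rw [c0]
      have := Nat.pow_le_pow_left (Nat.lt_two_pow_self (n := s)).le 4
      rw [← pow_mul] at this
      have := Nat.pow_le_pow_right (show 0 < 2 by norm_num) (show s * 4 ≤ 32 * s by omega)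
      omega) (by
      rw [c2, Fintype.card_fun, Fintype.card_fin, Fintype.card_fin]
      have h3 := Nat.pow_le_pow_left s1 8
      rw [← pow_mul] at h3
      have h4 := Nat.mul_le_mul_right ((N + 2) ^ 2)
        (Nat.pow_le_pow_left (show n + 1 ≤ N + 2 by omega) 6)
      rw [← pow_add] at h4
      exact_mod_cast h4.trans h3)
  let e' := Fintype.equivFinOfCardEq c2
  refine ⟨A.image fun a => a ∘ e'.symm, ?_, ?_, ?_, ?_⟩
  · rw [Finset.card_image_of_injective _ (e'.symm.surjective.injective_comp_right), a1]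
  · intro x hx
    refine Finset.mem_image.2 ⟨x ∘ e', a2 _ (by rwa [wt_comp]), ?_⟩
    ext i; simp
  · intro x hx
    obtain ⟨a, ha, rfl⟩ := Finset.mem_image.1 hx
    rw [wt_comp]
    exact a3 a ha
  · apply Good.transport (Fintype.equivFinOfCardEq c1) e'
    rw [Finset.image_image]
    have : ((fun a : Fin (N + 2) → Bool => a ∘ e') ∘ fun a => a ∘ e'.symm) = id := by
      ext a i; simp
    rw [this, Finset.image_id]
    refine key.mono ?_
    rw [c0, c1]
    push_cast
    have q1 : (32 * (s : ℝ) + 2) * (32 * s + 3) * (6 / s ^ 2) ≤ 6534 := by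
      rw [← mul_div_assoc, div_le_iff₀ (by positivity)]
      nlinarith
    have q2 : (n : ℝ) ≤ N := by exact_mod_cast Nat.sub_le _ _
    have q3 : (s : ℝ) ^ 4 ≤ 36 * (n + 1) := by exact_mod_cast n1
    have q4 : (4096 : ℝ) ≤ N := by exact_mod_cast hN
    have q5 : 32 * (s : ℝ) * (1 + 2 * (2 * s ^ 2)) ≤ 160 * s ^ 4 := by
      have : (1 : ℝ) ≤ s ^ 2 := by nlinarith
      have : (s : ℝ) ^ 3 ≤ s ^ 4 := pow_le_pow_right₀ (by linarith) (by norm_num)
      nlinarith
    have q6 := mul_le_mul_of_nonneg_left q1 (show (0 : ℝ) ≤ N by linarith)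
    nlinarith

/-- bitwise complement -/
def cp {κ : Type} (x : κ → Bool) : κ → Bool := fun i => !x i

theorem cp_cp {κ : Type} (x : κ → Bool) : cp (cp x) = x := by
  ext i; simp [cp]

theorem wt_cp {κ : Type} [Fintype κ] (x : κ → Bool) : wt (cp x) + wt x = Fintype.card κ := by
  rw [wt_eq, wt_eq, ← Finset.sum_add_distrib, ← Finset.card_univ, Finset.card_eq_sum_ones]
  apply Finset.sum_congr rfl
  intro i _
  cases h : x i <;> simp [cp, h]

theorem hd_cp {κ : Type} [Fintype κ] [DecidableEq κ] (x y : κ → Bool) :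
    hd (cp x) (cp y) = hd x y := by
  rw [hd_eq, hd_eq]
  simp [cp]

theorem two_balls (N : ℕ) (hN : 4096 ≤ N) (k : ℕ)
    (h1 : ∑ j ∈ Finset.range (k + 1), (N + 2).choose j ≤ 2 ^ N)
    (h2 : 2 ^ N < ∑ j ∈ Finset.range (k + 1 + 1), (N + 2).choose j) :
    ∃ A : Finset (Fin (N + 2) → Bool), A.card = 2 ^ (N + 1) ∧
      (∀ x, wt x ≤ k ∨ N + 2 - k ≤ wt x → x ∈ A) ∧
      Good (Fin (N + 1)) (Fin (N + 2)) A (100002 * (N + 1 : ℕ)) := by
  obtain ⟨A, a1, a2, a3, φ, p1, p2, p3⟩ := ball_fin N hN k h1 h2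
  have hc : ∀ x : Fin (N + 2) → Bool, wt (cp x) + wt x = N + 2 := fun x => by
    simpa using wt_cp x
  have hk : 2 * k + 1 < N + 1 := by
    by_contra h
    have e1 := card_ball (κ := Fin (N + 2)) k
    have e2 := card_wt (κ := Fin (N + 2)) (k + 1)
    rw [Fintype.card_fin] at e1 e2
    have e3 : (Finset.univ : Finset (Fin (N + 2) → Bool)) ⊆
        ((Finset.univ.filter fun x => wt x ≤ k) ∪
          (Finset.univ.filter fun x => wt x ≤ k).image cp) ∪
          Finset.univ.filter fun x => wt x = k + 1 := by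
      intro x _
      simp only [Finset.mem_union, Finset.mem_filter, Finset.mem_univ, true_and, Finset.mem_image]
      have := hc x
      by_cases q : wt (cp x) ≤ k
      · exact Or.inl (Or.inr ⟨cp x, q, cp_cp x⟩)
      · have : wt x ≤ k ∨ wt x = k + 1 := by omega
        tauto
    have e4 := (Finset.card_le_card e3).trans ((Finset.card_union_le _ _).trans
      (Nat.add_le_add_right ((Finset.card_union_le _ _).trans
        (Nat.add_le_add_left Finset.card_image_le _)) _))
    rw [e1, e2] at e4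
    simp only [Finset.card_univ, Fintype.card_fun, Fintype.card_fin, Fintype.card_bool] at e4
    have e5 := choose_sq_le (N + 2) (k + 1)
    have e6 : 2 * 2 ^ N ≤ (N + 2).choose (k + 1) := by
      rw [pow_add] at e4; omega
    have e7 := Nat.mul_le_mul (Nat.pow_le_pow_left e6 2) (show 4096 ≤ N + 2 + 1 by omega)
    have e8 : 4 ^ (N + 2) = 16 * (2 ^ N) ^ 2 := by
      rw [pow_add, ← pow_mul, mul_comm N 2, pow_mul]; norm_num; ring
    have e9 : 0 < (2 ^ N) ^ 2 := by positivity
    rw [mul_pow] at e7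
    omega
  have dj : ∀ x ∈ A, ∀ y ∈ A, x ≠ cp y := by
    intro x hx y hy h
    have := a3 x hx
    have := a3 y hy
    have := hc y
    rw [← h] at this
    omega
  let ψ : Bool → (Fin N → Bool) → (Fin (N + 2) → Bool) := fun b t => if b then cp (φ t) else φ t
  refine ⟨A ∪ A.image cp, ?_, ?_, fun x => ψ (x 0) (Fin.tail x), ?_, ?_, ?_⟩
  · rw [Finset.card_union_of_disjoint, Finset.card_image_of_injective _
      (Function.Involutive.injective cp_cp), a1]
    · ring
    · rw [Finset.disjoint_left]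
      intro x hx hx'
      obtain ⟨y, hy, rfl⟩ := Finset.mem_image.1 hx'
      exact dj _ hx y hy rfl
  · intro x hx
    rw [Finset.mem_union]
    rcases hx with hx | hx
    · exact Or.inl (a2 x hx)
    · refine Or.inr (Finset.mem_image.2 ⟨cp x, a2 _ ?_, cp_cp x⟩)
      have := hc x
      omega
  · intro x y
    induction x using cons_ind with | h b t =>
    induction y using cons_ind with | h c u =>
    simp only [Fin.cons_zero, Fin.tail_cons, ψ]
    intro h
    cases b <;> cases c <;> simp only [Bool.false_eq_true, if_false, if_true] at h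
    · rw [p1 h]
    · exact absurd h (dj _ (p2 t) _ (p2 u))
    · exact absurd h.symm (dj _ (p2 u) _ (p2 t))
    · rw [p1 (Function.Involutive.injective cp_cp h)]
  · intro x
    simp only [ψ]
    split_ifs
    · exact Finset.mem_union_right _ (Finset.mem_image_of_mem _ (p2 _))
    · exact Finset.mem_union_left _ (p2 _)
  · rw [av_cons]
    apply av_le
    intro b
    have g : ∀ t : Fin N → Bool, ∑ i : Fin (N + 1),
        hd (ψ ((Fin.cons b t : Fin (N + 1) → Bool) 0) (Fin.tail (Fin.cons b t : Fin (N + 1) → Bool)))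
          (ψ (fl (Fin.cons b t : Fin (N + 1) → Bool) i 0)
            (Fin.tail (fl (Fin.cons b t : Fin (N + 1) → Bool) i))) ≤
        (N + 2) + ∑ i, hd (φ t) (φ (fl t i)) := by
      intro t
      rw [Fin.sum_univ_succ]
      apply add_le_add
      · simpa using hd_le (κ := Fin (N + 2)) _ _
      · apply le_of_eq
        apply Finset.sum_congr rfl
        intro i _
        simp only [fl_cons_succ, Fin.cons_zero, Fin.tail_cons, ψ]
        split_ifs
        · exact hd_cp _ _
        · rfl
    refine (av_mono g).trans ?_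
    rw [av_add, av_const]
    push_cast
    have : (0 : ℝ) ≤ N := Nat.cast_nonneg _
    linarith

end Pool.Agent.H423Z.Str
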